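import Pool.Agent.H.MP_8be301_an.RD.Spec

/-!
# Connected groups act trivially on the classes of projections  (module Conn)

`mvn_close`: `z = q * p + (1 - q) * (1 - p)`: `z * p = q * z = q * p`; `z - 1 = (2 q - 1) (p - q)` (check), so `‖z - 1‖ ≤ ‖p - q‖ < 1`
(`2 q - 1` is a unitary) and `z` is invertible, `c = star z * z` commutes with `p`, is positive and invertible, `t = c^(-1/2)`
(`invSqrt` for the letI instances `CStarAlgebra.spectralOrder A`, `CStarAlgebra.spectralOrderedRing A`; a lower bound from
`CFC.exists_pos_algebraMap_le_iff` or the unit), `v = z * t * p`: `star v * v = p t c t p = p`, `v * star v = z t p t star z =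
q z t t star z q = q` as `z t t star z = 1` (`z t` is unitary: isometry and invertible).
`triv_of_connected`: the set `{g : Mvn p (α g p)}` contains `1`, and it and its complement are open (`mvn_close`, `Mvn` is an
equivalence relation; continuity of `g ↦ α g p`); `IsClopen.eq_univ`.
-/

set_option autoImplicit false

namespace Pool.Agent.H.MP_8be301_an.RD

variable {A : Type*} [CStarAlgebra A]

theorem Mvn.refl {p : A} (hp : Pj p) : Mvn p p := by
  refine ⟨p, ?_, ?_⟩
  · rw [hp.2, hp.1]
  · rw [hp.2, hp.1]

theorem Mvn.symm {p q : A} (h : Mvn p q) : Mvn q p := by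
  obtain ⟨v, h1, h2⟩ := h
  exact ⟨star v, by rw [star_star]; exact h2, by rw [star_star]; exact h1⟩

theorem Mvn.trans {p q r : A} (hp : Pj p) (hq : Pj q) (hr : Pj r) (h : Mvn p q) (h' : Mvn q r) :
    Mvn p r := by
  obtain ⟨v, h1, h2⟩ := h
  obtain ⟨w, h3, h4⟩ := h'
  refine ⟨w * v, ?_, ?_⟩
  · calc star (w * v) * (w * v) = star v * (star w * w) * v := by rw [star_mul]; noncomm_ring
      _ = star v * (v * star v) * v := by rw [h3, h2]
      _ = (star v * v) * (star v * v) := by noncomm_ring
      _ = p := by rw [h1, hp.1]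
  · calc (w * v) * star (w * v) = w * (v * star v) * star w := by rw [star_mul]; noncomm_ring
      _ = w * (star w * w) * star w := by rw [h2, h3]
      _ = (w * star w) * (w * star w) := by noncomm_ring
      _ = r := by rw [h4, hr.1]

theorem mvn_close {p q : A} (hp : Pj p) (hq : Pj q) (h : ‖p - q‖ < 1) : Mvn p q := by
  letI : PartialOrder A := CStarAlgebra.spectralOrder A
  letI : StarOrderedRing A := CStarAlgebra.spectralOrderedRing A
  have hp1 : p * p = p := hp.1
  have hq1 : q * q = q := hq.1
  have hp2 : ∀ x : A, p * (p * x) = p * x := fun x => by rw [← mul_assoc, hp1]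
  have hq2 : ∀ x : A, q * (q * x) = q * x := fun x => by rw [← mul_assoc, hq1]
  have hps : star p = p := hp.2
  have hqs : star q = q := hq.2
  set z : A := q * p + (1 - q) * (1 - p) with hz
  set c : A := 1 - (p - q) * (p - q) with hc
  have hzs : star z = p * q + (1 - p) * (1 - q) := by
    rw [hz]
    simp only [star_add, star_mul, star_sub, star_one, hps, hqs]
  have h1 : star z * z = c := by
    rw [hzs, hz, hc]
    simp only [mul_add, add_mul, mul_sub, sub_mul, mul_one, one_mul, mul_assoc, hp1, hq1, hp2, hq2]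
    abel
  have h2 : z * star z = c := by
    rw [hzs, hz, hc]
    simp only [mul_add, add_mul, mul_sub, sub_mul, mul_one, one_mul, mul_assoc, hp1, hq1, hp2, hq2]
    abel
  have h3 : z * p = q * z := by
    rw [hz]
    simp only [mul_add, add_mul, mul_sub, sub_mul, mul_one, one_mul, mul_assoc, hp1, hq1, hp2, hq2]
    abel
  have hcp : p * c = c * p := by
    rw [hc]
    simp only [mul_add, add_mul, mul_sub, sub_mul, mul_one, one_mul, mul_assoc, hp1, hq1, hp2, hq2]
    abel
  have hzc : z * c = c * z := by
    nth_rewrite 1 [← h1]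
    rw [← mul_assoc, h2]
  have hd : ‖c - 1‖ ≤ ‖p - q‖ * ‖p - q‖ := by
    have e : c - 1 = -((p - q) * (p - q)) := by rw [hc]; abel
    rw [e, norm_neg]
    exact norm_mul_le _ _
  have hcs : IsSelfAdjoint c := by
    rw [← h1]
    exact IsSelfAdjoint.star_mul_self z
  have h0 : algebraMap ℝ A 1 ≤ (1 : A) := by rw [map_one]
  have hlb := lb_close h0 hcs hd
  have hpos : 0 < 1 - ‖p - q‖ * ‖p - q‖ := by nlinarith [norm_nonneg (p - q)]
  obtain ⟨t, ht, htc, hcomm⟩ := invSqrt hpos hlb
  have htp : p * t = t * p := hcomm p hcp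
  have htz : z * t = t * z := hcomm z hzc
  have htcc : c * t = t * c := hcomm c rfl
  have htt : t * t * c = 1 := by
    rw [mul_assoc, ← htcc, ← mul_assoc, htc]
  have hts : star t = t := ht
  have hzt2 : z * (t * t) = t * t * z := by
    rw [← mul_assoc, htz, mul_assoc, htz, ← mul_assoc]
  refine ⟨z * t * p, ?_, ?_⟩
  · calc star (z * t * p) * (z * t * p) = p * (t * (star z * z) * t) * p := by
          rw [star_mul, star_mul, hps, hts]; noncomm_ring
      _ = p := by rw [h1, htc, mul_one, hp1]
  · calc (z * t * p) * star (z * t * p) = z * (t * (p * p) * t) * star z := by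
          rw [star_mul, star_mul, hps, hts]; simp only [mul_assoc]
      _ = z * (p * (t * t)) * star z := by rw [hp1, ← htp]; simp only [mul_assoc]
      _ = (z * p) * (t * t) * star z := by simp only [mul_assoc]
      _ = q * (z * (t * t)) * star z := by rw [h3]; simp only [mul_assoc]
      _ = q * (t * t * (z * star z)) := by rw [hzt2]; simp only [mul_assoc]
      _ = q := by rw [h2, htt, mul_one]

theorem Conn_pj {p : A} (hp : Pj p) (β : A ≃⋆ₐ[ℂ] A) : Pj (β p) := by
  refine ⟨?_, ?_⟩
  · rw [← map_mul, hp.1]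
  · rw [← map_star, hp.2]

theorem triv_of_connected {G : Type*} [Group G] [TopologicalSpace G] [ConnectedSpace G]
    (α : G →* (A ≃⋆ₐ[ℂ] A)) (hc : ∀ a : A, Continuous fun g => α g a) (g : G) :
    Triv (α g) := by
  intro p hp
  have hnear : ∀ g₀ : G, ∀ᶠ g' in nhds g₀, ‖α g' p - α g₀ p‖ < 1 := by
    intro g₀
    have h1 := (hc p).continuousAt (x := g₀)
    have h2 := Metric.tendsto_nhds.1 h1 1 one_pos
    filter_upwards [h2] with g' hg'
    rwa [dist_eq_norm] at hg'
  have hS : IsClopen {g' : G | Mvn p (α g' p)} := by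
    constructor
    · rw [← isOpen_compl_iff, isOpen_iff_mem_nhds]
      intro g₀ hg₀
      filter_upwards [hnear g₀] with g' hg' hm
      exact hg₀ (Mvn.trans hp (Conn_pj hp _) (Conn_pj hp _) hm
        (mvn_close (Conn_pj hp _) (Conn_pj hp _) hg'))
    · rw [isOpen_iff_mem_nhds]
      intro g₀ hg₀
      filter_upwards [hnear g₀] with g' hg'
      refine Mvn.trans hp (Conn_pj hp _) (Conn_pj hp _) hg₀
        (mvn_close (Conn_pj hp _) (Conn_pj hp _) ?_)
      rwa [norm_sub_rev]
  have hne : {g' : G | Mvn p (α g' p)}.Nonempty := by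
    refine ⟨1, ?_⟩
    show Mvn p (α 1 p)
    rw [map_one]
    exact Mvn.refl hp
  have h := hS.eq_univ hne
  have h' : g ∈ {g' : G | Mvn p (α g' p)} := by rw [h]; exact Set.mem_univ g
  exact h'

end Pool.Agent.H.MP_8be301_an.RD
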