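import Pool.Agent.H.MP_8be301_an.RD.Spec

/-!
# Projections in hereditary subalgebras  (module Hp)

`hp`: `a = star y * y ≠ 0`, `a'` self-adjoint of finite spectrum with `‖a - a'‖ < ‖a‖ / 4`, `a' = ∑ x • r x` (`finSpec`). Put
`e = ∑_{x ∈ s, ‖a‖ / 2 ≤ x} r x`, a projection that commutes with `a'`. `e ≠ 0`: otherwise `a' ≤ ‖a‖ / 2` and
`a ≤ a' + ‖a‖ / 4 ≤ 3/4 ‖a‖`, a contradiction to `‖a‖ ≤ 3/4 ‖a‖`. `e a' e ≥ (‖a‖ / 2) e`, so `e a e ≥ (‖a‖ / 4) e` and
`c = e a e + (1 - e) ≥ κ = min (‖a‖ / 4) 1 > 0`. `t` from `invSqrt`, `t` commutes with `e` (as `e` commutes with `c`). `x = e t`: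
`star x * a * x = t e a e t = (t c t) e = e` (`t e a e t = t (c - (1 - e)) t` times `e`).
`hp2`: `hp` for `y = a`: `x` with `e = star x * (a * a) * x`; `z = x * star x`: `a z a = (a x) (a x)*` is a projection as
`(a x)* (a x) = e` is one.
-/

set_option autoImplicit false

namespace Pool.Agent.H.MP_8be301_an.RD

variable {A : Type*} [CStarAlgebra A] [PartialOrder A] [StarOrderedRing A]

/-- a nonnegative multiple of a projection is nonnegative -/
theorem Hp_smul_nonneg {p : A} (hp : Pj p) {c : ℝ} (hc : 0 ≤ c) : 0 ≤ c • p := by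
  have h1 : c • p = star (Real.sqrt c • p) * (Real.sqrt c • p) := by
    rw [star_smul, star_trivial, smul_mul_smul_comm, Real.mul_self_sqrt hc, hp.2, hp.1]
  rw [h1]
  exact star_mul_self_nonneg _

omit [PartialOrder A] [StarOrderedRing A] in
/-- products with a sum of some of the orthogonal projections -/
theorem Hp_mul_sum {s : Finset ℝ} {r : ℝ → A} (hr : ∀ x ∈ s, Pj (r x))
    (ho : ∀ x ∈ s, ∀ x' ∈ s, x ≠ x' → r x * r x' = 0) {u : Finset ℝ} (hu : u ⊆ s) {x : ℝ}
    (hx : x ∈ s) : r x * (∑ z ∈ u, r z) = (if x ∈ u then r x else 0) ∧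
      (∑ z ∈ u, r z) * r x = (if x ∈ u then r x else 0) := by
  rw [Finset.mul_sum, Finset.sum_mul]
  by_cases h : x ∈ u
  · rw [if_pos h]
    constructor
    · rw [Finset.sum_eq_single x, (hr x hx).1]
      · intro z hz hzx
        exact ho x hx z (hu hz) hzx.symm
      · intro h'
        exact absurd h h'
    · rw [Finset.sum_eq_single x, (hr x hx).1]
      · intro z hz hzx
        exact ho z (hu hz) x hx hzx
      · intro h'
        exact absurd h h'
  · rw [if_neg h]
    constructor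
    · exact Finset.sum_eq_zero fun z hz => ho x hx z (hu hz) fun h' => h (h' ▸ hz)
    · exact Finset.sum_eq_zero fun z hz => ho z (hu hz) x hx fun h' => h (h' ▸ hz)

theorem Hp_proj {s : Finset ℝ} {r : ℝ → A} (hr : ∀ x ∈ s, Pj (r x))
    (ho : ∀ x ∈ s, ∀ x' ∈ s, x ≠ x' → r x * r x' = 0) {u : Finset ℝ} (hu : u ⊆ s) :
    Pj (∑ z ∈ u, r z) := by
  constructor
  · nth_rewrite 1 [Finset.sum_mul]
    refine Finset.sum_congr rfl fun x hx => ?_
    rw [(Hp_mul_sum hr ho hu (hu hx)).1, if_pos hx]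
  · rw [star_sum]
    exact Finset.sum_congr rfl fun x hx => (hr x (hu hx)).2

theorem Hp_conj_nonneg {e z : A} (he : Pj e) (hz : 0 ≤ z) : 0 ≤ e * z * e := by
  have h := star_left_conjugate_nonneg hz e
  rwa [he.2] at h

theorem hp (h0 : RR0 A) {y : A} (hy : y ≠ 0) :
    ∃ x : A, Pj (star x * (star y * y) * x) ∧ star x * (star y * y) * x ≠ 0 := by
  obtain ⟨a, ha⟩ : ∃ a, a = star y * y := ⟨_, rfl⟩
  have ha0 : a ≠ 0 := by
    rw [ha]
    intro h
    exact hy (CStarRing.star_mul_self_eq_zero_iff y |>.1 h)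
  have hapos : 0 ≤ a := by
    rw [ha]
    exact star_mul_self_nonneg y
  have has : IsSelfAdjoint a := IsSelfAdjoint.of_nonneg hapos
  rw [← ha]
  obtain ⟨N, hN⟩ : ∃ N, N = ‖a‖ := ⟨_, rfl⟩
  have hN0 : 0 < N := by
    rw [hN]
    exact norm_pos_iff.2 ha0
  obtain ⟨a', ha's, ha'f, hd⟩ := h0 a has (N / 4) (by linarith)
  obtain ⟨s, r, hr, ho, hsum, hsum'⟩ := finSpec ha's ha'f
  obtain ⟨u, hu⟩ : ∃ u, u = s.filter fun x => N / 2 ≤ x := ⟨_, rfl⟩
  have hus : u ⊆ s := by
    rw [hu]
    exact Finset.filter_subset _ _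
  obtain ⟨e, he⟩ : ∃ e, e = ∑ z ∈ u, r z := ⟨_, rfl⟩
  have hPe : Pj e := by
    rw [he]
    exact Hp_proj hr ho hus
  have hre : ∀ x ∈ s, r x * e = (if x ∈ u then r x else 0) ∧
      e * r x = (if x ∈ u then r x else 0) := by
    intro x hx
    rw [he]
    exact Hp_mul_sum hr ho hus hx
  -- the difference of `a` and `a'`
  have hsd : IsSelfAdjoint (a - a') := has.sub ha's
  have hlo : -(algebraMap ℝ A (N / 4)) ≤ a - a' :=
    (neg_le_neg (algebraMap_mono A hd.le)).trans hsd.neg_algebraMap_norm_le_self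
  have hhi : a - a' ≤ algebraMap ℝ A (N / 4) :=
    (hsd.le_algebraMap_norm_self).trans (algebraMap_mono A hd.le)
  -- `e ≠ 0`
  have he0 : e ≠ 0 := by
    intro h
    have h1 : a' ≤ algebraMap ℝ A (N / 2) := by
      rw [← sub_nonneg]
      have h2 : algebraMap ℝ A (N / 2) - a' = ∑ x ∈ s, (N / 2 - x) • r x := by
        simp only [sub_smul]
        rw [Finset.sum_sub_distrib, hsum', ← Finset.smul_sum, hsum, Algebra.algebraMap_eq_smul_one]
      rw [h2]
      refine Finset.sum_nonneg fun x hx => ?_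
      by_cases hxu : x ∈ u
      · have h3 := (hre x hx).1
        rw [h, mul_zero, if_pos hxu] at h3
        rw [← h3, smul_zero]
      · refine Hp_smul_nonneg (hr x hx) ?_
        rw [hu, Finset.mem_filter, not_and] at hxu
        have := not_le.1 (hxu hx)
        linarith
    have h2 : a ≤ algebraMap ℝ A (3 * N / 4) := by
      have h3 := add_le_add hhi h1
      rw [sub_add_cancel, ← map_add] at h3
      rwa [show N / 4 + N / 2 = 3 * N / 4 by ring] at h3
    have h3 : ‖a‖ ≤ 3 * N / 4 :=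
      (CStarAlgebra.norm_le_iff_le_algebraMap a (by positivity) hapos).2 h2
    rw [← hN] at h3
    linarith
  -- the lower bound
  have hlow : 0 ≤ e * a * e - (N / 4) • e := by
    have h1 : 0 ≤ e * (a - a' + algebraMap ℝ A (N / 4)) * e :=
      Hp_conj_nonneg hPe (by
        have := add_le_add_left hlo (algebraMap ℝ A (N / 4))
        simpa using this)
    have h2 : e * a' * e = ∑ x ∈ u, x • r x := by
      rw [← hsum', Finset.mul_sum, Finset.sum_mul,
        ← Finset.sum_filter_add_sum_filter_not s (· ∈ u)]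
      have h3 : s.filter (· ∈ u) = u := by
        ext x
        rw [Finset.mem_filter]
        exact ⟨fun h => h.2, fun h => ⟨hus h, h⟩⟩
      rw [h3]
      have h4 : ∑ x ∈ s.filter (fun x => x ∉ u), e * (x • r x) * e = 0 := by
        refine Finset.sum_eq_zero fun x hx => ?_
        obtain ⟨h5, h6⟩ := Finset.mem_filter.1 hx
        rw [mul_smul_comm, (hre x h5).2, if_neg h6, smul_zero, zero_mul]
      rw [h4, add_zero]
      refine Finset.sum_congr rfl fun x hx => ?_
      rw [mul_smul_comm, (hre x (hus hx)).2, if_pos hx, smul_mul_assoc, (hre x (hus hx)).1,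
        if_pos hx]
    have h3 : 0 ≤ e * a' * e - (N / 2) • e := by
      have h4 : e * a' * e - (N / 2) • e = ∑ x ∈ u, (x - N / 2) • r x := by
        simp only [sub_smul]
        rw [Finset.sum_sub_distrib, h2, ← Finset.smul_sum, ← he]
      rw [h4]
      refine Finset.sum_nonneg fun x hx => Hp_smul_nonneg (hr x (hus hx)) ?_
      rw [hu, Finset.mem_filter] at hx
      linarith [hx.2]
    have h4 := add_nonneg h1 h3
    have h5 : e * (a - a' + algebraMap ℝ A (N / 4)) * e + (e * a' * e - (N / 2) • e) =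
        e * a * e - (N / 4) • e := by
      rw [mul_add, add_mul, mul_sub, sub_mul, Algebra.algebraMap_eq_smul_one, mul_smul_comm,
        mul_one, smul_mul_assoc, hPe.1]
      have h6 : (N / 2) • e = (N / 4) • e + (N / 4) • e := by
        rw [← add_smul]
        congr 1
        ring
      rw [h6]
      abel
    rwa [h5] at h4
  obtain ⟨κ, hκ⟩ : ∃ κ, κ = min (N / 4) 1 := ⟨_, rfl⟩
  have hκ0 : 0 < κ := by
    rw [hκ]
    exact lt_min (by linarith) one_pos
  have hPe' : Pj (1 - e) := by
    refine ⟨?_, ?_⟩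
    · rw [mul_sub, sub_mul, sub_mul, hPe.1]
      simp
    · rw [star_sub, star_one, hPe.2]
  obtain ⟨c, hc⟩ : ∃ c, c = e * a * e + (1 - e) := ⟨_, rfl⟩
  have hck : algebraMap ℝ A κ ≤ c := by
    rw [← sub_nonneg]
    have h1 : 0 ≤ (N / 4 - κ) • e :=
      Hp_smul_nonneg hPe (by rw [hκ]; linarith [min_le_left (N / 4) 1])
    have h2 : 0 ≤ (1 - κ) • (1 - e) :=
      Hp_smul_nonneg hPe' (by rw [hκ]; linarith [min_le_right (N / 4) 1])
    have h3 := add_nonneg (add_nonneg hlow h1) h2
    have h4 : e * a * e - (N / 4) • e + (N / 4 - κ) • e + (1 - κ) • (1 - e) =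
        c - algebraMap ℝ A κ := by
      rw [hc, Algebra.algebraMap_eq_smul_one, sub_smul, sub_smul, one_smul, smul_sub]
      abel
    rwa [h4] at h3
  obtain ⟨t, hts, htc, htx⟩ := invSqrt hκ0 hck
  have hce : c * e = e * a * e := by
    rw [hc, add_mul, sub_mul, one_mul, mul_assoc (e * a), hPe.1, sub_self, add_zero]
  have hec : e * c = e * a * e := by
    rw [hc, mul_add, mul_sub, mul_one, ← mul_assoc, ← mul_assoc, hPe.1, sub_self, add_zero]
  have het : e * t = t * e := htx e (by rw [hce, hec])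
  have hfin : star (e * t) * a * (e * t) = e := by
    rw [star_mul, hPe.2, hts.star_eq]
    calc t * e * a * (e * t) = t * (e * a * e) * t := by simp only [mul_assoc]
      _ = t * (c * e) * t := by rw [hce]
      _ = t * c * (e * t) := by simp only [mul_assoc]
      _ = t * c * (t * e) := by rw [het]
      _ = (t * c * t) * e := by simp only [mul_assoc]
      _ = e := by rw [htc, one_mul]
  refine ⟨e * t, ?_, ?_⟩
  · rw [hfin]
    exact hPe
  · rw [hfin]
    exact he0

theorem hp2 (h0 : RR0 A) {a : A} (ha : a ≠ 0) (hs : IsSelfAdjoint a) :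
    ∃ z : A, Pj (a * z * a) ∧ a * z * a ≠ 0 := by
  obtain ⟨x, hP, hne⟩ := hp h0 ha
  obtain ⟨w, hw⟩ : ∃ w, w = a * x := ⟨_, rfl⟩
  have h1 : star w * w = star x * (star a * a) * x := by
    rw [hw, star_mul]
    simp only [mul_assoc]
  have h2 : a * (x * star x) * a = w * star w := by
    rw [hw, star_mul, hs.star_eq]
    simp only [mul_assoc]
  have h3 : w * (star w * w) = w := pi_right (p := star w * w) (by rw [h1]; exact hP) rfl
  refine ⟨x * star x, ?_, ?_⟩
  · rw [h2]
    refine ⟨?_, ?_⟩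
    · calc w * star w * (w * star w) = w * (star w * w) * star w := by simp only [mul_assoc]
        _ = w * star w := by rw [h3]
    · rw [star_mul, star_star]
  · rw [h2]
    intro h4
    have h5 : w = 0 := CStarRing.mul_star_self_eq_zero_iff w |>.1 h4
    rw [h5, mul_zero] at h1
    exact hne h1.symm

end Pool.Agent.H.MP_8be301_an.RD
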