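import Pool.Agent.H.MP_8be301_an.RD.Sqr

/-!
# Elements of finite spectrum, and the unitary lemma  (module Spec)

`finSpec`: the real spectrum of `y` is finite (`quasispectrum ℂ y = spectrum ℂ y ∪ {0}` in a unital algebra; `spectrum ℝ y`
is the preimage of `spectrum ℂ y`), so every function is continuous on it (discrete). `r x = cfc (fun t : ℝ => if t = x
then 1 else 0) y`, `s = ` the spectrum as a finset; products, sums from `cfc_mul`, `cfc_sum`, `cfc_congr` etc.
`lemU`: `y` of finite spectrum with `‖b - y‖ < ε / 2`, `y = ∑ x • r x`; `v x` with `star (v x) * v x = r x`,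
`v x * star (v x) = β (r x)`; `S = ∑ star (v x)`: `v x * r x = v x` (C*-identity), `star (v x) * v x' = 0` for `x ≠ x'` (as
`v x' = β (r x') * v x'`), `star S * y * S = β y`, `S` is unitary.
-/

set_option autoImplicit false

namespace Pool.Agent.H.MP_8be301_an.RD

variable {A : Type*} [CStarAlgebra A]

theorem Spec_fin {y : A} (hf : (quasispectrum ℂ y).Finite) : (spectrum ℝ y).Finite := by
  refine (hf.preimage (algebraMap ℝ ℂ).injective.injOn).subset fun x hx => ?_
  exact spectrum_subset_quasispectrum ℂ y ((spectrum.algebraMap_mem_iff ℂ).2 hx)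

theorem finSpec {y : A} (hy : IsSelfAdjoint y) (hf : (quasispectrum ℂ y).Finite) :
    ∃ (s : Finset ℝ) (r : ℝ → A), (∀ x ∈ s, Pj (r x)) ∧
      (∀ x ∈ s, ∀ x' ∈ s, x ≠ x' → r x * r x' = 0) ∧ ∑ x ∈ s, r x = 1 ∧
      ∑ x ∈ s, x • r x = y := by
  classical
  have hs := Spec_fin hf
  have hc : ∀ f : ℝ → ℝ, ContinuousOn f (spectrum ℝ y) := fun f => hs.continuousOn f
  obtain ⟨f, hfd⟩ : ∃ f : ℝ → ℝ → ℝ, ∀ x t, f x t = if t = x then 1 else 0 :=
    ⟨_, fun _ _ => rfl⟩
  have hmul : ∀ x x', cfc (f x) y * cfc (f x') y = cfc (fun t => f x t * f x' t) y := fun x x' =>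
    (cfc_mul (f x) (f x') y (hc _) (hc _)).symm
  have hsum : ∀ g : ℝ → ℝ, ∑ x ∈ hs.toFinset, g x • cfc (f x) y = cfc g y := by
    intro g
    have h1 : ∀ x ∈ hs.toFinset, g x • cfc (f x) y = cfc (fun t => g x • f x t) y := fun x _ =>
      (cfc_smul (g x) (f x) y (hc _)).symm
    rw [Finset.sum_congr rfl h1, ← cfc_sum (fun x t => g x • f x t) y hs.toFinset
      (fun x _ => hc _)]
    refine cfc_congr fun t ht => ?_
    rw [Finset.sum_apply, Finset.sum_eq_single t]
    · rw [hfd, if_pos rfl, smul_eq_mul, mul_one]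
    · intro x _ hx
      rw [hfd, if_neg (Ne.symm hx), smul_zero]
    · intro h
      exact absurd (hs.mem_toFinset.2 ht) h
  refine ⟨hs.toFinset, fun x => cfc (f x) y, fun x _ => ⟨?_, ?_⟩, fun x _ x' _ hx => ?_, ?_, ?_⟩
  · rw [hmul]
    congr 1
    funext t
    rw [hfd]
    split_ifs
    · rw [mul_one]
    · rw [mul_zero]
  · exact (cfc_predicate (f x) y : IsSelfAdjoint (cfc (f x) y)).star_eq
  · show cfc (f x) y * cfc (f x') y = 0
    rw [hmul]
    have h1 : (fun t => f x t * f x' t) = (0 : ℝ → ℝ) := by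
      funext t
      rw [hfd, hfd, Pi.zero_apply]
      by_cases h : t = x
      · rw [if_neg (show t ≠ x' from fun h' => hx (h.symm.trans h')), mul_zero]
      · rw [if_neg h, zero_mul]
    rw [h1]
    exact cfc_zero ℝ y
  · have h1 := hsum fun _ => 1
    simp only [one_smul] at h1
    rw [h1]
    exact cfc_const_one ℝ y
  · have h1 := hsum fun t => t
    rw [h1]
    exact cfc_id' ℝ y

/-- `v` with `star v * v` a projection -/
theorem pi_right {v p : A} (hp : Pj p) (h : star v * v = p) : v * p = v := by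
  have h1 : star (v * p - v) * (v * p - v) = 0 := by
    have e : star (v * p - v) * (v * p - v) = p * (star v * v) * p - p * (star v * v) -
        (star v * v) * p + star v * v := by
      rw [star_sub, star_mul, hp.2]
      noncomm_ring
    rw [e, h, hp.1, hp.1]
    abel
  exact sub_eq_zero.1 ((CStarRing.star_mul_self_eq_zero_iff _).1 h1)

theorem pi_left {v q : A} (hq : Pj q) (h : v * star v = q) : q * v = v := by
  have h1 := pi_right (v := star v) hq (by rw [star_star]; exact h)
  have h2 := congrArg star h1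
  rwa [star_mul, star_star, hq.2] at h2

theorem Spec_real (β : A ≃⋆ₐ[ℂ] A) (x : ℝ) (a : A) : β (x • a) = x • β a := by
  rw [← Complex.coe_smul x a, ← Complex.coe_smul x (β a), map_smul]

/-- the sums of such elements -/
theorem Spec_sum {s : Finset ℝ} {q v : ℝ → A} (hq : ∀ x ∈ s, ∀ x' ∈ s, x ≠ x' → q x * q x' = 0)
    (hqs : ∀ x ∈ s, star (q x) = q x) (hv : ∀ x ∈ s, v x * q x = v x) (g : ℝ → ℝ) :
    (∑ x ∈ s, g x • v x) * ∑ x ∈ s, star (v x) = ∑ x ∈ s, g x • (v x * star (v x)) := by
  rw [Finset.sum_mul]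
  refine Finset.sum_congr rfl fun x hx => ?_
  rw [smul_mul_assoc, Finset.mul_sum, Finset.sum_eq_single x]
  · intro x' hx' hne
    rw [← hv x hx, ← hv x' hx', star_mul, hqs x' hx', mul_assoc, ← mul_assoc (q x),
      hq x hx x' hx' (Ne.symm hne), zero_mul, mul_zero]
  · intro h
    exact absurd hx h

theorem lemU (h0 : RR0 A) {β : A ≃⋆ₐ[ℂ] A} (hβ : Triv β) {b : A} (hb : IsSelfAdjoint b) {ε : ℝ}
    (hε : 0 < ε) : ∃ S : A, star S * S = 1 ∧ S * star S = 1 ∧ ‖star S * b * S - β b‖ < ε := by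
  obtain ⟨y, hy, hyf, hby⟩ := h0 b hb (ε / 2) (by linarith)
  obtain ⟨s, r, hr, horth, hone, hsum⟩ := finSpec hy hyf
  have hex : ∀ x ∈ s, ∃ v : A, star v * v = r x ∧ v * star v = β (r x) := fun x hx =>
    hβ _ (hr x hx)
  choose! v hv1 hv2 using hex
  have hβr : ∀ x ∈ s, Pj (β (r x)) := fun x hx =>
    ⟨by rw [← map_mul, (hr x hx).1], by rw [← map_star, (hr x hx).2]⟩
  have hvr : ∀ x ∈ s, v x * r x = v x := fun x hx => pi_right (hr x hx) (hv1 x hx)
  have hvl : ∀ x ∈ s, β (r x) * v x = v x := fun x hx => pi_left (hβr x hx) (hv2 x hx)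
  have hvl' : ∀ x ∈ s, star (v x) * β (r x) = star (v x) := fun x hx => by
    have h1 := congrArg star (hvl x hx)
    rwa [star_mul, (hβr x hx).2] at h1
  obtain ⟨S, hS⟩ : ∃ S : A, S = ∑ x ∈ s, star (v x) := ⟨_, rfl⟩
  have hSs : star S = ∑ x ∈ s, v x := by
    rw [hS, star_sum]
    exact Finset.sum_congr rfl fun x _ => star_star _
  have k := Spec_sum (v := v) horth (fun x hx => (hr x hx).2) hvr
  have k1 : star S * S = 1 := by
    have h1 := k fun _ => 1
    simp only [one_smul] at h1
    rw [hSs, hS, h1, Finset.sum_congr rfl fun x hx => hv2 x hx, ← map_sum, hone, map_one]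
  have k2 : S * star S = 1 := by
    have h1 := Spec_sum (s := s) (q := fun x => β (r x)) (v := fun x => star (v x))
      (fun x hx x' hx' hne => by rw [← map_mul, horth x hx x' hx' hne, map_zero])
      (fun x hx => (hβr x hx).2) hvl' fun _ => 1
    simp only [one_smul, star_star] at h1
    rw [hSs, hS, h1, Finset.sum_congr rfl fun x hx => hv1 x hx, hone]
  have k3 : star S * y = ∑ x ∈ s, x • v x := by
    rw [← hsum, Finset.mul_sum]
    refine Finset.sum_congr rfl fun x hx => ?_
    rw [mul_smul_comm, hSs, Finset.sum_mul, Finset.sum_eq_single x, hvr x hx]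
    · intro x' hx' hne
      rw [← hvr x' hx', mul_assoc, horth x' hx' x hx hne, mul_zero]
    · intro h
      exact absurd hx h
  have k4 : star S * y * S = β y := by
    rw [k3, hS, k fun x => x, ← hsum, map_sum]
    refine Finset.sum_congr rfl fun x hx => ?_
    rw [hv2 x hx, Spec_real]
  refine ⟨S, k1, k2, ?_⟩
  have e : star S * b * S - β b = star S * (b - y) * S + β (y - b) := by
    rw [map_sub, ← k4]
    noncomm_ring
  have hU : S ∈ unitary A := Unitary.mem_iff.2 ⟨k1, k2⟩
  have hU' : star S ∈ unitary A := Unitary.star_mem hU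
  have n1 : ‖star S * (b - y) * S‖ = ‖b - y‖ := by
    rw [CStarRing.norm_mul_mem_unitary _ hU, CStarRing.norm_mem_unitary_mul _ hU']
  have n2 : ‖β (y - b)‖ = ‖b - y‖ := by
    rw [StarAlgEquiv.norm_map, norm_sub_rev]
  calc ‖star S * b * S - β b‖ ≤ ‖star S * (b - y) * S‖ + ‖β (y - b)‖ := by
        rw [e]
        exact norm_add_le _ _
    _ < ε := by
        rw [n1, n2]
        linarith

end Pool.Agent.H.MP_8be301_an.RD
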