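import Pool.Agent.H.MP_8be301_an.RD.Defs

/-!
# Inverse square roots  (module Sqr)
-/

set_option autoImplicit false

namespace Pool.Agent.H.MP_8be301_an.RD

variable {A : Type*} [CStarAlgebra A] [PartialOrder A] [StarOrderedRing A]

/-- an element above a real scalar is self-adjoint -/
theorem Sqr_sa {c : A} {κ : ℝ} (h : algebraMap ℝ A κ ≤ c) : IsSelfAdjoint c := by
  have h1 : IsSelfAdjoint (c - algebraMap ℝ A κ) := IsSelfAdjoint.of_nonneg (sub_nonneg.2 h)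
  have h2 : IsSelfAdjoint (algebraMap ℝ A κ) :=
    (IsSelfAdjoint.all (κ : ℝ)).algebraMap A
  have h3 := h1.add h2
  rwa [sub_add_cancel] at h3

theorem invSqrt {c : A} {κ : ℝ} (hκ : 0 < κ) (h : algebraMap ℝ A κ ≤ c) :
    ∃ t : A, IsSelfAdjoint t ∧ t * c * t = 1 ∧ ∀ x : A, x * c = c * x → x * t = t * x := by
  have hc : IsSelfAdjoint c := Sqr_sa h
  have hs : ∀ x ∈ spectrum ℝ c, κ ≤ x := (algebraMap_le_iff_le_spectrum (a := c)).1 h
  have hcont : ContinuousOn (fun x : ℝ => (Real.sqrt x)⁻¹) (spectrum ℝ c) := by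
    refine ContinuousOn.inv₀ Real.continuous_sqrt.continuousOn fun x hx => ?_
    exact (Real.sqrt_pos.2 (hκ.trans_le (hs x hx))).ne'
  refine ⟨cfc (fun x : ℝ => (Real.sqrt x)⁻¹) c, cfc_predicate _ c, ?_, ?_⟩
  · have e : cfc (fun x : ℝ => (Real.sqrt x)⁻¹) c * c * cfc (fun x : ℝ => (Real.sqrt x)⁻¹) c =
        cfc (fun x : ℝ => (Real.sqrt x)⁻¹ * x * (Real.sqrt x)⁻¹) c := by
      rw [cfc_mul (fun x : ℝ => (Real.sqrt x)⁻¹ * x) (fun x : ℝ => (Real.sqrt x)⁻¹) c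
          (hcont.mul continuousOn_id) hcont,
        cfc_mul (fun x : ℝ => (Real.sqrt x)⁻¹) (fun x : ℝ => x) c hcont continuousOn_id,
        cfc_id' ℝ c]
    rw [e, cfc_congr (g := fun _ : ℝ => (1 : ℝ)), cfc_const_one ℝ c]
    intro x hx
    have hx0 : 0 < x := hκ.trans_le (hs x hx)
    have hx1 : Real.sqrt x ≠ 0 := (Real.sqrt_pos.2 hx0).ne'
    have hx2 : Real.sqrt x * Real.sqrt x = x := Real.mul_self_sqrt hx0.le
    show (Real.sqrt x)⁻¹ * x * (Real.sqrt x)⁻¹ = 1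
    field_simp
    rw [sq, hx2]
  · intro x hx
    have h1 : Commute c x := hx.symm
    exact (h1.cfc_real (fun x : ℝ => (Real.sqrt x)⁻¹)).symm

/-- `x ≤ y` if `y - x` is a square -/
theorem le_of_sq {x y z : A} (h : y - x = star z * z) : x ≤ y := by
  rw [← sub_nonneg, h]
  exact star_mul_self_nonneg z

/-- perturbation of a lower bound -/
theorem lb_close {c c' : A} {κ δ : ℝ} (h : algebraMap ℝ A κ ≤ c) (hs : IsSelfAdjoint c')
    (hd : ‖c' - c‖ ≤ δ) : algebraMap ℝ A (κ - δ) ≤ c' := by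
  have h1 : IsSelfAdjoint (c' - c) := hs.sub (Sqr_sa h)
  have h2 := h1.neg_algebraMap_norm_le_self
  have h3 : algebraMap ℝ A ‖c' - c‖ ≤ algebraMap ℝ A δ := algebraMap_mono A hd
  have h4 : -(algebraMap ℝ A δ) ≤ c' - c := (neg_le_neg h3).trans h2
  have h5 := add_le_add h h4
  rw [add_sub_cancel, ← sub_eq_add_neg, ← map_sub] at h5
  exact h5

end Pool.Agent.H.MP_8be301_an.RD
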