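import Pool.Agent.H.MP_8be301_an.RD.Sqr

/-!
# Full elements of simple unital algebras  (module Full)

`full`: the set `J` of all `z` with `star z * z ≤ ∑ star (y_s) * (star c * c) * y_s` for some finite family `y` is a
two-sided ideal which contains `c ≠ 0`; its closure is a closed two-sided ideal (`TwoSidedIdeal.mk'`), so it is `⊤`
and there is `Z` in `J` with `‖Z - 1‖ < 1/4`. Then `‖star Z * Z - 1‖ ≤ 3/4`, hence `1/4 ≤ star Z * Z` (`lb_close`), and
`invSqrt` is used for `D = ∑ star (y_s) * (star c * c) * y_s ≥ 1/4`.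
-/

set_option autoImplicit false
set_option linter.unusedSectionVars false

namespace Pool.Agent.H.MP_8be301_an.RD

variable {A : Type*} [CStarAlgebra A] [PartialOrder A] [StarOrderedRing A]

/-- the elements dominated by finite sums of conjugates of `star c * c` -/
private def Full_J (c : A) : Set A :=
  {z | ∃ (ι : Type) (_ : Fintype ι) (y : ι → A),
    star z * z ≤ ∑ s, star (y s) * (star c * c) * y s}

private theorem Full_mem (c : A) : c ∈ Full_J c := by
  refine ⟨Unit, inferInstance, fun _ => 1, ?_⟩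
  simp

private theorem Full_zero (c : A) : (0 : A) ∈ Full_J c := by
  refine ⟨Empty, inferInstance, fun _ => 0, ?_⟩
  simp

private theorem Full_neg {c x : A} (h : x ∈ Full_J c) : -x ∈ Full_J c := by
  obtain ⟨ι, i1, y, hy⟩ := h
  refine ⟨ι, i1, y, ?_⟩
  rwa [star_neg, neg_mul_neg]

private theorem Full_right {c x b : A} (h : x ∈ Full_J c) : x * b ∈ Full_J c := by
  obtain ⟨ι, i1, y, hy⟩ := h
  refine ⟨ι, i1, fun s => y s * b, ?_⟩
  have h1 := star_left_conjugate_le_conjugate hy b
  have e1 : star (x * b) * (x * b) = star b * (star x * x) * b := by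
    rw [star_mul]
    simp only [mul_assoc]
  have e2 : ∑ s, star (y s * b) * (star c * c) * (y s * b) =
      star b * (∑ s, star (y s) * (star c * c) * y s) * b := by
    rw [Finset.mul_sum, Finset.sum_mul]
    refine Finset.sum_congr rfl fun s _ => ?_
    rw [star_mul]
    simp only [mul_assoc]
  rw [e1, e2]
  exact h1

private theorem Full_left {c x a : A} (h : x ∈ Full_J c) : a * x ∈ Full_J c := by
  have h0 : x * algebraMap ℝ A ‖a‖ ∈ Full_J c := Full_right h
  obtain ⟨ι, i1, y, hy⟩ := h0
  refine ⟨ι, i1, y, le_trans ?_ hy⟩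
  have h1 := star_left_conjugate_le_conjugate
    (CStarAlgebra.star_mul_le_algebraMap_norm_sq (a := a)) x
  have e1 : star (a * x) * (a * x) = star x * (star a * a) * x := by
    rw [star_mul]
    simp only [mul_assoc]
  have e3 : star (algebraMap ℝ A ‖a‖) = algebraMap ℝ A ‖a‖ := by
    rw [← algebraMap_star_comm]
    simp
  have e2 : star (x * algebraMap ℝ A ‖a‖) * (x * algebraMap ℝ A ‖a‖) =
      star x * algebraMap ℝ A (‖a‖ ^ 2) * x := by
    rw [star_mul, e3, map_pow, pow_two, ← Algebra.commutes ‖a‖ x]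
    have h2 : algebraMap ℝ A ‖a‖ * star x = star x * algebraMap ℝ A ‖a‖ :=
      Algebra.commutes ‖a‖ (star x)
    rw [h2]
    simp only [mul_assoc]
  rw [e1, e2]
  exact h1

private theorem Full_add {c x x' : A} (h : x ∈ Full_J c) (h' : x' ∈ Full_J c) :
    x + x' ∈ Full_J c := by
  obtain ⟨ι, i1, y, hy⟩ := h
  obtain ⟨κ, i2, y', hy'⟩ := h'
  refine ⟨(ι ⊕ κ) ⊕ (ι ⊕ κ), inferInstance,
    Sum.elim (Sum.elim y y') (Sum.elim y y'), ?_⟩
  have h1 : star (x + x') * (x + x') ≤
      (star x * x + star x' * x') + (star x * x + star x' * x') := by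
    refine le_of_sq (z := x - x') ?_
    simp only [star_add, star_sub, add_mul, mul_add, sub_mul, mul_sub]
    abel
  refine h1.trans ?_
  simp only [Fintype.sum_sum_type, Sum.elim_inl, Sum.elim_inr]
  exact add_le_add (add_le_add hy hy') (add_le_add hy hy')

private theorem Full_one (hs : Simp A) {c : A} (hc : c ≠ 0) : (1 : A) ∈ closure (Full_J c) := by
  have hc1 : c ∈ closure (Full_J c) := subset_closure (Full_mem c)
  rcases hs (TwoSidedIdeal.mk' (closure (Full_J c)) (subset_closure (Full_zero c))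
    (fun {x y} hx hy => map_mem_closure₂ continuous_add hx hy fun a ha b hb => Full_add ha hb)
    (fun {x} hx => map_mem_closure continuous_neg hx fun a ha => Full_neg ha)
    (fun {x y} hy => map_mem_closure (f := fun z => x * z) (continuous_const.mul continuous_id) hy
      fun a ha => Full_left ha)
    (fun {x y} hx => map_mem_closure (f := fun z => z * y) (continuous_id.mul continuous_const) hx
      fun a ha => Full_right ha)) (by
    rw [TwoSidedIdeal.coe_mk']
    exact isClosed_closure) with h | h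
  · exfalso
    apply hc
    have h1 : c ∈ (⊥ : TwoSidedIdeal A) := by
      rw [← h, TwoSidedIdeal.mem_mk']
      exact hc1
    exact (TwoSidedIdeal.mem_bot A).1 h1
  · have h1 : (1 : A) ∈ (⊤ : TwoSidedIdeal A) := trivial
    rw [← h, TwoSidedIdeal.mem_mk'] at h1
    exact h1

theorem full (hs : Simp A) {c : A} (hc : c ≠ 0) :
    ∃ (K : ℕ) (y : Fin K → A), ∑ s, star (y s) * (star c * c) * y s = 1 := by
  obtain ⟨Z, ⟨ι, i1, y, hy⟩, hZ⟩ := Metric.mem_closure_iff.1 (Full_one hs hc) (1 / 4) (by norm_num)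
  have hZ' : ‖Z - 1‖ ≤ 1 / 4 := by
    rw [dist_comm, dist_eq_norm] at hZ
    exact hZ.le
  have hn1 : ‖(1 : A)‖ ≤ 1 := by
    rcases subsingleton_or_nontrivial A with hA | hA
    · rw [Subsingleton.elim (1 : A) 0, norm_zero]
      exact zero_le_one
    · exact CStarRing.norm_one.le
  have hZn : ‖Z‖ ≤ 5 / 4 := by
    have h1 : Z = (Z - 1) + 1 := by abel
    rw [h1]
    exact (norm_add_le _ _).trans (by linarith)
  have hd : ‖star Z * Z - 1‖ ≤ 3 / 4 := by
    have e1 : star Z * Z - 1 = star Z * (Z - 1) + star (Z - 1) := by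
      rw [star_sub, star_one, mul_sub, mul_one]
      abel
    rw [e1]
    refine (norm_add_le _ _).trans ?_
    have h1 : ‖star Z * (Z - 1)‖ ≤ 5 / 4 * (1 / 4) := by
      refine (norm_mul_le _ _).trans ?_
      rw [norm_star]
      exact mul_le_mul hZn hZ' (norm_nonneg _) (by norm_num)
    rw [norm_star]
    linarith
  have h2 : algebraMap ℝ A (1 - 3 / 4) ≤ star Z * Z :=
    lb_close (c := 1) (by rw [map_one]) (IsSelfAdjoint.star_mul_self Z) hd
  have h3 := h2.trans hy
  obtain ⟨t, ht, ht1, -⟩ := invSqrt (by norm_num : (0 : ℝ) < 1 - 3 / 4) h3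
  refine ⟨Fintype.card ι, fun s => y ((Fintype.equivFin ι).symm s) * t, ?_⟩
  have e2 : ∑ s : Fin (Fintype.card ι), star (y ((Fintype.equivFin ι).symm s) * t) * (star c * c) *
      (y ((Fintype.equivFin ι).symm s) * t) =
      ∑ i, star (y i * t) * (star c * c) * (y i * t) :=
    Equiv.sum_comp (Fintype.equivFin ι).symm fun i => star (y i * t) * (star c * c) * (y i * t)
  rw [e2, ← ht1, Finset.mul_sum, Finset.sum_mul]
  refine Finset.sum_congr rfl fun s _ => ?_
  rw [star_mul, ht.star_eq]
  simp only [mul_assoc]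

theorem full_ne (hs : Simp A) {c e : A} (hc : c ≠ 0) (he : e ≠ 0) : ∃ a : A, c * a * e ≠ 0 := by
  obtain ⟨K, y, hy⟩ := full hs hc
  by_contra hcon
  push Not at hcon
  apply he
  have h1 : e = (∑ s, star (y s) * (star c * c) * y s) * e := by rw [hy, one_mul]
  rw [h1, Finset.sum_mul]
  refine Finset.sum_eq_zero fun s _ => ?_
  have h2 : star (y s) * (star c * c) * y s * e = star (y s) * (star c * (c * y s * e)) := by
    simp only [mul_assoc]
  rw [h2, hcon, mul_zero, mul_zero]

end Pool.Agent.H.MP_8be301_an.RD
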