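import Pool.Agent.H.MP_8be301_an.RD.Defs

/-!
# From the unitization to the unital algebra  (module Uni)

`A` is unital, so `(z, a) ↦ z • 1 + a` is a star homomorphism `Unitization ℂ A → A` (`Unitization.starLift` of the
identity), and `(z, a) ↦ z` is one to `ℂ` (`Unitization.fstHom`, `Unitization.fst_star`); together they are injective. The
image of `v` in `M_n(ℂ)` is an isometry, hence unitary (`mul_eq_one_comm`). If the image of `v` in `M_n(A)` were unitary too
then `v * star v = 1`.
-/

set_option autoImplicit false

namespace Pool.Agent.H.MP_8be301_an.RD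

variable {A : Type*} [CStarAlgebra A]

theorem Uni_map {R S : Type*} [Ring R] [StarRing R] [Ring S] [StarRing S] {n : ℕ} (f : R →+* S)
    (hf : ∀ x, f (star x) = star (f x)) (v : Matrix (Fin n) (Fin n) R) :
    f.mapMatrix (star v) = star (f.mapMatrix v) := by
  ext i j
  simp [Matrix.star_apply, hf]

theorem inf_of_unitization {n : ℕ} {v : Matrix (Fin n) (Fin n) (Unitization ℂ A)}
    (h : star v * v = 1) (h' : v * star v ≠ 1) : Inf A := by
  let f : Unitization ℂ A →⋆ₐ[ℂ] A := Unitization.starLift (NonUnitalStarAlgHom.id ℂ A)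
  have hf : ∀ x : Unitization ℂ A, f x = algebraMap ℂ A x.fst + x.snd := fun x => rfl
  let F : Unitization ℂ A →+* A := (f : Unitization ℂ A →ₐ[ℂ] A).toRingHom
  have hF : ∀ x, F x = f x := fun x => rfl
  let G : Unitization ℂ A →+* ℂ := (Unitization.fstHom ℂ A).toRingHom
  have hG : ∀ x, G x = x.fst := fun x => rfl
  have hFs : ∀ x, F (star x) = star (F x) := fun x => map_star f x
  have hGs : ∀ x, G (star x) = star (G x) := fun x => Unitization.fst_star x
  refine ⟨n, F.mapMatrix v, ?_, ?_⟩
  · rw [← Uni_map F hFs, ← map_mul, h, map_one]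
  · intro h1
    apply h'
    rw [← Uni_map F hFs, ← map_mul] at h1
    have h2 : star (G.mapMatrix v) * G.mapMatrix v = 1 := by
      rw [← Uni_map G hGs, ← map_mul, h, map_one]
    have h3 : G.mapMatrix (v * star v) = 1 := by
      rw [map_mul, Uni_map G hGs]
      exact mul_eq_one_comm.1 h2
    ext i j
    · have h4 := congrFun (congrFun (h3.trans (map_one G.mapMatrix).symm) i) j
      exact h4
    · have h4 := congrFun (congrFun (h3.trans (map_one G.mapMatrix).symm) i) j
      have h5 := congrFun (congrFun (h1.trans (map_one F.mapMatrix).symm) i) j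
      simp only [RingHom.mapMatrix_apply, Matrix.map_apply, hF, hG, hf] at h4 h5
      rw [h4] at h5
      exact add_left_cancel h5

end Pool.Agent.H.MP_8be301_an.RD
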