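import Pool.Agent.H.MP_8be301_an.RD.Conn

/-!
# Approximately central eigenunitaries of a connected group  (module Circ)

`exists_root`: the image of `χ` is a connected subgroup of the circle with an element `χ g₀ ≠ 1`. `Re χ` takes all values
between `Re (χ g₀) < 1` and `1` (`IsPreconnected.intermediate_value`), and the image is closed under inverses, so it contains
`exp (i θ)` for all `0 ≤ θ ≤ θ₀`, `θ₀ > 0`, hence all `exp (i φ) = exp (i φ / n) ^ n`.
`unif`: `f` continuous on the unit circle. The set of all `f ∈ C(circle, ℂ)` with this property is a closed star subalgebra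
that contains the identity function and the constants, so it is everything (Stone-Weierstrass,
`ContinuousMap.starSubalgebra_topologicalClosure_eq_top_of_separatesPoints`), or approximate `f` on the circle by a polynomial in
`z` and `star z`.
`rok_of_circ`: two colours `c = 0, 1`, `N = m + 1` (or any `N ≥ max m 2`), `h c : ℂ → ℂ`, real values in `[0, 1]` on the circle, the
tent of half-width `π / N` centred at `exp (i c π / N)`: for `c = 0`: `h 0 z = max 0 (1 - |arg z| N / π)`, `h 1 z = h 0 (exp (- i π / N) z)`.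
The `2 N` tents `z ↦ h c (exp (-2 π i k / N) z)` form a partition of unity of the circle and two tents of one colour have
product 0. `β i = α (g i)` with `χ (g i) = exp (-2 π i i' / N)` (`exists_root`), `g c = cfc (h c) u`:
`β i (cfc (h c) u) = cfc (h c) (β i u)` (`StarAlgHom.map_cfc` or so), close to `cfc (h c) (χ (g i) • u) = cfc (fun z => h c (χ (g i) * z)) u`
by `unif`. Commutators: approximate `h c (χ z)` by a polynomial in `z`, `star z`, or use `unif` for the unitaries `u` and
`w * u * star w`, `w` unitary (every element of `A` is a combination of four unitaries, `CStarAlgebra` / `Unitary.span`).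
-/

set_option autoImplicit false

namespace Pool.Agent.H.MP_8be301_an.RD

open Complex in
theorem exists_root {G : Type*} [Group G] [TopologicalSpace G] [ConnectedSpace G] (χ : G →* ℂ)
    (hχ : Continuous χ) (h1 : ∀ g, ‖χ g‖ = 1) (h2 : ∃ g, χ g ≠ 1) {z : ℂ} (hz : ‖z‖ = 1) :
    ∃ g, χ g = z := by
  obtain ⟨g0, hg0⟩ := h2
  -- every exp (i θ), 0 ≤ θ ≤ θ0
  have hre : (χ g0).re < 1 := by
    have h3 : (χ g0).re ≤ 1 := by
      have := Complex.re_le_norm (χ g0)
      rw [h1] at this
      exact this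
    rcases lt_or_eq_of_le h3 with h | h
    · exact h
    · exfalso
      apply hg0
      have h4 : Complex.normSq (χ g0) = 1 := by
        rw [Complex.normSq_eq_norm_sq, h1]; norm_num
      rw [Complex.normSq_apply, h] at h4
      have h5 : (χ g0).im = 0 := by nlinarith
      apply Complex.ext <;> simp [h, h5]
  have hre' : -1 ≤ (χ g0).re := by
    have := Complex.abs_re_le_norm (χ g0)
    rw [h1, abs_le] at this
    exact this.1
  have hconn : IsPreconnected (Set.range fun g => (χ g).re) :=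
    isPreconnected_range (Complex.continuous_re.comp hχ)
  have hI : Set.Icc (χ g0).re 1 ⊆ Set.range fun g => (χ g).re := by
    apply hconn.Icc_subset
    · exact ⟨g0, rfl⟩
    · exact ⟨1, by simp⟩
  set θ0 : ℝ := Real.arccos (χ g0).re with hθ0
  have hθpos : 0 < θ0 := Real.arccos_pos.2 hre
  have hθpi : θ0 ≤ Real.pi := Real.arccos_le_pi _
  have key : ∀ θ : ℝ, 0 ≤ θ → θ ≤ θ0 → ∃ g, χ g = Complex.exp (θ * I) := by
    intro θ h0 h1'
    have hcos : Real.cos θ ∈ Set.Icc (χ g0).re 1 := by
      refine ⟨?_, Real.cos_le_one _⟩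
      rw [← Real.cos_arccos hre' hre.le]
      exact Real.cos_le_cos_of_nonneg_of_le_pi h0 hθpi h1'
    obtain ⟨g, hg⟩ := hI hcos
    simp only at hg
    have hn : (χ g).re ^ 2 + (χ g).im ^ 2 = 1 := by
      have h4 : Complex.normSq (χ g) = 1 := by
        rw [Complex.normSq_eq_norm_sq, h1]; norm_num
      rw [Complex.normSq_apply] at h4
      nlinarith
    have him : (χ g).im ^ 2 = Real.sin θ ^ 2 := by
      have := Real.sin_sq_add_cos_sq θ
      rw [hg] at hn
      linarith
    rcases sq_eq_sq_iff_eq_or_eq_neg.1 him with h | h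
    · refine ⟨g, ?_⟩
      apply Complex.ext
      · rw [Complex.exp_ofReal_mul_I_re]; exact hg
      · rw [Complex.exp_ofReal_mul_I_im]; exact h
    · refine ⟨g⁻¹, ?_⟩
      have h6 : χ g⁻¹ = (starRingEnd ℂ) (χ g) := by
        have h7 : χ g⁻¹ * χ g = 1 := by rw [← map_mul]; simp
        have h8 : (starRingEnd ℂ) (χ g) * χ g = 1 := by
          rw [mul_comm, Complex.mul_conj, Complex.normSq_eq_norm_sq, h1]; simp
        have h9 : χ g ≠ 0 := by
          intro h0
          have := h1 g
          rw [h0] at this; simp at this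
        exact mul_right_cancel₀ h9 (h7.trans h8.symm)
      rw [h6]
      apply Complex.ext
      · rw [Complex.exp_ofReal_mul_I_re, Complex.conj_re]; exact hg
      · rw [Complex.exp_ofReal_mul_I_im, Complex.conj_im, h]; ring
  -- all nonnegative angles
  have key2 : ∀ φ : ℝ, 0 ≤ φ → ∃ g, χ g = Complex.exp (φ * I) := by
    intro φ hφ
    obtain ⟨n, hn⟩ := exists_nat_gt (φ / θ0)
    have hn0 : (0 : ℝ) < n := lt_of_le_of_lt (by positivity) hn
    obtain ⟨g, hg⟩ := key (φ / n) (by positivity) (by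
      rw [div_le_iff₀ hn0]
      rw [div_lt_iff₀ hθpos] at hn
      linarith)
    refine ⟨g ^ n, ?_⟩
    rw [map_pow, hg, ← Complex.exp_nat_mul]
    congr 1
    have hn1 : (n : ℂ) ≠ 0 := by exact_mod_cast hn0.ne'
    push_cast
    field_simp
  rcases le_total 0 (Complex.arg z) with h | h
  · obtain ⟨g, hg⟩ := key2 _ h
    refine ⟨g, ?_⟩
    rw [hg]
    have := Complex.norm_mul_exp_arg_mul_I z
    rw [hz] at this
    simpa using this
  · obtain ⟨g, hg⟩ := key2 (-Complex.arg z) (by linarith)
    refine ⟨g⁻¹, ?_⟩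
    have h7 : χ g⁻¹ * χ g = 1 := by rw [← map_mul]; simp
    have h8 : z * χ g = 1 := by
      rw [hg]
      have h9 := Complex.norm_mul_exp_arg_mul_I z
      rw [hz, Complex.ofReal_one, one_mul] at h9
      have h10 : z * cexp (↑(-z.arg) * I) = cexp (↑z.arg * I) * cexp (↑(-z.arg) * I) := by
        rw [h9]
      rw [h10, ← Complex.exp_add]
      simp
    have h9 : χ g ≠ 0 := by
      intro h0
      have := h1 g
      rw [h0] at this; simp at this
    exact mul_right_cancel₀ h9 (h7.trans h8.symm)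

open Filter Topology

universe w

/-- the norm of the value of the functional calculus -/
theorem Circ_norm {A : Type*} [CStarAlgebra A] {s : Set ℂ} [CompactSpace s] {u : A}
    (hu : IsStarNormal u) (hs : spectrum ℂ u ⊆ s) (f : C(s, ℂ)) :
    ‖cfcHomSuperset hu hs f‖ ≤ ‖f‖ := by
  rw [cfcHomSuperset_apply]
  rw [isometry_cfcHom (R := ℂ) _ hu |>.norm_map_of_map_zero (map_zero (cfcHom hu))]
  rw [ContinuousMap.norm_le _ (norm_nonneg _)]
  intro x
  simpa using f.norm_coe_le_norm _

/-- uniform estimate for `f u * a - a * f v` -/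
def CircP (s : Set ℂ) (f : C(s, ℂ)) : Prop :=
  ∀ M ε : ℝ, 0 < M → 0 < ε → ∃ δ > 0, ∀ (A : Type w) [CStarAlgebra A] (u v a : A)
    (hu : IsStarNormal u) (hv : IsStarNormal v) (hus : spectrum ℂ u ⊆ s)
    (hvs : spectrum ℂ v ⊆ s), star u * u = 1 → v * star v = 1 → ‖a‖ ≤ M →
      ‖u * a - a * v‖ < δ → ‖cfcHomSuperset hu hus f * a - a * cfcHomSuperset hv hvs f‖ < ε

theorem Circ_unit_norm {A : Type*} [CStarAlgebra A] {u : A} (h : star u * u = 1) :
    ‖u‖ ≤ 1 := by
  by_cases hn : Nontrivial A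
  · have h1 : ‖star u * u‖ = ‖u‖ * ‖u‖ := CStarRing.norm_star_mul_self
    rw [h, CStarRing.norm_one] at h1
    nlinarith [norm_nonneg u]
  · have : Subsingleton A := not_nontrivial_iff_subsingleton.1 hn
    have : u = 0 := Subsingleton.elim _ _
    rw [this]; simp

theorem CircP_all (s : Set ℂ) [CompactSpace s] (f : C(s, ℂ)) : CircP.{w} s f := by
  induction f using ContinuousMap.induction_on_of_compact with
  | const r =>
    intro M ε hM hε
    refine ⟨1, one_pos, ?_⟩
    intro A _ u v a hu hv hus hvs h1 h2 ha h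
    have h3 : ContinuousMap.const s r = algebraMap ℂ C(s, ℂ) r := rfl
    rw [h3, AlgHomClass.commutes, AlgHomClass.commutes, Algebra.commutes, sub_self, norm_zero]
    exact hε
  | id =>
    intro M ε hM hε
    refine ⟨ε, hε, ?_⟩
    intro A _ u v a hu hv hus hvs h1 h2 ha h
    rw [cfcHomSuperset_id, cfcHomSuperset_id]
    exact h
  | star_id =>
    intro M ε hM hε
    refine ⟨ε, hε, ?_⟩
    intro A _ u v a hu hv hus hvs h1 h2 ha h
    rw [map_star, map_star, cfcHomSuperset_id, cfcHomSuperset_id]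
    have h3 : star u * a - a * star v = - (star u * (u * a - a * v) * star v) := by
      have : star u * (u * a - a * v) * star v = (star u * u) * a * star v - star u * a * (v * star v) := by
        noncomm_ring
      rw [this, h1, h2]
      noncomm_ring
    rw [h3, norm_neg]
    have hu1 := Circ_unit_norm h1
    have hv1 : ‖star v‖ ≤ 1 := Circ_unit_norm (by rw [star_star]; exact h2)
    calc ‖star u * (u * a - a * v) * star v‖ ≤ ‖star u‖ * ‖u * a - a * v‖ * ‖star v‖ := by
          refine (norm_mul_le _ _).trans ?_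
          gcongr
          exact norm_mul_le _ _
      _ ≤ 1 * ‖u * a - a * v‖ * 1 := by
          gcongr
          rw [norm_star]; exact hu1
      _ < ε := by rw [one_mul, mul_one]; exact h
  | add f g hf hg =>
    intro M ε hM hε
    obtain ⟨δ1, h1, H1⟩ := hf M (ε / 2) hM (by positivity)
    obtain ⟨δ2, h2, H2⟩ := hg M (ε / 2) hM (by positivity)
    refine ⟨min δ1 δ2, lt_min h1 h2, ?_⟩
    intro A _ u v a hu hv hus hvs h3 h4 ha h
    have e1 := H1 A u v a hu hv hus hvs h3 h4 ha (h.trans_le (min_le_left _ _))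
    have e2 := H2 A u v a hu hv hus hvs h3 h4 ha (h.trans_le (min_le_right _ _))
    rw [map_add, map_add]
    have : (cfcHomSuperset hu hus f + cfcHomSuperset hu hus g) * a
        - a * (cfcHomSuperset hv hvs f + cfcHomSuperset hv hvs g)
        = (cfcHomSuperset hu hus f * a - a * cfcHomSuperset hv hvs f)
          + (cfcHomSuperset hu hus g * a - a * cfcHomSuperset hv hvs g) := by noncomm_ring
    rw [this]
    calc _ ≤ _ := norm_add_le _ _
      _ < ε / 2 + ε / 2 := add_lt_add e1 e2
      _ = ε := by ring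
  | mul f g hf hg =>
    intro M ε hM hε
    obtain ⟨δ1, h1, H1⟩ := hf M (ε / (2 * (‖g‖ + 1))) hM (by positivity)
    obtain ⟨δ2, h2, H2⟩ := hg M (ε / (2 * (‖f‖ + 1))) hM (by positivity)
    refine ⟨min δ1 δ2, lt_min h1 h2, ?_⟩
    intro A _ u v a hu hv hus hvs h3 h4 ha h
    have e1 := H1 A u v a hu hv hus hvs h3 h4 ha (h.trans_le (min_le_left _ _))
    have e2 := H2 A u v a hu hv hus hvs h3 h4 ha (h.trans_le (min_le_right _ _))
    rw [map_mul, map_mul]
    have : (cfcHomSuperset hu hus f * cfcHomSuperset hu hus g) * a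
        - a * (cfcHomSuperset hv hvs f * cfcHomSuperset hv hvs g)
        = cfcHomSuperset hu hus f * (cfcHomSuperset hu hus g * a - a * cfcHomSuperset hv hvs g)
          + (cfcHomSuperset hu hus f * a - a * cfcHomSuperset hv hvs f) * cfcHomSuperset hv hvs g
        := by noncomm_ring
    rw [this]
    have n1 : ‖cfcHomSuperset hu hus f‖ ≤ ‖f‖ + 1 := (Circ_norm hu hus f).trans (by linarith)
    have n2 : ‖cfcHomSuperset hv hvs g‖ ≤ ‖g‖ + 1 := (Circ_norm hv hvs g).trans (by linarith)
    have p1 : 0 < ‖f‖ + 1 := by positivity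
    have p2 : 0 < ‖g‖ + 1 := by positivity
    calc _ ≤ _ := norm_add_le _ _
      _ ≤ (‖f‖ + 1) * ‖cfcHomSuperset hu hus g * a - a * cfcHomSuperset hv hvs g‖
          + ‖cfcHomSuperset hu hus f * a - a * cfcHomSuperset hv hvs f‖ * (‖g‖ + 1) := by
          gcongr
          · refine (norm_mul_le _ _).trans ?_
            gcongr
          · refine (norm_mul_le _ _).trans ?_
            gcongr
      _ < (‖f‖ + 1) * (ε / (2 * (‖f‖ + 1))) + (ε / (2 * (‖g‖ + 1))) * (‖g‖ + 1) := by
          gcongr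
      _ = ε := by field_simp; ring
  | frequently f hf =>
    intro M ε hM hε
    have hr : 0 < ε / (3 * M) := by positivity
    obtain ⟨g, hg, hP⟩ := frequently_iff.mp hf (Metric.ball_mem_nhds f hr)
    obtain ⟨δ1, h1, H1⟩ := hP M (ε / 3) hM (by positivity)
    refine ⟨δ1, h1, ?_⟩
    intro A _ u v a hu hv hus hvs h3 h4 ha h
    have e1 := H1 A u v a hu hv hus hvs h3 h4 ha h
    rw [Metric.mem_ball, dist_eq_norm] at hg
    have hg' : ‖f - g‖ < ε / (3 * M) := by rw [norm_sub_rev]; exact hg
    have : cfcHomSuperset hu hus f * a - a * cfcHomSuperset hv hvs f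
        = cfcHomSuperset hu hus (f - g) * a + (cfcHomSuperset hu hus g * a - a * cfcHomSuperset hv hvs g)
          + a * cfcHomSuperset hv hvs (g - f) := by
      rw [map_sub, map_sub]
      noncomm_ring
    rw [this]
    have n1 : ‖cfcHomSuperset hu hus (f - g) * a‖ ≤ (ε / (3 * M)) * M := by
      refine (norm_mul_le _ _).trans ?_
      gcongr
      exact (Circ_norm hu hus _).trans hg'.le
    have n2 : ‖a * cfcHomSuperset hv hvs (g - f)‖ ≤ M * (ε / (3 * M)) := by
      refine (norm_mul_le _ _).trans ?_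
      gcongr
      exact (Circ_norm hv hvs _).trans hg.le
    have n3 : (ε / (3 * M)) * M = ε / 3 := by field_simp
    have n4 : M * (ε / (3 * M)) = ε / 3 := by field_simp
    calc _ ≤ _ := norm_add₃_le
      _ < ε / 3 + ε / 3 + ε / 3 := by linarith
      _ = ε := by ring

theorem Circ_sphere_compact : CompactSpace (Metric.sphere (0 : ℂ) 1) :=
  isCompact_iff_compactSpace.1 (isCompact_sphere 0 1)

theorem Circ_mem {A : Type*} [CStarAlgebra A] {u : A} (h1 : star u * u = 1)
    (h2 : u * star u = 1) : u ∈ unitary A := by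
  rw [Unitary.mem_iff]; exact ⟨h1, h2⟩

/-- uniform continuity of the functional calculus on unitaries, with an intertwiner -/
theorem Circ_unif {f : ℂ → ℂ} (hf : ContinuousOn f (Metric.sphere 0 1)) {M ε : ℝ} (hM : 0 < M)
    (hε : 0 < ε) :
    ∃ δ > 0, ∀ (A : Type w) [CStarAlgebra A] (u v a : A), star u * u = 1 → u * star u = 1 →
      star v * v = 1 → v * star v = 1 → ‖a‖ ≤ M → ‖u * a - a * v‖ < δ →
        ‖cfc f u * a - a * cfc f v‖ < ε := by
  have := Circ_sphere_compact
  obtain ⟨δ, h1, H⟩ := CircP_all.{w} (Metric.sphere (0 : ℂ) 1) ⟨_, hf.domRestrict⟩ M ε hM hε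
  refine ⟨δ, h1, ?_⟩
  intro A _ u v a hu1 hu2 hv1 hv2 ha h
  have hu := Circ_mem hu1 hu2
  have hv := Circ_mem hv1 hv2
  have hun : IsStarNormal u := ⟨by rw [Commute, SemiconjBy, hu1, hu2]⟩
  have hvn : IsStarNormal v := ⟨by rw [Commute, SemiconjBy, hv1, hv2]⟩
  have hus := spectrum.subset_circle_of_unitary (𝕜 := ℂ) hu
  have hvs := spectrum.subset_circle_of_unitary (𝕜 := ℂ) hv
  have e := H A u v a hun hvn hus hvs hu1 hv2 ha h
  rw [cfcHomSuperset_apply, cfcHomSuperset_apply] at e
  rw [cfc_apply _ _ hun (hf.mono hus), cfc_apply _ _ hvn (hf.mono hvs)]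
  exact e

theorem unif {f : ℂ → ℂ} (hf : ContinuousOn f (Metric.sphere 0 1)) {ε : ℝ} (hε : 0 < ε) :
    ∃ δ > 0, ∀ (A : Type*) [CStarAlgebra A] (u v : A), star u * u = 1 → u * star u = 1 →
      star v * v = 1 → v * star v = 1 → ‖u - v‖ < δ → ‖cfc f u - cfc f v‖ < ε := by
  obtain ⟨δ, h1, H⟩ := Circ_unif hf one_pos hε
  refine ⟨δ, h1, ?_⟩
  intro A _ u v hu1 hu2 hv1 hv2 h
  have := H A u v 1 hu1 hu2 hv1 hv2 (Circ_unit_norm (by simp)) (by simpa using h)
  simpa using this

/-- a primitive root of unity of order `2 n` -/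
noncomputable def circOm (n : ℕ) : ℂ := Complex.exp ((Real.pi / n : ℝ) * Complex.I)

noncomputable def circB0 (n : ℕ) (z : ℂ) : ℝ := max 0 (z.re - Real.cos (Real.pi / n))

noncomputable def circB (n : ℕ) (z : ℂ) : ℝ :=
  ∑ k ∈ Finset.range (2 * n), circB0 n (circOm n ^ k * z)

noncomputable def circH (n : ℕ) (z : ℂ) : ℝ := circB0 n z / circB n z

theorem circOm_pow (n k : ℕ) :
    circOm n ^ k = Complex.exp ((Real.pi * k / n : ℝ) * Complex.I) := by
  rw [circOm, ← Complex.exp_nat_mul]
  congr 1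
  push_cast
  ring

theorem circOm_pow_norm (n k : ℕ) : ‖circOm n ^ k‖ = 1 := by
  rw [circOm_pow, Complex.norm_exp_ofReal_mul_I]

theorem circOm_two (n : ℕ) (hn : 0 < n) : circOm n ^ (2 * n) = 1 := by
  rw [circOm_pow]
  have hn' : (n : ℝ) ≠ 0 := by positivity
  have : (Real.pi * ((2 * n : ℕ) : ℝ) / n : ℝ) = 2 * Real.pi := by
    push_cast
    field_simp
  rw [this]
  push_cast
  exact Complex.exp_two_pi_mul_I

theorem circB0_nonneg (n : ℕ) (z : ℂ) : 0 ≤ circB0 n z := le_max_left _ _

theorem circB_shift (n : ℕ) (hn : 0 < n) (z : ℂ) : circB n (circOm n * z) = circB n z := by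
  rw [circB, circB]
  have h1 : ∀ k, circOm n ^ k * (circOm n * z) = circOm n ^ (k + 1) * z := by
    intro k; rw [pow_succ]; ring
  simp_rw [h1]
  have h2 := Finset.sum_range_succ' (fun k => circB0 n (circOm n ^ k * z)) (2 * n)
  rw [Finset.sum_range_succ, circOm_two n hn] at h2
  simp only [pow_zero] at h2
  linarith

theorem circB_shift_pow (n : ℕ) (hn : 0 < n) (k : ℕ) (z : ℂ) :
    circB n (circOm n ^ k * z) = circB n z := by
  induction k with
  | zero => simp
  | succ k ih => rw [pow_succ', mul_assoc, circB_shift n hn, ih]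

theorem circB_pos (n : ℕ) (hn : 2 ≤ n) (z : ℂ) (hz : ‖z‖ = 1) : 0 < circB n z := by
  have hn0 : (0 : ℝ) < n := by positivity
  have hpi := Real.pi_pos
  set θ := Complex.arg z with hθ
  have h1 : z = Complex.exp (θ * Complex.I) := by
    have h := Complex.norm_mul_exp_arg_mul_I z
    rw [hz, Complex.ofReal_one, one_mul] at h
    exact h.symm
  have h2 : -Real.pi < θ := Complex.neg_pi_lt_arg z
  have h3 : θ ≤ Real.pi := Complex.arg_le_pi z
  set x : ℝ := 2 * n - θ * n / Real.pi with hx
  have hxn : (n : ℝ) ≤ x := by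
    have : θ * n / Real.pi ≤ n := by
      rw [div_le_iff₀ hpi]
      nlinarith
    linarith
  set K : ℕ := ⌊x + 1 / 2⌋₊ with hK
  have hK1 : (K : ℝ) ≤ x + 1 / 2 := Nat.floor_le (by linarith)
  have hK2 : x + 1 / 2 < K + 1 := Nat.lt_floor_add_one _
  have hKn : 0 < 2 * n := by omega
  have hmem : K % (2 * n) ∈ Finset.range (2 * n) := Finset.mem_range.2 (Nat.mod_lt _ hKn)
  have hval : 0 < circB0 n (circOm n ^ (K % (2 * n)) * z) := by
    rw [← pow_eq_pow_mod K (circOm_two n (by omega)), circOm_pow, h1, ← Complex.exp_add,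
      ← add_mul, ← Complex.ofReal_add, circB0, Complex.exp_ofReal_mul_I_re]
    apply lt_max_of_lt_right
    rw [sub_pos]
    set t : ℝ := Real.pi * K / n + θ with ht
    have e1 : t - 2 * Real.pi = Real.pi / n * (K - x) := by
      rw [ht, hx]; field_simp; ring
    have e2 : Real.cos t = Real.cos |t - 2 * Real.pi| := by
      rw [Real.cos_abs, Real.cos_sub_two_pi]
    rw [e2]
    apply Real.cos_lt_cos_of_nonneg_of_le_pi (abs_nonneg _)
    · rw [div_le_iff₀ hn0]
      have : (2 : ℝ) ≤ n := by exact_mod_cast hn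
      nlinarith
    · rw [e1, abs_mul, abs_of_pos (by positivity : 0 < Real.pi / n)]
      have : |(K : ℝ) - x| ≤ 1 / 2 := by rw [abs_le]; constructor <;> linarith
      have h5 : 0 < Real.pi / n := by positivity
      nlinarith
  exact lt_of_lt_of_le hval
    (Finset.single_le_sum (f := fun k => circB0 n (circOm n ^ k * z))
      (fun _ _ => circB0_nonneg _ _) hmem)

theorem circH_nonneg (n : ℕ) (z : ℂ) : 0 ≤ circH n z :=
  div_nonneg (circB0_nonneg _ _) (Finset.sum_nonneg fun _ _ => circB0_nonneg _ _)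

theorem circH_le (n : ℕ) (hn : 2 ≤ n) (z : ℂ) (hz : ‖z‖ = 1) : circH n z ≤ 1 := by
  rw [circH, div_le_one (circB_pos n hn z hz), circB]
  have h := Finset.single_le_sum (f := fun k => circB0 n (circOm n ^ k * z))
      (s := Finset.range (2 * n)) (fun _ _ => circB0_nonneg _ _)
      (Finset.mem_range.2 (by omega : 0 < 2 * n))
  simpa using h

theorem circH_sum (n : ℕ) (hn : 2 ≤ n) (z : ℂ) (hz : ‖z‖ = 1) :
    ∑ k ∈ Finset.range (2 * n), circH n (circOm n ^ k * z) = 1 := by
  have h1 : ∀ k, circH n (circOm n ^ k * z) = circB0 n (circOm n ^ k * z) / circB n z := by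
    intro k
    rw [circH, circB_shift_pow n (by omega)]
  simp_rw [h1]
  rw [← Finset.sum_div]
  exact div_self (circB_pos n hn z hz).ne'

theorem circH_orth (n : ℕ) (hn : 2 ≤ n) (z : ℂ) (hz : ‖z‖ = 1) (r : ℕ) (h0 : 0 < r) (h1 : r < n) :
    circH n z * circH n (circOm n ^ (2 * r) * z) = 0 := by
  by_contra hne
  have hn0 : (0 : ℝ) < n := by positivity
  have hn2 : (2 : ℝ) ≤ n := by exact_mod_cast hn
  have hpi := Real.pi_pos
  set c : ℝ := Real.cos (Real.pi / n) with hc
  have hc0 : 0 ≤ c := by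
    apply Real.cos_nonneg_of_neg_pi_div_two_le_of_le
    · have : 0 ≤ Real.pi / n := by positivity
      linarith
    · rw [div_le_div_iff₀ hn0 (by norm_num)]
      nlinarith
  set w : ℂ := circOm n ^ (2 * r) * z with hw
  have hwn : ‖w‖ = 1 := by rw [hw, norm_mul, circOm_pow_norm, hz, one_mul]
  have a1 : c < z.re := by
    by_contra h
    apply hne
    rw [circH, circB0, max_eq_left (by linarith)]; simp
  have a2 : c < w.re := by
    by_contra h
    apply hne
    rw [circH, circH, circB0, circB0,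
      max_eq_left (b := w.re - Real.cos (Real.pi / n)) (by linarith)]
    simp
  have b1 : z.re ^ 2 + z.im ^ 2 = 1 := by
    have h4 : Complex.normSq z = 1 := by
      rw [Complex.normSq_eq_norm_sq, hz]; norm_num
    rw [Complex.normSq_apply] at h4
    nlinarith
  have b2 : w.re ^ 2 + w.im ^ 2 = 1 := by
    have h4 : Complex.normSq w = 1 := by
      rw [Complex.normSq_eq_norm_sq, hwn]; norm_num
    rw [Complex.normSq_apply] at h4
    nlinarith
  have e1 : w * (starRingEnd ℂ) z = circOm n ^ (2 * r) := by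
    rw [hw, mul_assoc, Complex.mul_conj, Complex.normSq_eq_norm_sq, hz]; simp
  have e2 : w.re * z.re + w.im * z.im = Real.cos (Real.pi * ((2 * r : ℕ) : ℝ) / n) := by
    have := congrArg Complex.re e1
    rw [circOm_pow, Complex.exp_ofReal_mul_I_re] at this
    rw [← this]
    simp
  have e3 : Real.cos (Real.pi * ((2 * r : ℕ) : ℝ) / n) ≤ 2 * c ^ 2 - 1 := by
    rw [hc, ← Real.cos_two_mul]
    -- cos (2 π r / n) ≤ cos (2 π / n)
    have hr1 : (1 : ℝ) ≤ r := by exact_mod_cast h0
    have hrn : (r : ℝ) ≤ n - 1 := by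
      have : (r : ℝ) + 1 ≤ n := by exact_mod_cast h1
      linarith
    rcases le_total (2 * r : ℝ) n with h | h
    · apply Real.cos_le_cos_of_nonneg_of_le_pi (by positivity)
      · rw [div_le_iff₀ hn0]
        push_cast
        nlinarith
      · rw [le_div_iff₀ hn0]
        push_cast
        have : 2 * (Real.pi / n) * n = 2 * Real.pi := by field_simp
        rw [this]
        nlinarith
    · have e4 : Real.cos (Real.pi * ((2 * r : ℕ) : ℝ) / n)
          = Real.cos (2 * Real.pi - Real.pi * ((2 * r : ℕ) : ℝ) / n) := by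
        rw [Real.cos_two_pi_sub]
      rw [e4]
      have e5 : 2 * Real.pi - Real.pi * ((2 * r : ℕ) : ℝ) / n = 2 * Real.pi * (n - r) / n := by
        push_cast
        field_simp
      rw [e5]
      apply Real.cos_le_cos_of_nonneg_of_le_pi (by positivity)
      · rw [div_le_iff₀ hn0]
        nlinarith
      · rw [le_div_iff₀ hn0]
        have : 2 * (Real.pi / n) * n = 2 * Real.pi := by field_simp
        rw [this]
        nlinarith
  have f1 : c ^ 2 < w.re * z.re := by nlinarith
  have f2 : z.im ^ 2 < 1 - c ^ 2 := by nlinarith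
  have f3 : w.im ^ 2 < 1 - c ^ 2 := by nlinarith
  have f4 : -(1 - c ^ 2) ≤ w.im * z.im := by nlinarith [sq_nonneg (w.im + z.im)]
  linarith

theorem circH_cont (n : ℕ) (hn : 2 ≤ n) : ContinuousOn (circH n) (Metric.sphere 0 1) := by
  have h0 : Continuous (circB0 n) := by
    unfold circB0
    fun_prop
  have h1 : Continuous (circB n) := by
    unfold circB
    apply continuous_finsetSum
    intro k _
    exact h0.comp (continuous_const.mul continuous_id)
  apply ContinuousOn.div h0.continuousOn h1.continuousOn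
  intro z hz
  rw [mem_sphere_zero_iff_norm] at hz
  exact (circB_pos n hn z hz).ne'

theorem Circ_sum_even (f : ℕ → ℝ) (n : ℕ) :
    ∑ k ∈ Finset.range (2 * n), f k
      = ∑ i ∈ Finset.range n, f (2 * i) + ∑ i ∈ Finset.range n, f (2 * i + 1) := by
  induction n with
  | zero => simp
  | succ n ih =>
    rw [show 2 * (n + 1) = 2 * n + 1 + 1 by ring, Finset.sum_range_succ, Finset.sum_range_succ,
      ih, Finset.sum_range_succ, Finset.sum_range_succ]
    ring

/-- the tower functions -/
noncomputable def circT (n c i : ℕ) (z : ℂ) : ℂ := (circH n (circOm n ^ (2 * i + c) * z) : ℂ)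

theorem circT_cont (n : ℕ) (hn : 2 ≤ n) (c i : ℕ) :
    ContinuousOn (circT n c i) (Metric.sphere 0 1) := by
  have h1 : ContinuousOn (fun z : ℂ => circH n (circOm n ^ (2 * i + c) * z))
      (Metric.sphere 0 1) := by
    have h0 : Continuous (fun z : ℂ => circOm n ^ (2 * i + c) * z) := by fun_prop
    apply (circH_cont n hn).comp h0.continuousOn
    intro z hz
    rw [mem_sphere_zero_iff_norm] at hz ⊢
    rw [norm_mul, circOm_pow_norm, hz, one_mul]
  exact Complex.continuous_ofReal.comp_continuousOn h1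

theorem circT_norm (n : ℕ) (hn : 2 ≤ n) (c i : ℕ) {z : ℂ} (hz : ‖z‖ = 1) :
    ‖circT n c i z‖ ≤ 1 := by
  rw [circT, Complex.norm_real, Real.norm_of_nonneg (circH_nonneg _ _)]
  exact circH_le n hn _ (by rw [norm_mul, circOm_pow_norm, hz, one_mul])

theorem circT_mul (n : ℕ) (hn : 2 ≤ n) (c i j : ℕ) (hi : i < n) (hj : j < n) (hij : i ≠ j)
    {z : ℂ} (hz : ‖z‖ = 1) : circT n c i z * circT n c j z = 0 := by
  wlog h : i < j generalizing i j
  · rw [mul_comm]
    exact this j i hj hi hij.symm (by omega)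
  · rw [circT, circT, ← Complex.ofReal_mul]
    have e1 : circOm n ^ (2 * j + c) * z
        = circOm n ^ (2 * (j - i)) * (circOm n ^ (2 * i + c) * z) := by
      rw [← mul_assoc, ← pow_add]
      congr 2
      omega
    rw [e1, circH_orth n hn _ (by rw [norm_mul, circOm_pow_norm, hz, one_mul]) (j - i)
      (by omega) (by omega)]
    simp

theorem circT_sum (n : ℕ) (hn : 2 ≤ n) {z : ℂ} (hz : ‖z‖ = 1) :
    ∑ i ∈ Finset.range n, circT n 0 i z + ∑ i ∈ Finset.range n, circT n 1 i z = 1 := by
  have h := Circ_sum_even (fun k => circH n (circOm n ^ k * z)) n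
  rw [circH_sum n hn z hz] at h
  simp only [circT, add_zero]
  rw [← Complex.ofReal_sum, ← Complex.ofReal_sum, ← Complex.ofReal_add, ← h]
  simp

variable {A : Type*} [CStarAlgebra A]

theorem rok_of_circ {G : Type*} [Group G] [TopologicalSpace G] [ConnectedSpace G]
    (α : G →* (A ≃⋆ₐ[ℂ] A)) (hc : ∀ a : A, Continuous fun g => α g a) (χ : G →* ℂ)
    (hχ : Continuous χ) (h1 : ∀ g, ‖χ g‖ = 1) (h2 : ∃ g, χ g ≠ 1)
    (hu : ∀ (F : Finset A) (K : Finset G) (ε : ℝ), 0 < ε → ∃ u : A, star u * u = 1 ∧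
      u * star u = 1 ∧ (∀ a ∈ F, ‖u * a - a * u‖ < ε) ∧ ∀ g ∈ K, ‖α g u - χ g • u‖ < ε) :
    Rok A := by
  refine ⟨2, fun m => ?_⟩
  set n : ℕ := max m 2 with hn
  have hn2 : 2 ≤ n := le_max_right _ _
  have hg : ∀ i : ℕ, ∃ g, χ g = circOm n ^ (2 * i) := fun i =>
    exists_root χ hχ h1 h2 (circOm_pow_norm _ _)
  choose γ hγ using hg
  refine ⟨fun _ => n, fun _ i => α (γ i), fun _ => le_max_left _ _,
    fun _ i => triv_of_connected α hc _, ?_⟩
  intro F ε hε
  classical
  set M : ℝ := ∑ a ∈ F, ‖a‖ + 1 with hM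
  have hS : 0 ≤ ∑ a ∈ F, ‖a‖ := Finset.sum_nonneg fun _ _ => norm_nonneg _
  have hM0 : 0 < M := by linarith
  have hMa : ∀ a ∈ F, ‖a‖ ≤ M := by
    intro a ha
    have := Finset.single_le_sum (f := fun a : A => ‖a‖) (fun _ _ => norm_nonneg _) ha
    linarith
  set η : ℝ := ε / (4 * n + 4) with hη
  have hη0 : 0 < η := by positivity
  have hη1 : 2 * η < ε := by
    rw [hη, mul_div_assoc', div_lt_iff₀ (by positivity)]
    have : (0 : ℝ) ≤ n := by positivity
    nlinarith
  have hη2 : 2 * (n * η) < ε := by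
    rw [hη]
    have e : 2 * ((n : ℝ) * (ε / (4 * n + 4))) = (2 * n * ε) / (4 * n + 4) := by ring
    rw [e, div_lt_iff₀ (by positivity)]
    have : (0 : ℝ) ≤ n := by positivity
    nlinarith
  have hδ : ∀ c : ℕ, ∃ δ > 0, (∀ (u v : A), star u * u = 1 → u * star u = 1 →
      star v * v = 1 → v * star v = 1 → ‖u - v‖ < δ →
        ‖cfc (circT n c 0) u - cfc (circT n c 0) v‖ < η) ∧
      ∀ (u a : A), star u * u = 1 → u * star u = 1 → ‖a‖ ≤ M → ‖u * a - a * u‖ < δ →
        ‖cfc (circT n c 0) u * a - a * cfc (circT n c 0) u‖ < ε := by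
    intro c
    obtain ⟨δ1, p1, H1⟩ := unif (circT_cont n hn2 c 0) hη0
    obtain ⟨δ2, p2, H2⟩ := Circ_unif (circT_cont n hn2 c 0) hM0 hε
    refine ⟨min δ1 δ2, lt_min p1 p2, ?_, ?_⟩
    · intro u v a1 a2 a3 a4 h
      exact H1 A u v a1 a2 a3 a4 (h.trans_le (min_le_left _ _))
    · intro u a a1 a2 ha h
      exact H2 A u u a a1 a2 a1 a2 ha (h.trans_le (min_le_right _ _))
  choose δ hδ0 hδ1 hδ2 using hδ
  set d : ℝ := min (δ 0) (δ 1) / (2 * M + 1) with hd
  have hd0 : 0 < min (δ 0) (δ 1) := lt_min (hδ0 0) (hδ0 1)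
  have hdp : 0 < d := by positivity
  have hdd : (2 * M + 1) * d = min (δ 0) (δ 1) := by
    rw [hd]; field_simp
  have hdle : d ≤ min (δ 0) (δ 1) := by
    rw [← hdd]
    nlinarith
  obtain ⟨u, u1, u2, uF, uK⟩ := hu F (Finset.image γ (Finset.range n)) d hdp
  have huK : ∀ i < n, ‖α (γ i) u - circOm n ^ (2 * i) • u‖ < d := by
    intro i hi
    rw [← hγ i]
    exact uK _ (Finset.mem_image_of_mem _ (Finset.mem_range.2 hi))
  have hun : IsStarNormal u := ⟨by rw [Commute, SemiconjBy, u1, u2]⟩
  have hus : spectrum ℂ u ⊆ Metric.sphere 0 1 :=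
    spectrum.subset_circle_of_unitary (𝕜 := ℂ) (Circ_mem u1 u2)
  have husn : ∀ z ∈ spectrum ℂ u, ‖z‖ = 1 := fun z hz => by
    have := hus hz
    rwa [mem_sphere_zero_iff_norm] at this
  have hcon : ∀ c i, ContinuousOn (circT n c i) (spectrum ℂ u) := fun c i =>
    (circT_cont n hn2 c i).mono hus
  -- the unitaries α (γ i) u
  have w1 : ∀ i, star (α (γ i) u) * α (γ i) u = 1 := fun i => by
    rw [← map_star, ← map_mul, u1, map_one]
  have w2 : ∀ i, α (γ i) u * star (α (γ i) u) = 1 := fun i => by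
    rw [← map_star, ← map_mul, u2, map_one]
  have hconj : ∀ i, (starRingEnd ℂ) (circOm n ^ (2 * i)) * circOm n ^ (2 * i) = 1 := fun i => by
    rw [mul_comm, Complex.mul_conj, Complex.normSq_eq_norm_sq, circOm_pow_norm]; simp
  have v1 : ∀ i : ℕ, star (circOm n ^ (2 * i) • u) * (circOm n ^ (2 * i) • u) = 1 := fun i => by
    rw [star_smul, smul_mul_smul_comm, u1, ← starRingEnd_apply, hconj, one_smul]
  have v2 : ∀ i : ℕ, (circOm n ^ (2 * i) • u) * star (circOm n ^ (2 * i) • u) = 1 := fun i => by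
    rw [star_smul, smul_mul_smul_comm, u2, ← starRingEnd_apply, mul_comm (circOm n ^ _), hconj,
      one_smul]
  -- images of the tower elements
  have him : ∀ c i, α (γ i) (cfc (circT n c 0) u) = cfc (circT n c 0) (α (γ i) u) := by
    intro c i
    exact StarAlgHomClass.map_cfc (S := ℂ) (α (γ i)) (circT n c 0) u (hcon c 0)
      (StarAlgEquiv.isometry (α (γ i))).continuous hun ⟨by rw [Commute, SemiconjBy, w1, w2]⟩
  have hshift : ∀ c i, cfc (circT n c 0) (circOm n ^ (2 * i) • u) = cfc (circT n c i) u := by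
    intro c i
    have hfun : (fun z : ℂ => circT n c 0 (circOm n ^ (2 * i) • z)) = circT n c i := by
      funext z
      simp only [circT, smul_eq_mul]
      rw [← mul_assoc, ← pow_add]
      congr 4
      ring
    have hcont : ContinuousOn (circT n c 0)
        ((circOm n ^ (2 * i) • ·) '' (spectrum ℂ u)) := by
      apply (circT_cont n hn2 c 0).mono
      rintro _ ⟨z, hz, rfl⟩
      rw [mem_sphere_zero_iff_norm]
      simp only [smul_eq_mul]
      rw [norm_mul, circOm_pow_norm, husn z hz, one_mul]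
    rw [← cfc_comp_smul (circOm n ^ (2 * i)) (circT n c 0) u hcont hun, hfun]
  have hclose : ∀ c < 2, ∀ i < n,
      ‖α (γ i) (cfc (circT n c 0) u) - cfc (circT n c i) u‖ < η := by
    intro c hc2 i hi
    rw [him, ← hshift]
    apply hδ1 c _ _ (w1 i) (w2 i) (v1 i) (v2 i)
    refine (huK i hi).trans_le (hdle.trans ?_)
    interval_cases c
    · exact min_le_left _ _
    · exact min_le_right _ _
  have hnorm : ∀ c i, ‖cfc (circT n c i) u‖ ≤ 1 := fun c i =>
    norm_cfc_le zero_le_one fun z hz => circT_norm n hn2 c i (husn z hz)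
  have hnorm' : ∀ c i, ‖α (γ i) (cfc (circT n c 0) u)‖ ≤ 1 := fun c i => by
    rw [(StarAlgEquiv.isometry (α (γ i))).norm_map_of_map_zero (map_zero _)]
    exact hnorm c 0
  refine ⟨fun l => cfc (circT n (l : ℕ) 0) u, ?_, ?_, ?_, ?_⟩
  · intro l
    refine ⟨?_, hnorm _ _⟩
    rw [IsSelfAdjoint, ← cfc_star]
    congr 1
    funext z
    rw [circT, ← starRingEnd_apply, Complex.conj_ofReal]
  · intro l i hi a ha
    rw [him]
    apply hδ2 (l : ℕ) _ a (w1 i) (w2 i) (hMa a ha)
    have hlt : ‖α (γ i) u * a - a * α (γ i) u‖ < min (δ 0) (δ 1) := by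
      have e : α (γ i) u * a - a * α (γ i) u
          = (α (γ i) u - circOm n ^ (2 * i) • u) * a + circOm n ^ (2 * i) • (u * a - a * u)
            + a * (circOm n ^ (2 * i) • u - α (γ i) u) := by
        rw [sub_mul, mul_sub, smul_sub, smul_mul_assoc, mul_smul_comm]
        abel
      have ha' := hMa a ha
      have q1 : ‖(α (γ i) u - circOm n ^ (2 * i) • u) * a‖ ≤ d * M :=
        (norm_mul_le _ _).trans (by gcongr; exact (huK i hi).le)
      have q2 : ‖circOm n ^ (2 * i) • (u * a - a * u)‖ < d := by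
        rw [norm_smul, circOm_pow_norm, one_mul]
        exact uF a ha
      have q3 : ‖a * (circOm n ^ (2 * i) • u - α (γ i) u)‖ ≤ M * d := by
        refine (norm_mul_le _ _).trans ?_
        rw [norm_sub_rev]
        gcongr
        exact (huK i hi).le
      rw [← hdd, e]
      calc _ ≤ _ := norm_add₃_le
        _ < d * M + d + M * d := by linarith
        _ = (2 * M + 1) * d := by ring
    refine hlt.trans_le ?_
    have hl : (l : ℕ) < 2 := l.2
    interval_cases hll : (l : ℕ)
    · exact min_le_left _ _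
    · exact min_le_right _ _
  · intro l i hi j hj hij
    have hl : (l : ℕ) < 2 := l.2
    have e1 : cfc (circT n (l : ℕ) i) u * cfc (circT n (l : ℕ) j) u = 0 := by
      rw [← cfc_mul _ _ _ (hcon _ _) (hcon _ _), ← cfc_zero ℂ u]
      apply cfc_congr
      intro z hz
      exact circT_mul n hn2 _ i j hi hj hij (husn z hz)
    have e2 : α (γ i) (cfc (circT n (l : ℕ) 0) u) * α (γ j) (cfc (circT n (l : ℕ) 0) u)
        = (α (γ i) (cfc (circT n (l : ℕ) 0) u) - cfc (circT n (l : ℕ) i) u)
            * α (γ j) (cfc (circT n (l : ℕ) 0) u)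
          + cfc (circT n (l : ℕ) i) u
            * (α (γ j) (cfc (circT n (l : ℕ) 0) u) - cfc (circT n (l : ℕ) j) u) := by
      rw [sub_mul, mul_sub, e1]
      abel
    rw [e2]
    have q1 := hclose l hl i hi
    have q2 := hclose l hl j hj
    calc _ ≤ _ := norm_add_le _ _
      _ ≤ ‖α (γ i) (cfc (circT n (l : ℕ) 0) u) - cfc (circT n (l : ℕ) i) u‖ * 1
          + 1 * ‖α (γ j) (cfc (circT n (l : ℕ) 0) u) - cfc (circT n (l : ℕ) j) u‖ := by
          gcongr
          · exact (norm_mul_le _ _).trans (by gcongr; exact hnorm' _ _)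
          · exact (norm_mul_le _ _).trans (by gcongr; exact hnorm _ _)
      _ < ε := by linarith
  · have e1 : ∑ i ∈ Finset.range n, cfc (circT n 0 i) u + ∑ i ∈ Finset.range n, cfc (circT n 1 i) u
        = 1 := by
      have hsum : ∀ c, (∑ i ∈ Finset.range n, circT n c i)
          = fun z => ∑ i ∈ Finset.range n, circT n c i z := by
        intro c; funext z; simp
      have hsc : ∀ c, ContinuousOn (∑ i ∈ Finset.range n, circT n c i) (spectrum ℂ u) := by
        intro c
        rw [hsum]
        exact continuousOn_finsetSum _ fun i _ => hcon c i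
      rw [← cfc_sum _ _ _ (fun i _ => hcon 0 i), ← cfc_sum _ _ _ (fun i _ => hcon 1 i),
        ← cfc_add u _ _ (hsc 0) (hsc 1), ← cfc_one ℂ u hun]
      apply cfc_congr
      intro z hz
      have := circT_sum n hn2 (husn z hz)
      simpa [Finset.sum_apply] using this
    rw [Fin.sum_univ_two, ← e1]
    have e2 : (∑ i ∈ Finset.range n, α (γ i) (cfc (circT n ((0 : Fin 2) : ℕ) 0) u)
        + ∑ i ∈ Finset.range n, α (γ i) (cfc (circT n ((1 : Fin 2) : ℕ) 0) u))
        - (∑ i ∈ Finset.range n, cfc (circT n 0 i) u + ∑ i ∈ Finset.range n, cfc (circT n 1 i) u)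
        = ∑ i ∈ Finset.range n, (α (γ i) (cfc (circT n 0 0) u) - cfc (circT n 0 i) u)
          + ∑ i ∈ Finset.range n, (α (γ i) (cfc (circT n 1 0) u) - cfc (circT n 1 i) u) := by
      rw [Finset.sum_sub_distrib, Finset.sum_sub_distrib]
      simp only [Fin.val_zero, Fin.val_one]
      abel
    rw [e2]
    have q : ∀ c < 2, ‖∑ i ∈ Finset.range n, (α (γ i) (cfc (circT n c 0) u) - cfc (circT n c i) u)‖
        ≤ n * η := by
      intro c hc2
      refine (norm_sum_le _ _).trans ?_
      refine (Finset.sum_le_card_nsmul _ _ η ?_).trans ?_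
      · intro i hi
        exact (hclose c hc2 i (Finset.mem_range.1 hi)).le
      · rw [Finset.card_range, nsmul_eq_mul]
    calc _ ≤ _ := norm_add_le _ _
      _ ≤ n * η + n * η := add_le_add (q 0 (by norm_num)) (q 1 (by norm_num))
      _ < ε := by linarith

end Pool.Agent.H.MP_8be301_an.RD
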