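import Pool.Agent.H.MP_8be301_an.RD.Seq
import Pool.Agent.H.MP_8be301_an.RD.Sqr

/-!
# From the sequence algebra to the algebra  (module Lift)

`e l ∈ AI A` self-adjoint, `∑ l, e l = 1`, `e l` commutes with `cst q`. Self-adjoint representatives `E l n` (`exists_sa`),
representatives `y t n` of `V t` with `y t n = q * y t n * q` (replace `y` by `q y q`). For `n → ∞`:
`star (y t) * y t' - (if t = t' then q * (∑ l, E l * E l) * q else 0) → 0`, `∑ l, E l → 1`. As
`d * ∑ E l * E l = (∑ E l) * (∑ E l) + ∑_{l < l'} (E l - E l')^2` (or: `2 d ∑ E l E l - 2 (∑ E l)(∑ E l) = ∑_{l,l'} (E l - E l')^2`) one gets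
`∑ l, E l * E l ≥ 1 / (2 d)` for large `n` (`(∑ E l)^2 → 1`; `lb_close`), hence `q (∑ E l E l) q ≥ (1 / (2 d)) q` and
`c = star (y true) * y true + (1 - q) ≥ 1 / (4 d)` for large `n`. `t` from `invSqrt`; `t` commutes with `q`. `v = y true * t`:
`star v * v = t (c - (1 - q)) t = q`: multiply `t c t = 1` by `q`. `q * v = v`. If `v * star v = q` then
`y false = q * y false = v * (t * star (y true) * y false)`, so `‖y false‖ ≤ ‖t‖ ‖star (y true) * y false‖` is small (`‖v‖ ≤ 1`;
`‖t‖^2 ≤ 4 d`: `κ t * t ≤ t c t = 1`, or take `n` with this product small), but `star (y false) * y false` is close to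
`q (∑ E l E l) q ≥ (1 / (2 d)) q`, of norm `≥ 1 / (2 d)` as `‖q‖ = 1`.
To bound `t` uniformly in `n` it may be easiest to prove first the version with explicit tolerances for one `n`.
-/

set_option autoImplicit false

namespace Pool.Agent.H.MP_8be301_an.RD

open Filter Topology

variable {A : Type*} [CStarAlgebra A] [PartialOrder A] [StarOrderedRing A]

theorem Lift_norm_proj {q : A} (hq : Pj q) (hq0 : q ≠ 0) : ‖q‖ = 1 := by
  have h := CStarRing.norm_star_mul_self (x := q)
  rw [hq.2, hq.1] at h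
  have h0 : ‖q‖ ≠ 0 := norm_ne_zero_iff.2 hq0
  have h1 : ‖q‖ * 1 = ‖q‖ * ‖q‖ := by rw [mul_one]; exact h
  exact (mul_left_cancel₀ h0 h1).symm

/-- the statement for fixed elements and explicit tolerances -/
theorem Lift_fin {q P y1 y2 : A} {κ : ℝ} (hq : Pj q) (hq0 : q ≠ 0) (hκ : 0 < κ) (hκ1 : κ ≤ 1)
    (hP : algebraMap ℝ A κ ≤ P) (h1 : q * y1 = y1) (h1' : y1 * q = y1) (h2 : q * y2 = y2)
    (c1 : ‖star y1 * y1 - q * P * q‖ ≤ κ / 2) (c2 : ‖star y1 * y2‖ ≤ κ / 2)
    (c3 : ‖star y2 * y2 - q * P * q‖ ≤ κ / 4) :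
    ∃ v : A, star v * v = q ∧ q * v = v ∧ v * star v ≠ q := by
  obtain ⟨hqq, hqs⟩ := hq
  have : Nontrivial A := ⟨⟨q, 0, hq0⟩⟩
  have hn1 : ‖(1 : A)‖ = 1 := CStarRing.norm_one
  have hnq : ‖q‖ = 1 := Lift_norm_proj ⟨hqq, hqs⟩ hq0
  have hq1 : (0 : A) ≤ 1 - q := by
    have : star (1 - q) * (1 - q) = 1 - q := by
      simp only [star_sub, star_one, hqs, mul_sub, sub_mul, hqq, one_mul, mul_one]
      abel
    rw [← this]
    exact star_mul_self_nonneg _
  have hconj : q * algebraMap ℝ A κ * q = κ • q := by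
    rw [Algebra.algebraMap_eq_smul_one, mul_smul_comm, smul_mul_assoc, mul_one, hqq]
  have hlow : κ • q ≤ q * P * q := by
    have := star_left_conjugate_le_conjugate hP q
    rwa [hqs, hconj] at this
  have hqP : algebraMap ℝ A κ ≤ q * P * q + (1 - q) := by
    have e1 : algebraMap ℝ A κ = κ • q + κ • (1 - q) := by
      rw [Algebra.algebraMap_eq_smul_one, ← smul_add]
      congr 1
      abel
    rw [e1]
    refine add_le_add hlow ?_
    have : (0 : A) ≤ (1 - κ) • (1 - q) := smul_nonneg (by linarith) hq1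
    rw [sub_smul, one_smul] at this
    exact sub_nonneg.1 this
  have hcs : IsSelfAdjoint (star y1 * y1 + (1 - q)) := by
    refine (IsSelfAdjoint.star_mul_self y1).add ?_
    exact IsSelfAdjoint.of_nonneg hq1
  have hcl : ‖star y1 * y1 + (1 - q) - (q * P * q + (1 - q))‖ ≤ κ / 2 := by
    rw [add_sub_add_right_eq_sub]
    exact c1
  have hc := lb_close hqP hcs hcl
  have hk : κ - κ / 2 = κ / 2 := by ring
  rw [hk] at hc
  obtain ⟨t, hts, htc, htcomm⟩ := invSqrt (half_pos hκ) hc
  have hsy : q * star y1 = star y1 := by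
    have := congrArg star h1'
    rwa [star_mul, hqs] at this
  have hqc : q * (star y1 * y1 + (1 - q)) = star y1 * y1 := by
    rw [mul_add, mul_sub, mul_one, hqq, sub_self, add_zero, ← mul_assoc, hsy]
  have hcq : (star y1 * y1 + (1 - q)) * q = star y1 * y1 := by
    rw [add_mul, sub_mul, one_mul, hqq, sub_self, add_zero, mul_assoc, h1']
  have hqt : q * t = t * q := htcomm q (by rw [hqc, hcq])
  have hpc : (1 - q) * (star y1 * y1 + (1 - q)) = 1 - q := by
    rw [sub_mul, one_mul, hqc, add_sub_cancel_left]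
  have hpt : t * (1 - q) * t = 1 - q := by
    have e1 : (1 - q) * t = t * (1 - q) := by
      rw [sub_mul, mul_sub, hqt, one_mul, mul_one]
    calc t * (1 - q) * t = t * ((1 - q) * (star y1 * y1 + (1 - q))) * t := by rw [hpc]
      _ = t * (1 - q) * (star y1 * y1 + (1 - q)) * t := by rw [← mul_assoc t]
      _ = (1 - q) * (t * (star y1 * y1 + (1 - q)) * t) := by rw [← e1]; simp only [mul_assoc]
      _ = 1 - q := by rw [htc, mul_one]
  have hvv : star (y1 * t) * (y1 * t) = q := by
    have e2 : t * (star y1 * y1 + (1 - q)) * t = t * (star y1 * y1) * t + t * (1 - q) * t := by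
      rw [mul_add, add_mul]
    rw [e2, hpt] at htc
    have e3 : star (y1 * t) * (y1 * t) = t * (star y1 * y1) * t := by
      rw [star_mul, hts.star_eq]
      simp only [mul_assoc]
    rw [e3, eq_sub_of_add_eq htc]
    abel
  refine ⟨y1 * t, hvv, by rw [← mul_assoc, h1], fun hcon => ?_⟩
  have ht2 : κ / 2 * (‖t‖ * ‖t‖) ≤ 1 := by
    have e1 := star_left_conjugate_le_conjugate hc t
    rw [hts.star_eq, htc] at e1
    have e2 : t * algebraMap ℝ A (κ / 2) * t = (κ / 2) • (star t * t) := by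
      rw [Algebra.algebraMap_eq_smul_one, mul_smul_comm, smul_mul_assoc, mul_one, hts.star_eq]
    rw [e2] at e1
    have e3 : (0 : A) ≤ (κ / 2) • (star t * t) := smul_nonneg (half_pos hκ).le (star_mul_self_nonneg t)
    have e4 := CStarAlgebra.norm_le_norm_of_nonneg_of_le e3 e1
    rw [hn1, norm_smul, CStarRing.norm_star_mul_self, Real.norm_of_nonneg (half_pos hκ).le] at e4
    exact e4
  have hv1 : ‖y1 * t‖ ≤ 1 := by
    have e1 := CStarRing.norm_star_mul_self (x := y1 * t)
    rw [hvv, hnq] at e1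
    nlinarith [norm_nonneg (y1 * t)]
  have hy2 : y2 = (y1 * t) * (t * (star y1 * y2)) := by
    calc y2 = q * y2 := h2.symm
      _ = (y1 * t) * star (y1 * t) * y2 := by rw [hcon]
      _ = _ := by rw [star_mul, hts.star_eq]; simp only [mul_assoc]
  have hb : ‖y2‖ ≤ ‖t‖ * (κ / 2) := by
    calc ‖y2‖ = ‖(y1 * t) * (t * (star y1 * y2))‖ := by rw [← hy2]
      _ ≤ ‖y1 * t‖ * ‖t * (star y1 * y2)‖ := norm_mul_le _ _
      _ ≤ 1 * (‖t‖ * ‖star y1 * y2‖) :=
        mul_le_mul hv1 (norm_mul_le _ _) (norm_nonneg _) zero_le_one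
      _ ≤ ‖t‖ * (κ / 2) := by
        rw [one_mul]
        exact mul_le_mul_of_nonneg_left c2 (norm_nonneg _)
  have hlow2 : κ ≤ ‖q * P * q‖ := by
    have e3 : (0 : A) ≤ κ • q := by
      have : star q * q = q := by rw [hqs, hqq]
      rw [← this]
      exact smul_nonneg hκ.le (star_mul_self_nonneg q)
    have e4 := CStarAlgebra.norm_le_norm_of_nonneg_of_le e3 hlow
    rwa [norm_smul, hnq, mul_one, Real.norm_of_nonneg hκ.le] at e4
  have hlow3 : κ - κ / 4 ≤ ‖y2‖ * ‖y2‖ := by
    rw [← CStarRing.norm_star_mul_self]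
    have e5 : ‖q * P * q‖ ≤ ‖star y2 * y2‖ + ‖star y2 * y2 - q * P * q‖ := by
      have := norm_sub_le (star y2 * y2) (star y2 * y2 - q * P * q)
      rwa [sub_sub_cancel] at this
    linarith
  have hfin : ‖y2‖ * ‖y2‖ ≤ κ / 2 := by
    calc ‖y2‖ * ‖y2‖ ≤ (‖t‖ * (κ / 2)) * (‖t‖ * (κ / 2)) :=
          mul_le_mul hb hb (norm_nonneg _) (by positivity)
      _ = (κ / 2) * (κ / 2 * (‖t‖ * ‖t‖)) := by ring
      _ ≤ (κ / 2) * 1 := mul_le_mul_of_nonneg_left ht2 (half_pos hκ).le
      _ = κ / 2 := mul_one _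
  linarith

/-- the sum of the squares dominates the square of the sum -/
theorem Lift_sq {d : ℕ} {E : Fin d → A} (hE : ∀ l, IsSelfAdjoint (E l)) :
    (∑ l, E l) * (∑ l, E l) ≤ (d : ℝ) • ∑ l, E l * E l := by
  have h0 : (0 : A) ≤ ∑ l, ∑ l', (E l - E l') * (E l - E l') := by
    refine Finset.sum_nonneg fun l _ => Finset.sum_nonneg fun l' _ => ?_
    have : star (E l - E l') = E l - E l' := ((hE l).sub (hE l')).star_eq
    have h2 := star_mul_self_nonneg (E l - E l')
    rwa [this] at h2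
  have h1 : ∑ l, ∑ l', (E l - E l') * (E l - E l') =
      (2 : ℝ) • ((d : ℝ) • (∑ l, E l * E l) - (∑ l, E l) * (∑ l, E l)) := by
    have e1 : ∀ l l', (E l - E l') * (E l - E l') = E l * E l - E l * E l' - E l' * E l + E l' * E l' := by
      intro l l'
      rw [sub_mul, mul_sub, mul_sub]
      abel
    simp only [e1, Finset.sum_add_distrib, Finset.sum_sub_distrib, Finset.sum_const, Finset.card_univ,
      Fintype.card_fin]
    have e2 : ∑ l, ∑ l', E l * E l' = (∑ l, E l) * (∑ l, E l) := by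
      rw [Finset.sum_mul_sum]
    have e3 : ∑ l, ∑ l', E l' * E l = (∑ l, E l) * (∑ l, E l) := by
      rw [Finset.sum_comm, Finset.sum_mul_sum]
    rw [e2, e3, ← Finset.smul_sum, two_smul]
    simp only [Nat.cast_smul_eq_nsmul]
    abel
  rw [h1] at h0
  have h2 := smul_nonneg (show (0 : ℝ) ≤ 2⁻¹ by norm_num) h0
  rw [smul_smul, inv_mul_cancel₀ (two_ne_zero), one_smul] at h2
  exact sub_nonneg.1 h2

theorem lift {q : A} (hq : Pj q) (hq0 : q ≠ 0) {d : ℕ} {e : Fin d → AI A}
    (he : ∀ l, star (e l) = e l) (heq : ∀ l, e l * cst q = cst q * e l) (hsum : ∑ l, e l = 1)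
    {V : Bool → AI A} (hV : ∀ t t', star (V t) * V t' =
      if t = t' then cst q * ∑ l, e l * e l else 0)
    (hqV : ∀ t, cst q * V t = V t ∧ V t * cst q = V t) :
    ∃ v : A, star v * v = q ∧ q * v = v ∧ v * star v ≠ q := by
  obtain ⟨hqq, hqs⟩ := hq
  have hnt : Nontrivial A := ⟨⟨q, 0, hq0⟩⟩
  choose E hE hEs using fun l => exists_sa (he l)
  choose z hz using fun t => mk_surj (V t)
  -- the approximate unit
  have hS : Tendsto (fun n => ∑ l, E l n) atTop (𝓝 1) := by
    have h1 : mk (∑ l, E l) = mk 1 := by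
      rw [map_sum, map_one, ← hsum]
      exact Finset.sum_congr rfl fun l _ => hE l
    rw [mk_eq] at h1
    have h2 := h1.add_const (1 : A)
    rw [zero_add] at h2
    refine h2.congr fun n => ?_
    rw [BoundedContinuousFunction.coe_one, Pi.one_apply, sub_add_cancel,
      BoundedContinuousFunction.coe_sum, Finset.sum_apply]
  have hd : 0 < d := by
    rcases Nat.eq_zero_or_pos d with rfl | h
    · exfalso
      simp only [Finset.univ_eq_empty, Finset.sum_empty] at hS
      have := tendsto_nhds_unique hS tendsto_const_nhds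
      exact one_ne_zero this
    · exact h
  have hdR : (0 : ℝ) < d := by exact_mod_cast hd
  have hd1 : (1 : ℝ) ≤ d := by exact_mod_cast hd
  -- the products
  have hcomm : cst q * (∑ l, e l * e l) = cst q * (∑ l, e l * e l) * cst q := by
    have e1 : (∑ l, e l * e l) * cst q = cst q * (∑ l, e l * e l) := by
      rw [Finset.sum_mul, Finset.mul_sum]
      refine Finset.sum_congr rfl fun l _ => ?_
      rw [mul_assoc, heq l, ← mul_assoc, heq l, mul_assoc]
    rw [mul_assoc, e1, ← mul_assoc, ← map_mul, hqq]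
  have hprod : ∀ t t', Tendsto (fun n => star (q * z t n * q) * (q * z t' n * q) -
      (if t = t' then q * (∑ l, E l n * E l n) * q else 0)) atTop (𝓝 0) := by
    intro t t'
    have h1 : mk (star (BoundedContinuousFunction.const ℕ q * z t * BoundedContinuousFunction.const ℕ q) *
        (BoundedContinuousFunction.const ℕ q * z t' * BoundedContinuousFunction.const ℕ q)) =
        mk (if t = t' then BoundedContinuousFunction.const ℕ q * (∑ l, E l * E l) *
          BoundedContinuousFunction.const ℕ q else 0) := by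
      have hw : ∀ t, mk (BoundedContinuousFunction.const ℕ q * z t * BoundedContinuousFunction.const ℕ q) = V t := by
        intro t
        rw [map_mul, map_mul, hz, ← cst_def, (hqV t).1, (hqV t).2]
      rw [map_mul, mk_star, hw, hw, hV]
      split_ifs with h
      · rw [hcomm, map_mul, map_mul, map_sum, ← cst_def]
        simp only [map_mul, hE]
      · rw [map_zero]
    rw [mk_eq] at h1
    refine h1.congr fun n => ?_
    split_ifs with h
    · simp [BoundedContinuousFunction.coe_mul, BoundedContinuousFunction.coe_sum]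
    · simp [BoundedContinuousFunction.coe_mul]
  obtain ⟨κ, hκdef⟩ : ∃ κ : ℝ, κ = 1 / (2 * d) := ⟨_, rfl⟩
  have hκ : 0 < κ := by rw [hκdef]; positivity
  have hκd : (d : ℝ) * κ = 1 / 2 := by rw [hκdef]; field_simp
  have hκ1 : κ ≤ 1 := by nlinarith
  -- the estimates hold for large `n`
  have ev : ∀ t t' : Bool, ∀ η : ℝ, 0 < η → ∀ᶠ n in atTop, ‖star (q * z t n * q) * (q * z t' n * q) -
      (if t = t' then q * (∑ l, E l n * E l n) * q else 0)‖ ≤ η := by
    intro t t' η hη
    have h1 := tendsto_zero_iff_norm_tendsto_zero.1 (hprod t t')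
    exact (h1.eventually (gt_mem_nhds hη)).mono fun n hn => le_of_lt hn
  have hSS : ∀ᶠ n in atTop, ‖(∑ l, E l n) * (∑ l, E l n) - 1‖ ≤ 1 / 2 := by
    have h1 : Tendsto (fun n => (∑ l, E l n) * (∑ l, E l n) - 1) atTop (𝓝 (1 * 1 - 1)) :=
      (hS.mul hS).sub_const 1
    rw [mul_one, sub_self] at h1
    have h2 := tendsto_zero_iff_norm_tendsto_zero.1 h1
    exact (h2.eventually (gt_mem_nhds (by norm_num : (0 : ℝ) < 1 / 2))).mono fun n hn => le_of_lt hn
  obtain ⟨n, hn1, hn2, hn3, hn4⟩ := (((ev true true (κ / 2) (by positivity)).and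
    ((ev true false (κ / 2) (by positivity)).and ((ev false false (κ / 4) (by positivity)).and hSS))).exists)
  rw [if_pos rfl] at hn1 hn3
  rw [if_neg (by decide), sub_zero] at hn2
  have hP : algebraMap ℝ A κ ≤ ∑ l, E l n * E l n := by
    have hss : IsSelfAdjoint ((∑ l, E l n) * (∑ l, E l n)) := by
      have h1 : star (∑ l, E l n) = ∑ l, E l n := by
        rw [star_sum]
        exact Finset.sum_congr rfl fun l _ => (hEs l n).star_eq
      show star _ = _
      rw [star_mul, h1]
    have h2 : algebraMap ℝ A 1 ≤ 1 := by rw [map_one]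
    have h3 := lb_close h2 hss hn4
    have h4 := h3.trans (Lift_sq fun l => hEs l n)
    have h5 : (0 : A) ≤ (d : ℝ)⁻¹ • ((d : ℝ) • (∑ l, E l n * E l n) - algebraMap ℝ A (1 - 1 / 2)) :=
      smul_nonneg (inv_nonneg.2 hdR.le) (sub_nonneg.2 h4)
    rw [smul_sub, smul_smul, inv_mul_cancel₀ hdR.ne', one_smul, Algebra.algebraMap_eq_smul_one, smul_smul] at h5
    have h6 : (d : ℝ)⁻¹ * (1 - 1 / 2) = κ := by
      rw [hκdef]
      field_simp
      norm_num
    rw [h6, ← Algebra.algebraMap_eq_smul_one] at h5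
    exact sub_nonneg.1 h5
  exact Lift_fin ⟨hqq, hqs⟩ hq0 hκ hκ1 hP (by rw [← mul_assoc, ← mul_assoc, hqq])
    (by rw [mul_assoc, hqq]) (by rw [← mul_assoc, ← mul_assoc, hqq]) hn1 hn2 hn3

end Pool.Agent.H.MP_8be301_an.RD
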