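import Pool.Agent.H.MP_8be301_an.RD.Full

/-!
# Infinitely many copies in finitely many copies  (module Cop)

`v` an `n × n` isometry, `e = 1 - v * star v ≠ 0` a projection of the matrix algebra. `star v * e = 0`, so
`V k = v ^ k * e` satisfies `star (V k) * V l = if k = l then e else 0`. A diagonal entry `e a a = ∑ b, star (e b a) * e b a` is
not 0 (otherwise all `e b a` are 0), say `c = e b a ≠ 0`. `full` for `c`: `∑ s, star (y s) * (star c * c) * y s = 1`, so
`D = ∑ s, star (y s) * e a a * y s ≥ 1`; `invSqrt`: `t D t = 1`; replace `y s` by `y s * t`. So the columns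
`η s = (e b a * y s)_b` (`e` times the column `y s` at `a`) satisfy `∑ s < K, η s* η s = 1` and `e η s = η s`. `R j = ∑ s, V (j K + s) η s`:
`R j* R j' = if j = j' then 1 else 0`. `full` for `p`: `1 = ∑ s < J, star (y s) * p * y s`. `r (a, s) j = p * y s * (R j) a * p`,
reindexed by `finProdFinEquiv`, `m = n * J`.
-/

set_option autoImplicit false

namespace Pool.Agent.H.MP_8be301_an.RD

variable {A : Type*} [CStarAlgebra A] [PartialOrder A] [StarOrderedRing A]

section

variable {R : Type*} [Ring R] [StarRing R]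

theorem Cop_e {v : R} (hv : star v * v = 1) : star v * (1 - v * star v) = 0 ∧
    star (1 - v * star v) = 1 - v * star v ∧
    (1 - v * star v) * (1 - v * star v) = 1 - v * star v := by
  have h1 : star v * (1 - v * star v) = 0 := by
    rw [mul_sub, mul_one, ← mul_assoc, hv, one_mul, sub_self]
  refine ⟨h1, ?_, ?_⟩
  · rw [star_sub, star_one, star_mul, star_star]
  · rw [sub_mul, one_mul, mul_assoc, h1, mul_zero, sub_zero]

theorem Cop_pow {v : R} (hv : star v * v = 1) (k : ℕ) : star v ^ k * v ^ k = 1 := by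
  induction k with
  | zero => simp
  | succ k ih =>
    rw [pow_succ, pow_succ', mul_assoc, ← mul_assoc (star v) v, hv, one_mul, ih]

theorem Cop_V {v : R} (hv : star v * v = 1) (k l : ℕ) :
    star (v ^ k * (1 - v * star v)) * (v ^ l * (1 - v * star v)) =
      if k = l then 1 - v * star v else 0 := by
  obtain ⟨h1, h2, h3⟩ := Cop_e hv
  have h4 : (1 - v * star v) * v = 0 := by
    have h := congrArg star h1
    rwa [star_mul, star_star, h2, star_zero] at h
  rw [star_mul, star_pow, h2]
  rcases lt_trichotomy k l with h | h | h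
  · rw [if_neg h.ne]
    obtain ⟨d, rfl⟩ := Nat.exists_eq_add_of_lt h
    have e : (1 - v * star v) * star v ^ k * (v ^ (k + d + 1) * (1 - v * star v)) =
        (1 - v * star v) * ((star v ^ k * v ^ k) * v ^ (d + 1)) * (1 - v * star v) := by
      rw [add_assoc, pow_add]
      simp only [mul_assoc]
    rw [e, Cop_pow hv, one_mul, pow_succ', ← mul_assoc, h4, zero_mul, zero_mul]
  · subst h
    rw [if_pos rfl]
    have e : (1 - v * star v) * star v ^ k * (v ^ k * (1 - v * star v)) =
        (1 - v * star v) * (star v ^ k * v ^ k) * (1 - v * star v) := by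
      simp only [mul_assoc]
    rw [e, Cop_pow hv, mul_one, h3]
  · rw [if_neg h.ne']
    obtain ⟨d, rfl⟩ := Nat.exists_eq_add_of_lt h
    have e : (1 - v * star v) * star v ^ (l + d + 1) * (v ^ l * (1 - v * star v)) =
        (1 - v * star v) * (star v ^ (d + 1) * (star v ^ l * v ^ l)) * (1 - v * star v) := by
      rw [show l + d + 1 = (d + 1) + l by ring, pow_add]
      simp only [mul_assoc]
    rw [e, Cop_pow hv, mul_one, pow_succ, mul_assoc, mul_assoc, h1, mul_zero, mul_zero]

end

/-- infinitely many orthonormal columns of finite length -/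
theorem cols (hs : Simp A) (hi : Inf A) : ∃ (n : ℕ) (R : ℕ → Fin n → A),
    ∀ j j' : ℕ, ∑ a, star (R j a) * R j' a = if j = j' then 1 else 0 := by
  obtain ⟨n, v, hv, hv'⟩ := hi
  obtain ⟨h1, h2, h3⟩ := Cop_e hv
  obtain ⟨e, he⟩ : ∃ e : Matrix (Fin n) (Fin n) A, e = 1 - v * star v := ⟨_, rfl⟩
  have hV := Cop_V hv
  rw [← he] at h1 h2 h3 hV
  have he0 : e ≠ 0 := by
    intro h
    rw [he, sub_eq_zero] at h
    exact hv' h.symm
  obtain ⟨b, a, hc⟩ : ∃ b a, e b a ≠ 0 := by
    by_contra hcon
    push Not at hcon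
    exact he0 (Matrix.ext hcon)
  obtain ⟨K, y, hy⟩ := full hs hc
  have hs1 : ∀ (M N : Matrix (Fin n) (Fin n) A) (i j : Fin n),
      (star M * N) i j = ∑ k, star (M k i) * N k j := by
    intro M N i j
    rw [Matrix.mul_apply]
    rfl
  have h4 : star (e b a) * e b a ≤ e a a := by
    have h5 : e a a = ∑ k, star (e k a) * e k a := by
      rw [← hs1, h2, h3]
    rw [h5]
    exact Finset.single_le_sum (f := fun k => star (e k a) * e k a)
      (fun k _ => star_mul_self_nonneg _) (Finset.mem_univ b)
  have h6 : algebraMap ℝ A 1 ≤ ∑ s, star (y s) * e a a * y s := by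
    rw [map_one, ← hy]
    exact Finset.sum_le_sum fun s _ => star_left_conjugate_le_conjugate h4 (y s)
  obtain ⟨t, ht, ht1, -⟩ := invSqrt one_pos h6
  refine ⟨n, fun j b' => ∑ s : Fin K, (v ^ (j * K + s) * e) b' a * (y s * t), fun j j' => ?_⟩
  have h7 : ∀ k l : ℕ, ∑ b', star ((v ^ k * e) b' a) * (v ^ l * e) b' a =
      if k = l then e a a else 0 := by
    intro k l
    rw [← hs1, hV]
    split_ifs with h
    · rfl
    · rfl
  have h8 : ∑ b', star (∑ s : Fin K, (v ^ (j * K + s) * e) b' a * (y s * t)) *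
      (∑ s : Fin K, (v ^ (j' * K + s) * e) b' a * (y s * t)) =
      ∑ s : Fin K, ∑ s' : Fin K, star (y s * t) *
        (if j * K + (s : ℕ) = j' * K + (s' : ℕ) then e a a else 0) * (y s' * t) := by
    have h9 : ∀ b', star (∑ s : Fin K, (v ^ (j * K + s) * e) b' a * (y s * t)) *
        (∑ s : Fin K, (v ^ (j' * K + s) * e) b' a * (y s * t)) =
        ∑ s : Fin K, ∑ s' : Fin K, star (y s * t) *
          (star ((v ^ (j * K + s) * e) b' a) * (v ^ (j' * K + s') * e) b' a) * (y s' * t) := by
      intro b'
      rw [star_sum, Finset.sum_mul_sum]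
      refine Finset.sum_congr rfl fun s _ => Finset.sum_congr rfl fun s' _ => ?_
      rw [star_mul]
      simp only [mul_assoc]
    rw [Finset.sum_congr rfl fun b' _ => h9 b', Finset.sum_comm]
    refine Finset.sum_congr rfl fun s _ => ?_
    rw [Finset.sum_comm]
    refine Finset.sum_congr rfl fun s' _ => ?_
    rw [← h7, Finset.mul_sum, Finset.sum_mul]
  rw [h8]
  have hK : ∀ s : Fin K, 0 < K := fun s => lt_of_le_of_lt (Nat.zero_le _) s.2
  have h10 : ∀ s s' : Fin K, j * K + (s : ℕ) = j' * K + (s' : ℕ) ↔ j = j' ∧ s = s' := by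
    intro s s'
    constructor
    · intro h
      have e1 : (j * K + (s : ℕ)) / K = j := by
        rw [Nat.mul_comm, Nat.mul_add_div (hK s), Nat.div_eq_of_lt s.2, add_zero]
      have e2 : (j' * K + (s' : ℕ)) / K = j' := by
        rw [Nat.mul_comm, Nat.mul_add_div (hK s), Nat.div_eq_of_lt s'.2, add_zero]
      have e3 : j = j' := by rw [← e1, h, e2]
      subst e3
      exact ⟨rfl, Fin.ext (by omega)⟩
    · rintro ⟨rfl, rfl⟩
      rfl
  split_ifs with hj
  · subst hj
    have h11 : ∀ s : Fin K, ∑ s' : Fin K, star (y s * t) *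
        (if j * K + (s : ℕ) = j * K + (s' : ℕ) then e a a else 0) * (y s' * t) =
        t * (star (y s) * e a a * y s) * t := by
      intro s
      rw [Finset.sum_eq_single s]
      · rw [if_pos rfl, star_mul, ht.star_eq]
        simp only [mul_assoc]
      · intro s' _ hne
        rw [if_neg, mul_zero, zero_mul]
        intro h
        exact hne ((h10 s s').1 h).2.symm
      · intro h
        exact (h (Finset.mem_univ s)).elim
    rw [Finset.sum_congr rfl fun s _ => h11 s, ← ht1, Finset.mul_sum, Finset.sum_mul]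
  · refine Finset.sum_eq_zero fun s _ => Finset.sum_eq_zero fun s' _ => ?_
    rw [if_neg, mul_zero, zero_mul]
    intro h
    exact hj ((h10 s s').1 h).1

theorem copies (hs : Simp A) (hi : Inf A) {p : A} (hp : Pj p) (h0 : p ≠ 0) :
    ∃ (m : ℕ) (r : Fin m → ℕ → A), (∀ i j, p * r i j = r i j ∧ r i j * p = r i j) ∧
      ∀ j j' : ℕ, ∑ i, star (r i j) * r i j' = if j = j' then p else 0 := by
  obtain ⟨J, y, hy⟩ := full hs h0
  obtain ⟨n, R, hR⟩ := cols hs hi
  rw [hp.2] at hy
  refine ⟨n * J, fun i j => p * y (finProdFinEquiv.symm i).2 * R j (finProdFinEquiv.symm i).1 * p,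
    fun i j => ⟨?_, ?_⟩, fun j j' => ?_⟩
  · simp only [← mul_assoc]
    rw [hp.1]
  · rw [mul_assoc, hp.1]
  · have e1 : ∑ i : Fin (n * J), star (p * y (finProdFinEquiv.symm i).2 *
        R j (finProdFinEquiv.symm i).1 * p) *
        (p * y (finProdFinEquiv.symm i).2 * R j' (finProdFinEquiv.symm i).1 * p) =
        ∑ x : Fin n × Fin J, star (p * y x.2 * R j x.1 * p) * (p * y x.2 * R j' x.1 * p) :=
      Equiv.sum_comp finProdFinEquiv.symm fun x : Fin n × Fin J =>
        star (p * y x.2 * R j x.1 * p) * (p * y x.2 * R j' x.1 * p)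
    have e2 : ∀ a : Fin n, ∑ s : Fin J, star (p * y s * R j a * p) * (p * y s * R j' a * p) =
        p * (star (R j a) * R j' a) * p := by
      intro a
      have e3 : ∀ s : Fin J, star (p * y s * R j a * p) * (p * y s * R j' a * p) =
          p * star (R j a) * (star (y s) * (p * p) * y s) * (R j' a * p) := by
        intro s
        simp only [star_mul, hp.2, mul_assoc]
      rw [Finset.sum_congr rfl fun s _ => e3 s, ← Finset.sum_mul, ← Finset.mul_sum, hy, mul_one]
      simp only [mul_assoc]
    rw [e1, Fintype.sum_prod_type, Finset.sum_congr rfl fun a _ => e2 a, ← Finset.sum_mul,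
      ← Finset.mul_sum, hR]
    split_ifs with h
    · rw [mul_one, hp.1]
    · rw [mul_zero, zero_mul]

end Pool.Agent.H.MP_8be301_an.RD
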