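import Pool.Agent.H.MP_8be301_an.RD.Spec

/-!
# Automorphisms of finite Rokhlin dimension  (module Hwz)

`rok_of_hwz`: colours `Fin (2 (d + 1))` (`finProdFinEquiv : Fin (d + 1) × Fin 2 ≃ _`), for the colour `(l, r)`: `N = p + r` with
`p = max m 1`, `β i = α ^ i`, `g = f l r 0`. `Triv (α ^ i)` by induction (`Triv_comp`). `‖(α ^ i) (f l r 0) - f l r i‖ ≤ i * δ` for `i < p + r`
(automorphisms are isometric). For `F`, `ε` take `δ` with `C δ < ε`, `C` large (depending on `d`, `p` and a bound of the norms of the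
elements of `F`).
-/

set_option autoImplicit false

namespace Pool.Agent.H.MP_8be301_an.RD

variable {A : Type*} [CStarAlgebra A]

/-- finite Rokhlin dimension (Hirshberg, Winter and Zacharias) -/
def FinRokDim (α : A ≃⋆ₐ[ℂ] A) : Prop :=
  ∃ d : ℕ, ∀ (F : Finset A) (p : ℕ) (ε : ℝ), 0 < p → 0 < ε →
    ∃ f : Fin (d + 1) → Fin 2 → ℕ → A,
      (∀ l r i, (∃ y : A, f l r i = star y * y) ∧ ‖f l r i‖ ≤ 1) ∧
      (∀ l, ∀ r r' : Fin 2, ∀ i i' : ℕ, i < p + r.val → i' < p + r'.val → (r, i) ≠ (r', i') →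
        ‖f l r i * f l r' i'‖ < ε) ∧
      ‖∑ l, ∑ r : Fin 2, ∑ i ∈ Finset.range (p + r.val), f l r i - 1‖ < ε ∧
      (∀ l, ∀ r : Fin 2, ∀ i : ℕ, i + 1 < p + r.val → ‖α (f l r i) - f l r (i + 1)‖ < ε) ∧
      (∀ l, ‖α (f l 0 (p - 1) + f l 1 p) - (f l 0 0 + f l 1 0)‖ < ε) ∧
      (∀ l, ∀ r : Fin 2, ∀ i : ℕ, i < p + r.val → ∀ a ∈ F,
        ‖f l r i * a - a * f l r i‖ < ε)

theorem Hwz_trans {p q : A} {β : A ≃⋆ₐ[ℂ] A} (hp : Pj p) (h : Triv β) (h' : Mvn p q) (hq : Pj q) :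
    Mvn p (β q) := by
  obtain ⟨v, hv1, hv2⟩ := h'
  obtain ⟨w, hw1, hw2⟩ := h q hq
  have hβ : β q * β q = β q := by
    rw [← map_mul, hq.1]
  refine ⟨w * v, ?_, ?_⟩
  · calc star (w * v) * (w * v) = star v * (star w * w) * v := by
          rw [star_mul]; noncomm_ring
      _ = star v * (v * star v) * v := by rw [hw1, hv2]
      _ = (star v * v) * (star v * v) := by noncomm_ring
      _ = p := by rw [hv1, hp.1]
  · calc w * v * star (w * v) = w * (v * star v) * star w := by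
          rw [star_mul]; noncomm_ring
      _ = w * (star w * w) * star w := by rw [hv2, hw1]
      _ = (w * star w) * (w * star w) := by noncomm_ring
      _ = β q := by rw [hw2, hβ]

theorem Hwz_pj {p : A} (β : A ≃⋆ₐ[ℂ] A) (hp : Pj p) : Pj (β p) := by
  refine ⟨?_, ?_⟩
  · rw [← map_mul, hp.1]
  · rw [← map_star, hp.2]

theorem triv_pow {α : A ≃⋆ₐ[ℂ] A} (h : Triv α) (n : ℕ) : Triv (α ^ n) := by
  induction n with
  | zero =>
    intro p hp
    refine ⟨p, ?_, ?_⟩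
    · rw [hp.2, hp.1]
    · rw [hp.2, hp.1, pow_zero, StarAlgEquiv.one_apply]
  | succ n ih =>
    intro p hp
    rw [pow_succ', StarAlgEquiv.mul_apply]
    exact Hwz_trans hp h (ih p hp) (Hwz_pj _ hp)

theorem Hwz_norm (β : A ≃⋆ₐ[ℂ] A) (x : A) : ‖β x‖ = ‖x‖ := StarAlgEquiv.norm_map β x

theorem Hwz_close {α : A ≃⋆ₐ[ℂ] A} {f : ℕ → A} {δ : ℝ} {n : ℕ}
    (h : ∀ i, i + 1 < n → ‖α (f i) - f (i + 1)‖ < δ) :
    ∀ i, i < n → ‖(α ^ i) (f 0) - f i‖ ≤ i * δ := by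
  intro i
  induction i with
  | zero =>
    intro _
    rw [pow_zero, StarAlgEquiv.one_apply, sub_self, norm_zero]
    simp
  | succ i ih =>
    intro hi
    have h1 := ih (by omega)
    have h2 := h i hi
    rw [pow_succ', StarAlgEquiv.mul_apply]
    have e : α ((α ^ i) (f 0)) - f (i + 1) = α ((α ^ i) (f 0) - f i) + (α (f i) - f (i + 1)) := by
      rw [map_sub]; abel
    rw [e]
    calc ‖α ((α ^ i) (f 0) - f i) + (α (f i) - f (i + 1))‖
        ≤ ‖α ((α ^ i) (f 0) - f i)‖ + ‖α (f i) - f (i + 1)‖ := norm_add_le _ _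
      _ ≤ i * δ + δ := by
          rw [Hwz_norm]
          exact add_le_add h1 h2.le
      _ = ((i + 1 : ℕ) : ℝ) * δ := by push_cast; ring

theorem Hwz_comm {x f a : A} {η δ M : ℝ} (h : ‖x - f‖ ≤ η) (hf : ‖f * a - a * f‖ < δ)
    (ha : ‖a‖ ≤ M) : ‖x * a - a * x‖ < δ + 2 * η * M := by
  have hη : 0 ≤ η := (norm_nonneg _).trans h
  have e : x * a - a * x = (f * a - a * f) + ((x - f) * a - a * (x - f)) := by noncomm_ring
  rw [e]
  calc ‖(f * a - a * f) + ((x - f) * a - a * (x - f))‖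
      ≤ ‖f * a - a * f‖ + (‖(x - f) * a‖ + ‖a * (x - f)‖) :=
        (norm_add_le _ _).trans (add_le_add le_rfl (norm_sub_le _ _))
    _ ≤ ‖f * a - a * f‖ + (‖x - f‖ * ‖a‖ + ‖a‖ * ‖x - f‖) :=
        add_le_add le_rfl (add_le_add (norm_mul_le _ _) (norm_mul_le _ _))
    _ ≤ ‖f * a - a * f‖ + (η * M + M * η) := by
        have h1 : ‖x - f‖ * ‖a‖ ≤ η * M := mul_le_mul h ha (norm_nonneg _) hη
        nlinarith [h1]
    _ < δ + 2 * η * M := by nlinarith [hf]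

theorem Hwz_orth {x y f g : A} {η δ : ℝ} (hx : ‖x - f‖ ≤ η) (hy : ‖y - g‖ ≤ η)
    (hf : ‖f * g‖ < δ) (hf1 : ‖f‖ ≤ 1) (hy1 : ‖y‖ ≤ 1) : ‖x * y‖ < δ + 2 * η := by
  have hη : 0 ≤ η := (norm_nonneg _).trans hx
  have e : x * y = f * g + ((x - f) * y + f * (y - g)) := by noncomm_ring
  rw [e]
  calc ‖f * g + ((x - f) * y + f * (y - g))‖
      ≤ ‖f * g‖ + (‖(x - f) * y‖ + ‖f * (y - g)‖) :=
        (norm_add_le _ _).trans (add_le_add le_rfl (norm_add_le _ _))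
    _ ≤ ‖f * g‖ + (‖x - f‖ * ‖y‖ + ‖f‖ * ‖y - g‖) :=
        add_le_add le_rfl (add_le_add (norm_mul_le _ _) (norm_mul_le _ _))
    _ ≤ ‖f * g‖ + (η * 1 + 1 * η) := by
        have h1 : ‖x - f‖ * ‖y‖ ≤ η * 1 := mul_le_mul hx hy1 (norm_nonneg _) hη
        have h2 : ‖f‖ * ‖y - g‖ ≤ 1 * η := mul_le_mul hf1 hy (norm_nonneg _) zero_le_one
        linarith
    _ < δ + 2 * η := by linarith

theorem rok_of_hwz {α : A ≃⋆ₐ[ℂ] A} (h : Triv α) (hd : FinRokDim α) : Rok A := by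
  obtain ⟨d, hd⟩ := hd
  let e : Fin (d + 1) × Fin 2 ≃ Fin ((d + 1) * 2) := finProdFinEquiv
  refine ⟨(d + 1) * 2, fun m => ?_⟩
  refine ⟨fun c => (m + 1) + (e.symm c).2.val, fun _ i => α ^ i, fun c => ?_,
    fun _ i => triv_pow h i, ?_⟩
  · change m ≤ (m + 1) + (e.symm c).2.val
    omega
  intro F ε hε
  -- constants
  let M : ℝ := 1 + ∑ a ∈ F, ‖a‖
  have hM0 : 0 ≤ ∑ a ∈ F, ‖a‖ := Finset.sum_nonneg fun a _ => norm_nonneg a
  have hM : ∀ a ∈ F, ‖a‖ ≤ M := by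
    intro a ha
    have := Finset.single_le_sum (f := fun a : A => ‖a‖) (fun a _ => norm_nonneg a) ha
    change ‖a‖ ≤ 1 + ∑ a ∈ F, ‖a‖
    linarith
  have hM1 : 1 ≤ M := by
    change 1 ≤ 1 + ∑ a ∈ F, ‖a‖
    linarith
  let P : ℝ := ((m + 2 : ℕ) : ℝ)
  have hP : 0 < P := by
    change (0 : ℝ) < ((m + 2 : ℕ) : ℝ)
    positivity
  let D : ℝ := (((d + 1) * 2 : ℕ) : ℝ)
  have hD : 0 ≤ D := Nat.cast_nonneg _
  let K : ℝ := 1 + 2 * P * M + 2 * P + D * (P * P)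
  have hK : 0 < K := by
    change 0 < 1 + 2 * P * M + 2 * P + D * (P * P)
    positivity
  let δ : ℝ := ε / K
  have hδ : 0 < δ := div_pos hε hK
  have hKδ : K * δ = ε := by
    change K * (ε / K) = ε
    field_simp
  have hKδ' : δ + 2 * P * M * δ + 2 * P * δ + D * (P * P) * δ = ε := by
    rw [← hKδ]
    change _ = (1 + 2 * P * M + 2 * P + D * (P * P)) * δ
    ring
  have t1 : 0 ≤ 2 * P * M * δ := by positivity
  have t2 : 0 ≤ 2 * P * δ := by positivity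
  have t3 : 0 ≤ D * (P * P) * δ := by positivity
  obtain ⟨f, hf1, hf2, hf3, hf4, -, hf6⟩ := hd F (m + 1) δ (Nat.succ_pos m) hδ
  have hcl : ∀ (l : Fin (d + 1)) (r : Fin 2) (i : ℕ), i < m + 1 + r.val →
      ‖(α ^ i) (f l r 0) - f l r i‖ ≤ P * δ := by
    intro l r i hi
    refine (Hwz_close (α := α) (f := f l r) (δ := δ) (n := m + 1 + r.val) (hf4 l r) i hi).trans ?_
    refine mul_le_mul_of_nonneg_right ?_ hδ.le
    change (i : ℝ) ≤ ((m + 2 : ℕ) : ℝ)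
    have := r.isLt
    exact_mod_cast (by omega : i ≤ m + 2)
  refine ⟨fun c => f (e.symm c).1 (e.symm c).2 0, ?_, ?_, ?_, ?_⟩
  · intro c
    obtain ⟨⟨y, hy⟩, hn⟩ := hf1 (e.symm c).1 (e.symm c).2 0
    refine ⟨?_, hn⟩
    change IsSelfAdjoint (f (e.symm c).1 (e.symm c).2 0)
    rw [hy]
    exact IsSelfAdjoint.star_mul_self y
  · intro c i hi a ha
    have := Hwz_comm (hcl (e.symm c).1 (e.symm c).2 i hi) (hf6 _ _ i hi a ha) (hM a ha)
    refine this.trans_le ?_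
    have e1 : 2 * (P * δ) * M = 2 * P * M * δ := by ring
    rw [e1]
    linarith
  · intro c i hi j hj hij
    have hn1 : ‖f (e.symm c).1 (e.symm c).2 i‖ ≤ 1 := (hf1 _ _ i).2
    have hn2 : ‖(α ^ j) (f (e.symm c).1 (e.symm c).2 0)‖ ≤ 1 := by
      rw [Hwz_norm]
      exact (hf1 _ _ 0).2
    have hne : ((e.symm c).2, i) ≠ ((e.symm c).2, j) := by
      intro hh
      exact hij (congrArg Prod.snd hh)
    have := Hwz_orth (hcl (e.symm c).1 (e.symm c).2 i hi) (hcl (e.symm c).1 (e.symm c).2 j hj)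
      (hf2 (e.symm c).1 (e.symm c).2 (e.symm c).2 i j hi hj hne) hn1 hn2
    refine this.trans_le ?_
    have e1 : 2 * (P * δ) = 2 * P * δ := by ring
    rw [e1]
    linarith
  · -- reindex the colours
    have hre : (∑ l : Fin ((d + 1) * 2), ∑ i ∈ Finset.range ((m + 1) + (e.symm l).2.val),
        (α ^ i) (f (e.symm l).1 (e.symm l).2 0)) =
        ∑ x : Fin (d + 1) × Fin 2, ∑ i ∈ Finset.range ((m + 1) + x.2.val), (α ^ i) (f x.1 x.2 0) :=
      Equiv.sum_comp e.symm (fun x : Fin (d + 1) × Fin 2 =>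
        ∑ i ∈ Finset.range ((m + 1) + x.2.val), (α ^ i) (f x.1 x.2 0))
    have hre2 : (∑ l, ∑ r : Fin 2, ∑ i ∈ Finset.range (m + 1 + r.val), f l r i) =
        ∑ x : Fin (d + 1) × Fin 2, ∑ i ∈ Finset.range ((m + 1) + x.2.val), f x.1 x.2 i := by
      rw [Fintype.sum_prod_type]
    change ‖(∑ l : Fin ((d + 1) * 2), ∑ i ∈ Finset.range ((m + 1) + (e.symm l).2.val),
        (α ^ i) (f (e.symm l).1 (e.symm l).2 0)) - 1‖ < ε
    rw [hre]
    rw [hre2] at hf3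
    have hsub : (∑ x : Fin (d + 1) × Fin 2, ∑ i ∈ Finset.range ((m + 1) + x.2.val),
          (α ^ i) (f x.1 x.2 0)) - 1 =
        ((∑ x : Fin (d + 1) × Fin 2, ∑ i ∈ Finset.range ((m + 1) + x.2.val), f x.1 x.2 i) - 1) +
        ∑ x : Fin (d + 1) × Fin 2, ∑ i ∈ Finset.range ((m + 1) + x.2.val),
          ((α ^ i) (f x.1 x.2 0) - f x.1 x.2 i) := by
      simp only [Finset.sum_sub_distrib]
      abel
    rw [hsub]
    have hs : ‖∑ x : Fin (d + 1) × Fin 2, ∑ i ∈ Finset.range ((m + 1) + x.2.val),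
          ((α ^ i) (f x.1 x.2 0) - f x.1 x.2 i)‖ ≤ D * (P * (P * δ)) := by
      calc ‖∑ x : Fin (d + 1) × Fin 2, ∑ i ∈ Finset.range ((m + 1) + x.2.val),
            ((α ^ i) (f x.1 x.2 0) - f x.1 x.2 i)‖
          ≤ ∑ x : Fin (d + 1) × Fin 2, ‖∑ i ∈ Finset.range ((m + 1) + x.2.val),
            ((α ^ i) (f x.1 x.2 0) - f x.1 x.2 i)‖ := norm_sum_le _ _
        _ ≤ ∑ x : Fin (d + 1) × Fin 2, P * (P * δ) := by
            refine Finset.sum_le_sum fun x _ => ?_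
            calc ‖∑ i ∈ Finset.range ((m + 1) + x.2.val),
                  ((α ^ i) (f x.1 x.2 0) - f x.1 x.2 i)‖
                ≤ ∑ i ∈ Finset.range ((m + 1) + x.2.val),
                  ‖(α ^ i) (f x.1 x.2 0) - f x.1 x.2 i‖ := norm_sum_le _ _
              _ ≤ ∑ i ∈ Finset.range ((m + 1) + x.2.val), P * δ :=
                  Finset.sum_le_sum fun i hi => hcl _ _ i (Finset.mem_range.mp hi)
              _ = (((m + 1) + x.2.val : ℕ) : ℝ) * (P * δ) := by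
                  rw [Finset.sum_const, Finset.card_range, nsmul_eq_mul]
              _ ≤ P * (P * δ) := by
                  refine mul_le_mul_of_nonneg_right ?_ (by positivity)
                  change (((m + 1) + x.2.val : ℕ) : ℝ) ≤ ((m + 2 : ℕ) : ℝ)
                  have := x.2.isLt
                  exact_mod_cast (by omega : (m + 1) + x.2.val ≤ m + 2)
        _ = D * (P * (P * δ)) := by
            rw [Finset.sum_const, nsmul_eq_mul, Finset.card_univ, Fintype.card_prod,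
              Fintype.card_fin, Fintype.card_fin]
    calc ‖((∑ x : Fin (d + 1) × Fin 2, ∑ i ∈ Finset.range ((m + 1) + x.2.val), f x.1 x.2 i) - 1) +
        ∑ x : Fin (d + 1) × Fin 2, ∑ i ∈ Finset.range ((m + 1) + x.2.val),
          ((α ^ i) (f x.1 x.2 0) - f x.1 x.2 i)‖
        ≤ ‖(∑ x : Fin (d + 1) × Fin 2, ∑ i ∈ Finset.range ((m + 1) + x.2.val), f x.1 x.2 i) - 1‖ +
          ‖∑ x : Fin (d + 1) × Fin 2, ∑ i ∈ Finset.range ((m + 1) + x.2.val),
          ((α ^ i) (f x.1 x.2 0) - f x.1 x.2 i)‖ := norm_add_le _ _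
      _ < δ + D * (P * (P * δ)) := add_lt_add_of_lt_of_le hf3 hs
      _ ≤ ε := by
          have e1 : D * (P * (P * δ)) = D * (P * P) * δ := by ring
          rw [e1]
          linarith

end Pool.Agent.H.MP_8be301_an.RD
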