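import Pool.Agent.H.MP_8be301_an.RD.Fin
import Pool.Agent.H.MP_8be301_an.RD.Hwz
import Pool.Agent.H.MP_8be301_an.RD.Circ

/-!
# Consequences of the dichotomy theorem  (module Cor)

`SFPI A`: `A` is stably finite or purely infinite. Theorems: automorphisms of finite Rokhlin dimension that fix
the classes of projections, in particular those homotopic to the identity; connected groups that act on
central sequences of unitaries by a nontrivial character; crossed products by approximately representable
automorphisms.
-/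

set_option autoImplicit false

namespace Pool.Agent.H.MP_8be301_an.RD

variable {A : Type*} [CStarAlgebra A]

variable (A) in
/-- stably finite or purely infinite -/
def SFPI : Prop :=
  (∀ (n : ℕ) (v : Matrix (Fin n) (Fin n) (Unitization ℂ A)),
      star v * v = 1 → v * star v = 1) ∨
    (∀ a : A, a ≠ 0 → (∃ y : A, a = star y * y) →
      ∃ p ∈ closure {x : A | ∃ z : A, x = a * z * a},
        p * p = p ∧ star p = p ∧
        ∃ v : A, star v * v = p ∧ v * star v * p = v * star v ∧ v * star v ≠ p)

/-- a map of a connected space to the automorphisms, equal to the identity somewhere -/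
theorem triv_of_path {X : Type*} [TopologicalSpace X] [ConnectedSpace X]
    (α : X → (A ≃⋆ₐ[ℂ] A)) (hc : ∀ a : A, Continuous fun x => α x a) (x₀ : X)
    (h₀ : ∀ a, α x₀ a = a) (x : X) : Triv (α x) := by
  intro p hp
  have hpx : ∀ y, Pj (α y p) := fun y => ⟨by rw [← map_mul, hp.1], by rw [← map_star, hp.2]⟩
  have hcl : IsClopen {y : X | Mvn p (α y p)} := by
    have hopen : ∀ y : X, ∀ᶠ y' in nhds y, ‖α y p - α y' p‖ < 1 := by
      intro y
      have h1 : Continuous fun y' => ‖α y p - α y' p‖ :=
        (continuous_const.sub (hc p)).norm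
      have h2 := h1.continuousAt (x := y)
      refine h2.eventually_lt continuousAt_const ?_
      simp
    constructor
    · rw [← isOpen_compl_iff, isOpen_iff_mem_nhds]
      intro y hy
      filter_upwards [hopen y] with y' hy' hM
      exact hy (Mvn.trans hp (hpx y') (hpx y) hM (Mvn.symm (mvn_close (hpx y) (hpx y') hy')))
    · rw [isOpen_iff_mem_nhds]
      intro y hy
      filter_upwards [hopen y] with y' hy'
      exact Mvn.trans hp (hpx y) (hpx y') hy (mvn_close (hpx y) (hpx y') hy')
  have hne : {y : X | Mvn p (α y p)}.Nonempty :=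
    ⟨x₀, by show Mvn p (α x₀ p); rw [h₀]; exact Mvn.refl hp⟩
  have hu := hcl.eq_univ hne
  have hx : x ∈ {y : X | Mvn p (α y p)} := by rw [hu]; exact Set.mem_univ x
  exact hx

/-- an automorphism of finite Rokhlin dimension that fixes the classes of projections -/
theorem dich_hwz (hs : Simp A) (h0 : RR0 A) {α : A ≃⋆ₐ[ℂ] A} (hα : Triv α)
    (hd : FinRokDim α) : SFPI A :=
  dich hs h0 (rok_of_hwz hα hd)

/-- an automorphism of finite Rokhlin dimension that is homotopic to the identity -/
theorem dich_homotopic (hs : Simp A) (h0 : RR0 A) {α : A ≃⋆ₐ[ℂ] A}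
    (H : unitInterval → (A ≃⋆ₐ[ℂ] A)) (hc : ∀ a : A, Continuous fun x => H x a)
    (H0 : ∀ a, H 0 a = a) (H1 : H 1 = α) (hd : FinRokDim α) : SFPI A :=
  dich_hwz hs h0 (H1 ▸ triv_of_path H hc 0 H0 1) hd

/-- a connected group with approximately central eigenunitaries -/
theorem dich_group (hs : Simp A) (h0 : RR0 A) {G : Type*} [Group G] [TopologicalSpace G]
    [ConnectedSpace G] (α : G →* (A ≃⋆ₐ[ℂ] A)) (hc : ∀ a : A, Continuous fun g => α g a)
    (χ : G →* ℂ) (hχ : Continuous χ) (h1 : ∀ g, ‖χ g‖ = 1) (h2 : ∃ g, χ g ≠ 1)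
    (hu : ∀ (F : Finset A) (K : Finset G) (ε : ℝ), 0 < ε → ∃ u : A, star u * u = 1 ∧
      u * star u = 1 ∧ (∀ a ∈ F, ‖u * a - a * u‖ < ε) ∧ ∀ g ∈ K, ‖α g u - χ g • u‖ < ε) :
    SFPI A :=
  dich hs h0 (rok_of_circ α hc χ hχ h1 h2 hu)

/-- the commutator of `star v * U` with `a` is small if `v` is close to `U` on the finite set `E` of
fixed points -/
def Ctl (γ : Circle →* (A ≃⋆ₐ[ℂ] A)) (U a : A) : Prop :=
  ∀ ε : ℝ, 0 < ε → ∃ (E : Finset A) (δ : ℝ), 0 < δ ∧ (∀ b ∈ E, ∀ z, γ z b = b) ∧
    ∀ v : A, star v * v = 1 → v * star v = 1 → ‖U * v * star U - v‖ < δ →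
      (∀ b ∈ E, ‖v * b * star v - U * b * star U‖ < δ) →
      ‖star v * U * a - a * (star v * U)‖ < ε

theorem norm_mul_unitary {U : A} (hU' : U * star U = 1) (x : A) : ‖x * U‖ = ‖x‖ := by
  have h1 : ‖x * U‖ * ‖x * U‖ = ‖x‖ * ‖x‖ := by
    rw [← CStarRing.norm_self_mul_star, star_mul, mul_assoc, ← mul_assoc U, hU', one_mul,
      CStarRing.norm_self_mul_star]
  nlinarith [norm_nonneg (x * U), norm_nonneg x]

theorem norm_unitary_mul {U : A} (hU : star U * U = 1) (x : A) : ‖U * x‖ = ‖x‖ := by
  have h1 : ‖U * x‖ * ‖U * x‖ = ‖x‖ * ‖x‖ := by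
    rw [← CStarRing.norm_star_mul_self, star_mul, mul_assoc, ← mul_assoc (star U), hU, one_mul,
      CStarRing.norm_star_mul_self]
  nlinarith [norm_nonneg (U * x), norm_nonneg x]

/-- crossed products by approximately representable automorphisms: `A` is generated by the fixed
points of the circle action `γ` and a unitary `U` with `γ_z (U) = z U`, and there are fixed unitaries `v`
with `v b v* ≈ U b U*` for fixed points `b` and `U v U* ≈ v` -/
theorem dich_rep (hs : Simp A) (h0 : RR0 A) (γ : Circle →* (A ≃⋆ₐ[ℂ] A))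
    (hc : ∀ a : A, Continuous fun z => γ z a) {U : A} (hU : star U * U = 1)
    (hU' : U * star U = 1) (hγ : ∀ z : Circle, γ z U = (z : ℂ) • U)
    (hgen : ∀ S : Set A, IsClosed S → (∀ x ∈ S, ∀ y ∈ S, x + y ∈ S ∧ x * y ∈ S) →
      (∀ x ∈ S, star x ∈ S ∧ ∀ c : ℂ, c • x ∈ S) → U ∈ S → (∀ b, (∀ z, γ z b = b) → b ∈ S) →
      S = Set.univ)
    (hv : ∀ (E : Finset A) (ε : ℝ), 0 < ε → (∀ b ∈ E, ∀ z, γ z b = b) → ∃ v : A,
      (∀ z, γ z v = v) ∧ star v * v = 1 ∧ v * star v = 1 ∧ ‖U * v * star U - v‖ < ε ∧
      ∀ b ∈ E, ‖v * b * star v - U * b * star U‖ < ε) : SFPI A := by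
  classical
  have hall : {a : A | Ctl γ U a} = Set.univ := by
    refine hgen _ ?_ ?_ ?_ ?_ ?_
    · -- closed
      rw [← closure_subset_iff_isClosed]
      intro a ha ε hε
      rw [Metric.mem_closure_iff] at ha
      obtain ⟨a', ha', hd⟩ := ha (ε / 3) (by positivity)
      obtain ⟨E, δ, hδ, hE, h⟩ := ha' (ε / 3) (by positivity)
      refine ⟨E, δ, hδ, hE, fun v h1 h2 h3 h4 => ?_⟩
      have h5 := h v h1 h2 h3 h4
      have hw : ∀ x : A, ‖star v * U * x‖ = ‖x‖ := fun x => by
        rw [mul_assoc, norm_unitary_mul (U := star v) (by rw [star_star, h2]),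
          norm_unitary_mul hU]
      have hw' : ∀ x : A, ‖x * (star v * U)‖ = ‖x‖ := fun x => by
        rw [← mul_assoc, norm_mul_unitary hU',
          norm_mul_unitary (U := star v) (by rw [star_star, h1])]
      have e : star v * U * a - a * (star v * U) = star v * U * (a - a') +
          (star v * U * a' - a' * (star v * U)) - (a - a') * (star v * U) := by
        rw [mul_sub, sub_mul]
        abel
      rw [dist_eq_norm] at hd
      rw [e]
      refine (norm_sub_le _ _).trans_lt ?_
      refine (add_le_add_left (norm_add_le _ _) _).trans_lt ?_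
      rw [hw, hw']
      linarith
    · intro x hx y hy
      constructor
      · intro ε hε
        obtain ⟨E, δ, hδ, hE, h⟩ := hx (ε / 2) (by positivity)
        obtain ⟨E', δ', hδ', hE', h'⟩ := hy (ε / 2) (by positivity)
        refine ⟨E ∪ E', min δ δ', lt_min hδ hδ', fun b hb => ?_, fun v h1 h2 h3 h4 => ?_⟩
        · rcases Finset.mem_union.1 hb with hb | hb
          · exact hE b hb
          · exact hE' b hb
        have k1 := h v h1 h2 (h3.trans_le (min_le_left _ _)) fun b hb =>
          (h4 b (Finset.mem_union_left _ hb)).trans_le (min_le_left _ _)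
        have k2 := h' v h1 h2 (h3.trans_le (min_le_right _ _)) fun b hb =>
          (h4 b (Finset.mem_union_right _ hb)).trans_le (min_le_right _ _)
        have e : star v * U * (x + y) - (x + y) * (star v * U) =
            (star v * U * x - x * (star v * U)) + (star v * U * y - y * (star v * U)) := by
          rw [mul_add, add_mul]
          abel
        rw [e]
        refine (norm_add_le _ _).trans_lt ?_
        linarith
      · intro ε hε
        have hxp : 0 < ‖x‖ + 1 := by positivity
        have hyp : 0 < ‖y‖ + 1 := by positivity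
        obtain ⟨E, δ, hδ, hE, h⟩ := hx (ε / (2 * (‖y‖ + 1))) (by positivity)
        obtain ⟨E', δ', hδ', hE', h'⟩ := hy (ε / (2 * (‖x‖ + 1))) (by positivity)
        refine ⟨E ∪ E', min δ δ', lt_min hδ hδ', fun b hb => ?_, fun v h1 h2 h3 h4 => ?_⟩
        · rcases Finset.mem_union.1 hb with hb | hb
          · exact hE b hb
          · exact hE' b hb
        have k1 := h v h1 h2 (h3.trans_le (min_le_left _ _)) fun b hb =>
          (h4 b (Finset.mem_union_left _ hb)).trans_le (min_le_left _ _)
        have k2 := h' v h1 h2 (h3.trans_le (min_le_right _ _)) fun b hb =>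
          (h4 b (Finset.mem_union_right _ hb)).trans_le (min_le_right _ _)
        have e : star v * U * (x * y) - (x * y) * (star v * U) =
            (star v * U * x - x * (star v * U)) * y +
              x * (star v * U * y - y * (star v * U)) := by
          rw [sub_mul, mul_sub]
          simp only [mul_assoc]
          abel
        rw [e]
        refine (norm_add_le _ _).trans_lt ?_
        have m1 := (norm_mul_le (star v * U * x - x * (star v * U)) y)
        have m2 := (norm_mul_le x (star v * U * y - y * (star v * U)))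
        have m3 : ‖star v * U * x - x * (star v * U)‖ * ‖y‖ ≤
            ε / (2 * (‖y‖ + 1)) * ‖y‖ := mul_le_mul_of_nonneg_right k1.le (norm_nonneg _)
        have m4 : ‖x‖ * ‖star v * U * y - y * (star v * U)‖ ≤
            ‖x‖ * (ε / (2 * (‖x‖ + 1))) := mul_le_mul_of_nonneg_left k2.le (norm_nonneg _)
        have m5 : ε / (2 * (‖y‖ + 1)) * ‖y‖ < ε / 2 := by
          rw [div_mul_eq_mul_div, div_lt_div_iff₀ (by positivity) (by positivity)]
          nlinarith [norm_nonneg y]
        have m6 : ‖x‖ * (ε / (2 * (‖x‖ + 1))) < ε / 2 := by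
          rw [mul_div_assoc', div_lt_div_iff₀ (by positivity) (by positivity)]
          nlinarith [norm_nonneg x]
        linarith
    · intro x hx
      constructor
      · intro ε hε
        obtain ⟨E, δ, hδ, hE, h⟩ := hx ε hε
        refine ⟨E, δ, hδ, hE, fun v h1 h2 h3 h4 => ?_⟩
        have k := h v h1 h2 h3 h4
        -- `w x* - x* w = w (x w - w x)* w`
        have hw1 : star (star v * U) * (star v * U) = 1 := by
          rw [star_mul, star_star, mul_assoc, ← mul_assoc v, h2, one_mul, hU]
        have hw2 : (star v * U) * star (star v * U) = 1 := by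
          rw [star_mul, star_star, mul_assoc, ← mul_assoc U, hU', one_mul, h1]
        generalize star v * U = w at k hw1 hw2 ⊢
        have e : w * star x - star x * w = w * star (w * x - x * w) * w := by
          rw [star_sub, star_mul, star_mul, mul_sub, sub_mul, ← mul_assoc w (star w), hw2,
            one_mul, ← mul_assoc w (star x), mul_assoc (w * star x), hw1, mul_one]
        rw [e, norm_mul_unitary hw2, norm_unitary_mul hw1, norm_star]
        exact k
      · intro c ε hε
        obtain ⟨E, δ, hδ, hE, h⟩ := hx (ε / (‖c‖ + 1)) (by positivity)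
        refine ⟨E, δ, hδ, hE, fun v h1 h2 h3 h4 => ?_⟩
        have k := h v h1 h2 h3 h4
        rw [mul_smul_comm, smul_mul_assoc, ← smul_sub, norm_smul]
        have hc0 : 0 < ‖c‖ + 1 := by positivity
        rw [lt_div_iff₀ hc0] at k
        nlinarith [norm_nonneg c, norm_nonneg (star v * U * x - x * (star v * U))]
    · intro ε hε
      refine ⟨∅, ε, hε, fun b hb => absurd hb (Finset.notMem_empty b), fun v h1 h2 h3 _ => ?_⟩
      -- `w U - U w = (v* - U v* U*) U U`
      have e : star v * U * U - U * (star v * U) = star (v - U * v * star U) * U * U := by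
        rw [star_sub, star_mul, star_mul, star_star, sub_mul, sub_mul]
        simp only [mul_assoc]
        rw [← mul_assoc (star U) U U, hU, one_mul]
      rw [e, mul_assoc, norm_mul_unitary (U := U * U) (by
        rw [star_mul, mul_assoc, ← mul_assoc U (star U), hU', one_mul, hU']), norm_star,
        norm_sub_rev]
      exact h3
    · intro b hb ε hε
      refine ⟨{b}, ε, hε, fun b' hb' => by rw [Finset.mem_singleton.1 hb']; exact hb,
        fun v h1 h2 _ h4 => ?_⟩
      have k := h4 b (Finset.mem_singleton_self b)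
      have e : star v * U * b - b * (star v * U) =
          star v * (-(v * b * star v - U * b * star U)) * U := by
        rw [neg_sub, mul_sub, sub_mul]
        simp only [mul_assoc]
        rw [hU, mul_one, ← mul_assoc (star v) v, h1, one_mul]
      rw [e, norm_mul_unitary hU', norm_unitary_mul (U := star v) (by rw [star_star, h2]),
        norm_neg]
      exact k
  refine dich_group hs h0 γ hc Circle.coeHom continuous_subtype_val (fun z => Circle.norm_coe z)
    ⟨-1, by
      intro h
      have h2 : ((-1 : Circle) : ℂ) = 1 := h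
      rw [Circle.coe_neg, Circle.coe_one] at h2
      norm_num at h2⟩ ?_
  intro F K ε hε
  have hF : ∀ a : A, Ctl γ U a := fun a => by
    have : a ∈ {a : A | Ctl γ U a} := by rw [hall]; exact Set.mem_univ a
    exact this
  choose E δ hδ hE h using fun a => hF a ε hε
  obtain ⟨v, hv1, hv2, hv3, hv4, hv5⟩ : ∃ v : A, (∀ z, γ z v = v) ∧ star v * v = 1 ∧
      v * star v = 1 ∧ (∀ a ∈ F, ‖U * v * star U - v‖ < δ a) ∧
      ∀ a ∈ F, ∀ b ∈ E a, ‖v * b * star v - U * b * star U‖ < δ a := by
    obtain ⟨η, hη, hηF⟩ : ∃ η : ℝ, 0 < η ∧ ∀ a ∈ F, η ≤ δ a := by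
      clear h hE
      induction F using Finset.induction_on with
      | empty => exact ⟨1, one_pos, fun a ha => absurd ha (Finset.notMem_empty a)⟩
      | insert a s _ ih =>
        obtain ⟨η, hη, hs⟩ := ih
        refine ⟨min η (δ a), lt_min hη (hδ a), fun a' ha' => ?_⟩
        rcases Finset.mem_insert.1 ha' with rfl | ha'
        · exact min_le_right _ _
        · exact (min_le_left _ _).trans (hs a' ha')
    obtain ⟨v, h1, h2, h3, h4, h5⟩ := hv (F.biUnion E) η hη (by
      intro b hb
      obtain ⟨a, -, hb⟩ := Finset.mem_biUnion.1 hb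
      exact hE a b hb)
    exact ⟨v, h1, h2, h3, fun a ha => h4.trans_le (hηF a ha), fun a ha b hb =>
      (h5 b (Finset.mem_biUnion.2 ⟨a, ha, hb⟩)).trans_le (hηF a ha)⟩
  refine ⟨star v * U, ?_, ?_, fun a ha => h a v hv2 hv3 (hv4 a ha) (hv5 a ha), fun z _ => ?_⟩
  · rw [star_mul, star_star, mul_assoc, ← mul_assoc v, hv3, one_mul, hU]
  · rw [star_mul, star_star, mul_assoc, ← mul_assoc U, hU', one_mul, hv2]
  · rw [map_mul, map_star, hv1, hγ, mul_smul_comm]
    show ‖(z : ℂ) • (star v * U) - (z : ℂ) • (star v * U)‖ < ε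
    rw [sub_self, norm_zero]
    exact hε

end Pool.Agent.H.MP_8be301_an.RD
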