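import Mathlib

/-!
# Rokhlin towers under automorphisms that fix the classes of projections (definitions)

`A` is a unital C*-algebra. Order is only used in the proofs (instances `PartialOrder A`,
`StarOrderedRing A`, i.e. the usual order).
-/

set_option autoImplicit false

namespace Pool.Agent.H.MP_8be301_an.RD

section

variable (A : Type*) [CStarAlgebra A]

/-- the closed two-sided ideals are `⊥` and `⊤` -/
def Simp : Prop := ∀ I : TwoSidedIdeal A, IsClosed (I : Set A) → I = ⊥ ∨ I = ⊤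

/-- real rank zero -/
def RR0 : Prop := ∀ x : A, IsSelfAdjoint x → ∀ ε : ℝ, 0 < ε →
  ∃ y : A, IsSelfAdjoint y ∧ (quasispectrum ℂ y).Finite ∧ ‖x - y‖ < ε

/-- some matrix algebra over `A` contains a non-unitary isometry -/
def Inf : Prop := ∃ (n : ℕ) (v : Matrix (Fin n) (Fin n) A), star v * v = 1 ∧ v * star v ≠ 1

end

variable {A : Type*} [CStarAlgebra A]

/-- projections -/
def Pj (p : A) : Prop := p * p = p ∧ star p = p

/-- Murray-von Neumann equivalence -/
def Mvn (p q : A) : Prop := ∃ v : A, star v * v = p ∧ v * star v = q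

/-- the automorphism `β` moves no projection out of its class -/
def Triv (β : A ≃⋆ₐ[ℂ] A) : Prop := ∀ p : A, Pj p → Mvn p (β p)

/-- the towers `β l i (g l)`, `i < N l`, for the finite set `F` and the tolerance `ε` -/
def Tow {d : ℕ} (N : Fin d → ℕ) (β : Fin d → ℕ → (A ≃⋆ₐ[ℂ] A)) (F : Finset A) (ε : ℝ)
    (g : Fin d → A) : Prop :=
  (∀ l, IsSelfAdjoint (g l) ∧ ‖g l‖ ≤ 1) ∧
  (∀ l, ∀ i < N l, ∀ a ∈ F, ‖β l i (g l) * a - a * β l i (g l)‖ < ε) ∧
  (∀ l, ∀ i < N l, ∀ j < N l, i ≠ j → ‖β l i (g l) * β l j (g l)‖ < ε) ∧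
  ‖∑ l, ∑ i ∈ Finset.range (N l), β l i (g l) - 1‖ < ε

variable (A) in
/-- there are arbitrarily long approximately central towers of `d` colours under automorphisms
that fix the classes of projections -/
def Rok : Prop := ∃ d : ℕ, ∀ m : ℕ, ∃ (N : Fin d → ℕ) (β : Fin d → ℕ → (A ≃⋆ₐ[ℂ] A)),
  (∀ l, m ≤ N l) ∧ (∀ l i, Triv (β l i)) ∧
  ∀ (F : Finset A) (ε : ℝ), 0 < ε → ∃ g : Fin d → A, Tow N β F ε g

end Pool.Agent.H.MP_8be301_an.RD
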