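import Pool.Agent.H.MP_8be301_an.RD.Cop

/-!
# Two orthogonal pieces of a projection  (module DivA)

`nonmin`: otherwise every self-adjoint element of `qAq`, hence every element of `qAq`, is a complex multiple of `q`; so
`r i j = c i j • q` (`copies` for `q`) and `∑ i, conj (c i j) * c i j' = if j = j' then 1 else 0` (`q ≠ 0`): `m + 1` orthonormal vectors
in `ℂ^m` (`EuclideanSpace ℂ (Fin m)`, `Orthonormal`, linear independence), a contradiction.
`split`: `P λ = cfc (fun t => max (t - λ) 0) x * q` and `M λ = cfc (fun t => max (λ - t) 0) x * q` depend continuously on `λ`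
(norm of the difference `≤ |λ - λ'|`, `norm_cfc_le`), `P λ * M λ = 0`, all commute. If `P λ = 0` or `M λ = 0` for all `λ`: the
closed sets `{P = 0}` (contains `λ ≥ ‖x‖`) and `{M = 0}` (contains `λ ≤ -‖x‖`) cover `ℝ`, so they meet (`isPreconnected_univ`,
`isPreconnected_closed_iff`): `P λ = M λ = 0` and `P λ - M λ = (x - λ) q = 0`, so `x = λ • q`, a contradiction.
-/

set_option autoImplicit false

namespace Pool.Agent.H.MP_8be301_an.RD

variable {A : Type*} [CStarAlgebra A] [PartialOrder A] [StarOrderedRing A]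

omit [PartialOrder A] [StarOrderedRing A] in
/-- if the self-adjoint elements of `qAq` are real multiples of `q` then all elements are complex
multiples -/
private theorem DivA_scal {q : A} (hq : Pj q)
    (h : ∀ x : A, IsSelfAdjoint x → q * x = x → x * q = x → ∃ c : ℝ, x = c • q) {a : A}
    (h1 : q * a = a) (h2 : a * q = a) : ∃ c : ℂ, a = c • q := by
  have h3 : q * star a = star a := by
    have := congrArg star h2
    rwa [star_mul, hq.2] at this
  have h4 : star a * q = star a := by
    have := congrArg star h1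
    rwa [star_mul, hq.2] at this
  obtain ⟨c, hc⟩ := h (a + star a) (IsSelfAdjoint.add_star_self a)
    (by rw [mul_add, h1, h3]) (by rw [add_mul, h2, h4])
  obtain ⟨d, hd⟩ := h (Complex.I • (a - star a))
    (by
      rw [IsSelfAdjoint, star_smul, star_sub, star_star]
      simp only [Complex.star_def, Complex.conj_I, neg_smul]
      rw [← smul_neg, neg_sub])
    (by rw [mul_smul_comm, mul_sub, h1, h3]) (by rw [smul_mul_assoc, sub_mul, h2, h4])
  have hc' : a + star a = (c : ℂ) • q := by rw [hc]; exact (Complex.coe_smul c q).symm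
  have hd' : Complex.I • (a - star a) = (d : ℂ) • q := by rw [hd]; exact (Complex.coe_smul d q).symm
  refine ⟨(c : ℂ) / 2 - Complex.I * d / 2, ?_⟩
  have e1 : a - star a = (-Complex.I * d) • q := by
    rw [mul_smul, ← hd', smul_smul]
    simp
  have e2 : (2 : ℂ) • a = ((c : ℂ) + (-Complex.I * d)) • q := by
    rw [add_smul, ← hc', ← e1, two_smul]
    abel
  calc a = (1 / 2 : ℂ) • ((2 : ℂ) • a) := by rw [smul_smul]; norm_num
    _ = _ := by
        rw [e2, smul_smul]
        congr 1
        ring

theorem nonmin (hs : Simp A) (hi : Inf A) {q : A} (hq : Pj q) (h0 : q ≠ 0) :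
    ∃ x : A, IsSelfAdjoint x ∧ q * x = x ∧ x * q = x ∧ ∀ c : ℝ, x ≠ c • q := by
  by_contra hcon
  have h : ∀ x : A, IsSelfAdjoint x → q * x = x → x * q = x → ∃ c : ℝ, x = c • q := by
    intro x h1 h2 h3
    by_contra h4
    exact hcon ⟨x, h1, h2, h3, fun c hc => h4 ⟨c, hc⟩⟩
  obtain ⟨m, r, hr, hrr⟩ := copies hs hi hq h0
  choose c hc using fun i j => DivA_scal hq h (hr i j).1 (hr i j).2
  have hort : ∀ j j' : ℕ, ∑ i, (starRingEnd ℂ) (c i j) * c i j' = if j = j' then 1 else 0 := by
    intro j j'
    have h1 : (∑ i, (starRingEnd ℂ) (c i j) * c i j') • q =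
        (if j = j' then (1 : ℂ) else 0) • q := by
      have h2 : (if j = j' then (1 : ℂ) else 0) • q = if j = j' then q else 0 := by
        split_ifs
        · rw [one_smul]
        · rw [zero_smul]
      rw [h2, ← hrr j j', Finset.sum_smul]
      refine Finset.sum_congr rfl fun i _ => ?_
      rw [hc i j, hc i j', star_smul, hq.2, smul_mul_smul_comm, hq.1]
      rfl
    have h3 : ((∑ i, (starRingEnd ℂ) (c i j) * c i j') - (if j = j' then (1 : ℂ) else 0)) • q = 0 := by
      rw [sub_smul, h1, sub_self]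
    rcases smul_eq_zero.1 h3 with h4 | h4
    · exact sub_eq_zero.1 h4
    · exact absurd h4 h0
  let w : Fin (m + 1) → EuclideanSpace ℂ (Fin m) := fun j => WithLp.toLp 2 fun i => c i j
  have hw : Orthonormal ℂ w := by
    rw [orthonormal_iff_ite]
    intro j j'
    have h1 : inner ℂ (w j) (w j') = ∑ i, (starRingEnd ℂ) (c i j) * c i j' := by
      rw [PiLp.inner_apply]
      refine Finset.sum_congr rfl fun i _ => ?_
      simp [w, mul_comm]
    rw [h1, hort]
    simp [Fin.ext_iff]
  have h1 := hw.linearIndependent.fintype_card_le_finrank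
  rw [Fintype.card_fin, finrank_euclideanSpace, Fintype.card_fin] at h1
  omega

private theorem DivA_lip {x q : A} {F : ℝ → ℝ → ℝ} (hF : ∀ l, Continuous (F l))
    (hL : ∀ l l' t, |F l t - F l' t| ≤ |l - l'|) : Continuous fun l => cfc (F l) x * q := by
  have h1 : LipschitzWith ‖q‖₊ fun l => cfc (F l) x * q := by
    apply LipschitzWith.of_dist_le_mul
    intro l l'
    rw [dist_eq_norm, ← sub_mul, ← cfc_sub (F l) (F l') x (hF l).continuousOn (hF l').continuousOn,
      Real.dist_eq]
    have h2 : ‖cfc (fun t => F l t - F l' t) x‖ ≤ |l - l'| :=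
      norm_cfc_le (abs_nonneg _) fun t _ => by
        rw [Real.norm_eq_abs]
        exact hL l l' t
    calc _ ≤ ‖cfc (fun t => F l t - F l' t) x‖ * ‖q‖ := norm_mul_le _ _
      _ ≤ |l - l'| * ‖q‖ := mul_le_mul_of_nonneg_right h2 (norm_nonneg _)
      _ = _ := by rw [mul_comm]; rfl
  exact h1.continuous

theorem split {q x : A} (hq : Pj q) (hx : IsSelfAdjoint x) (h1 : q * x = x) (h2 : x * q = x)
    (h3 : ∀ c : ℝ, x ≠ c • q) : ∃ y y' : A, IsSelfAdjoint y ∧ IsSelfAdjoint y' ∧ y ≠ 0 ∧
      y' ≠ 0 ∧ y * y' = 0 ∧ q * y = y ∧ q * y' = y' := by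
  have hnt : Nontrivial A := by
    by_contra hc
    rw [not_nontrivial_iff_subsingleton] at hc
    exact h3 0 (Subsingleton.elim _ _)
  let f : ℝ → ℝ → ℝ := fun l t => max (t - l) 0
  let g : ℝ → ℝ → ℝ := fun l t => max (l - t) 0
  have hf : ∀ l, Continuous (f l) := fun l => by fun_prop
  have hg : ∀ l, Continuous (g l) := fun l => by fun_prop
  have hcomm : Commute x q := by
    show x * q = q * x
    rw [h1, h2]
  have hcq : ∀ φ : ℝ → ℝ, Commute (cfc φ x) q := fun φ => hcomm.cfc_real φ
  have hqq : ∀ φ : ℝ → ℝ, q * (cfc φ x * q) = cfc φ x * q := by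
    intro φ
    rw [← mul_assoc, ← (hcq φ).eq, mul_assoc, hq.1]
  have hsa : ∀ φ : ℝ → ℝ, IsSelfAdjoint (cfc φ x * q) := by
    intro φ
    have h4 : IsSelfAdjoint (cfc φ x) := cfc_predicate φ x
    rw [IsSelfAdjoint, star_mul, hq.2, h4.star_eq, (hcq φ).eq]
  have hfg : ∀ l, (cfc (f l) x * q) * (cfc (g l) x * q) = 0 := by
    intro l
    have h4 : cfc (f l) x * cfc (g l) x = 0 := by
      rw [← cfc_mul (f l) (g l) x (hf l).continuousOn (hg l).continuousOn]
      have h5 : (fun t => f l t * g l t) = (0 : ℝ → ℝ) := by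
        funext t
        simp only [f, g, Pi.zero_apply]
        rcases le_total t l with h | h
        · rw [max_eq_right (by linarith : t - l ≤ 0), zero_mul]
        · rw [max_eq_right (by linarith : l - t ≤ 0), mul_zero]
      rw [h5, cfc_zero]
    rw [mul_assoc, hqq, ← mul_assoc, h4, zero_mul]
  by_cases hex : ∃ l, cfc (f l) x * q ≠ 0 ∧ cfc (g l) x * q ≠ 0
  · obtain ⟨l, hl, hl'⟩ := hex
    exact ⟨_, _, hsa _, hsa _, hl, hl', hfg l, hqq _, hqq _⟩
  exfalso
  have hcov : ∀ l, cfc (f l) x * q = 0 ∨ cfc (g l) x * q = 0 := by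
    intro l
    by_contra hc
    rw [not_or] at hc
    exact hex ⟨l, hc.1, hc.2⟩
  have hcf : Continuous fun l => cfc (f l) x * q := DivA_lip hf fun l l' t => by
    simp only [f]
    refine (abs_max_sub_max_le_abs _ _ _).trans ?_
    rw [show t - l - (t - l') = -(l - l') by ring, abs_neg]
  have hcg : Continuous fun l => cfc (g l) x * q := DivA_lip hg fun l l' t => by
    simp only [g]
    refine (abs_max_sub_max_le_abs _ _ _).trans ?_
    rw [show l - t - (l' - t) = l - l' by ring]
  have hclf : IsClosed {l | cfc (f l) x * q = 0} := isClosed_eq hcf continuous_const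
  have hclg : IsClosed {l | cfc (g l) x * q = 0} := isClosed_eq hcg continuous_const
  have hbd : ∀ t ∈ spectrum ℝ x, |t| ≤ ‖x‖ := by
    intro t ht
    have := spectrum.norm_le_norm_of_mem ht
    rwa [Real.norm_eq_abs] at this
  have hf0 : cfc (f ‖x‖) x * q = 0 := by
    have h4 : cfc (f ‖x‖) x = cfc (0 : ℝ → ℝ) x := by
      apply cfc_congr
      intro t ht
      have := abs_le.1 (hbd t ht)
      simp only [f, Pi.zero_apply]
      exact max_eq_right (by linarith [this.2])
    rw [h4, cfc_zero, zero_mul]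
  have hg0 : cfc (g (-‖x‖)) x * q = 0 := by
    have h4 : cfc (g (-‖x‖)) x = cfc (0 : ℝ → ℝ) x := by
      apply cfc_congr
      intro t ht
      have := abs_le.1 (hbd t ht)
      simp only [g, Pi.zero_apply]
      exact max_eq_right (by linarith [this.1])
    rw [h4, cfc_zero, zero_mul]
  obtain ⟨l, -, hl, hl'⟩ := isPreconnected_closed_iff.1 (isPreconnected_univ (α := ℝ))
    {l | cfc (f l) x * q = 0} {l | cfc (g l) x * q = 0} hclf hclg (fun l _ => hcov l)
    ⟨‖x‖, Set.mem_univ _, hf0⟩ ⟨-‖x‖, Set.mem_univ _, hg0⟩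
  have h4 : cfc (f l) x - cfc (g l) x = x - algebraMap ℝ A l := by
    rw [← cfc_sub (f l) (g l) x (hf l).continuousOn (hg l).continuousOn]
    have h5 : (fun t => f l t - g l t) = fun t => t - l := by
      funext t
      simp only [f, g]
      rcases le_total t l with h | h
      · rw [max_eq_right (by linarith : t - l ≤ 0), max_eq_left (by linarith : 0 ≤ l - t)]
        ring
      · rw [max_eq_right (by linarith : l - t ≤ 0), max_eq_left (by linarith : 0 ≤ t - l)]
        ring
    rw [h5, cfc_sub (fun t : ℝ => t) (fun _ => l) x, cfc_id' ℝ x, cfc_const l x]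
  have h5 : (x - algebraMap ℝ A l) * q = 0 := by
    rw [← h4, sub_mul]
    have e1 : cfc (f l) x * q = 0 := hl
    have e2 : cfc (g l) x * q = 0 := hl'
    rw [e1, e2, sub_zero]
  apply h3 l
  rw [sub_mul, h2, sub_eq_zero] at h5
  rw [h5, Algebra.algebraMap_eq_smul_one, smul_mul_assoc, one_mul]

end Pool.Agent.H.MP_8be301_an.RD
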