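import Pool.Agent.H.MP_8be301_an.RD.DivA
import Pool.Agent.H.MP_8be301_an.RD.Hp

/-!
# Division of projections  (module DivB)

`halve`: `y, y'` from `nonmin`, `split`; `a` with `c = y * a * y' ≠ 0` (`full_ne`); `x` from `hp` for `c`: `p = star x * (star c * c) * x`
is a nonzero projection. `u 0 = c * x`; `u 1 = h * x`, `h = CFC.sqrt (star c * c)` (`h * h = star c * c`, `h` self-adjoint).
`y * h = 0` as `(y h) (y h)* = y (star c * c) y = y y' (..) = 0` (`star c = y' * star a * y`, `y * y' = 0`), and `q * h = h` as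
`(1 - q) h h (1 - q) = 0`. So `star (u 0) * u 1 = star x * y' * star a * y * h * x = 0`, `star (u 1) * u 1 = p`.
`divide`: induction on `d`; `d = 0`, `d = 1` trivial (`p = q`); step `d + 1`, `d ≥ 1`: `halve` gives `p₀`, `w 0`, `w 1`; the induction
hypothesis for `p₀` gives `p`, `u' l` (`l < d`) with `p₀ * u' l = u' l`; take `w 0 * u' l` (`l < d`) and `w 1 * u' 0`.
-/

set_option autoImplicit false

namespace Pool.Agent.H.MP_8be301_an.RD

variable {A : Type*} [CStarAlgebra A] [PartialOrder A] [StarOrderedRing A]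

theorem DivB_sqrt (c : A) : ∃ h : A, star h = h ∧ h * h = star c * c := by
  refine ⟨CFC.sqrt (star c * c), ?_, ?_⟩
  · exact (IsSelfAdjoint.of_nonneg (CFC.sqrt_nonneg (star c * c))).star_eq
  · exact CFC.sqrt_mul_sqrt_self (star c * c) (star_mul_self_nonneg c)

theorem halve (hs : Simp A) (hr : RR0 A) (hi : Inf A) {q : A} (hq : Pj q) (h0 : q ≠ 0) :
    ∃ p u u' : A, Pj p ∧ p ≠ 0 ∧ star u * u = p ∧ star u' * u' = p ∧ star u * u' = 0 ∧
      q * u = u ∧ q * u' = u' := by
  obtain ⟨x0, hx0, hx1, hx2, hx3⟩ := nonmin hs hi hq h0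
  obtain ⟨y, y', hy, hy', hy0, hy0', hyy, hqy, hqy'⟩ := split hq hx0 hx1 hx2 hx3
  obtain ⟨a, ha⟩ := full_ne hs hy0 hy0'
  obtain ⟨x, hp1, hp2⟩ := hp hr ha
  set c : A := y * a * y' with hc
  obtain ⟨h, hh1, hh2⟩ := DivB_sqrt c
  have hys : star y = y := hy.star_eq
  have hys' : star y' = y' := hy'.star_eq
  have hcs : star c = y' * (star a * y) := by
    rw [hc, star_mul, star_mul, hys, hys']
  have hycs : y * star c = 0 := by
    rw [hcs, ← mul_assoc, hyy, zero_mul]
  have hyh : y * h = 0 := by
    apply (CStarRing.mul_star_self_eq_zero_iff (y * h)).1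
    rw [star_mul, hh1, hys, mul_assoc, ← mul_assoc h h y, hh2, mul_assoc, ← mul_assoc, hycs,
      zero_mul]
  have hqcs : (1 - q) * star c = 0 := by
    rw [hcs, ← mul_assoc, sub_mul, one_mul, hqy', sub_self, zero_mul]
  have hqs : star (1 - q) = 1 - q := by
    rw [star_sub, star_one, hq.2]
  have hqh' : (1 - q) * h = 0 := by
    apply (CStarRing.mul_star_self_eq_zero_iff ((1 - q) * h)).1
    rw [star_mul, hh1, hqs, mul_assoc, ← mul_assoc h h (1 - q), hh2, mul_assoc, ← mul_assoc, hqcs,
      zero_mul]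
  have hqh : q * h = h := by
    rw [sub_mul, one_mul, sub_eq_zero] at hqh'
    exact hqh'.symm
  have hch : star c * h = 0 := by
    rw [hcs, mul_assoc, mul_assoc, hyh, mul_zero, mul_zero]
  have hqc : q * c = c := by
    rw [hc, ← mul_assoc, ← mul_assoc, hqy]
  refine ⟨star x * (star c * c) * x, c * x, h * x, hp1, hp2, ?_, ?_, ?_, ?_, ?_⟩
  · rw [star_mul]
    simp only [mul_assoc]
  · rw [star_mul, hh1, mul_assoc, ← mul_assoc h h x, hh2]
    simp only [mul_assoc]
  · rw [star_mul, mul_assoc, ← mul_assoc (star c) h x, hch, zero_mul, mul_zero]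
  · rw [← mul_assoc, hqc]
  · rw [← mul_assoc, hqh]

theorem divide (hs : Simp A) (hr : RR0 A) (hi : Inf A) (d : ℕ) {q : A} (hq : Pj q)
    (h0 : q ≠ 0) : ∃ (p : A) (u : Fin d → A), Pj p ∧ p ≠ 0 ∧
      (∀ l l', star (u l) * u l' = if l = l' then p else 0) ∧ ∀ l, q * u l = u l := by
  induction d generalizing q with
  | zero =>
    exact ⟨q, fun l => l.elim0, hq, h0, fun l => l.elim0, fun l => l.elim0⟩
  | succ d ih =>
    obtain ⟨p0, w0, w1, hp0, hp00, hw0, hw1, hw01, hqw0, hqw1⟩ := halve hs hr hi hq h0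
    obtain ⟨p, u, hpp, hpn, hu, hpu⟩ := ih hp0 hp00
    have hw10 : star w1 * w0 = 0 := by
      have := congrArg star hw01
      rwa [star_mul, star_star, star_zero] at this
    rcases Nat.eq_zero_or_pos d with hd | hd
    · subst hd
      refine ⟨q, fun _ => q, hq, h0, ?_, fun _ => hq.1⟩
      intro l l'
      have : l = l' := by
        apply Fin.ext
        omega
      rw [if_pos this, hq.2, hq.1]
    · have key : ∀ (w w' : A) (l l' : Fin d), star (w * u l) * (w' * u l')
          = star (u l) * (star w * w') * u l' := by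
        intro w w' l l'
        rw [star_mul]
        simp only [mul_assoc]
      have e0 : ∀ l l' : Fin d, star (u l) * p0 * u l' = if l = l' then p else 0 := by
        intro l l'
        rw [mul_assoc, hpu, hu]
      refine ⟨p, Fin.cases (w1 * u ⟨0, hd⟩) (fun l => w0 * u l), hpp, hpn, ?_, ?_⟩
      · intro l l'
        refine Fin.cases ?_ (fun l => ?_) l <;> refine Fin.cases ?_ (fun l' => ?_) l'
        · simp only [Fin.cases_zero]
          rw [key, hw1, e0]
          simp
        · simp only [Fin.cases_zero, Fin.cases_succ]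
          rw [key, hw10, mul_zero, zero_mul, if_neg (Fin.succ_ne_zero l').symm]
        · simp only [Fin.cases_zero, Fin.cases_succ]
          rw [key, hw01, mul_zero, zero_mul, if_neg (Fin.succ_ne_zero l)]
        · simp only [Fin.cases_succ]
          rw [key, hw0, e0]
          simp
      · intro l
        refine Fin.cases ?_ (fun l => ?_) l
        · simp only [Fin.cases_zero]
          rw [← mul_assoc, hqw1]
        · simp only [Fin.cases_succ]
          rw [← mul_assoc, hqw0]

end Pool.Agent.H.MP_8be301_an.RD
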