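import Mathlib

/-!
# The main computation in a star ring  (module Exact)

`f l i = φ l i (G l)`, self-adjoint. All sums and products are exact. Put (indices `l : Fin d`, `i, k < N l`, `j : Fin d`)
`z l i = f l i * u l * star (w l i) * star (S l i)`, `x l j k = S l k * w l k * star (u j)`, `B l = p * (G l * G l)`.
1. `star (z l i) * z l' i' = 0` if `l ≠ l'` (`f` commutes with the `u`'s and `star (u l) * u l' = 0`) or if `l = l'`, `i ≠ i'`
 (`f l i * f l i' = 0`), and `= B l` for `l = l'`, `i = i'`: it is `S w star(u) f f u star(w) star(S) = S w p f f star(w) star(S)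
 = S (w star(w)) f f star(S) = S φ(p) φ(G) φ(G) star(S) = S φ(p G)^2 star(S) = (S φ(p G) star(S))^2 = (p G)^2 = B l`.
2. `star (x l j k) * B l * x l j k = u j * star(w) * φ(B) * w * star (u j) = u j * star (u j) * (f l k * f l k)`
 (`star S * B * S = φ (B)`; `star(w) φ(p) w = p`, `u j * p = u j`).
3. `B l` commutes with the `r i (t, j, k)`, `B l * p = B l`. `V t = ∑ l, ∑ i : Fin m, z l i * ∑ j, ∑ k ∈ range (N l), r i (t, j, k) * x l j k`.
 `star (V t) * V t' = ∑ l, ∑_{(j,k),(j',k')} star (x l j k) * B l * (∑ i, star (r i (t,j,k)) * r i (t',j',k')) * x l j' k'`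
 `= if t = t' then ∑ l, ∑_{j,k} star (x l j k) * B l * x l j k else 0 = if t = t' then Q * T else 0`.
4. `Q * V t = V t`: `f` commutes with `u`, `Q * u l = u l * p = u l`. `V t * Q = V t`: `star (u j) * Q = p * star (u j) = star (u j)`.
-/

set_option autoImplicit false

namespace Pool.Agent.H.MP_8be301_an.RD

/-- the data of the main computation -/
structure Dat {R : Type*} [Ring R] [StarRing R] (d m : ℕ) (N : Fin d → ℕ)
    (φ : Fin d → ℕ → (R →+* R)) (p : R) (G : Fin d → R) (u : Fin d → R) (w S : Fin d → ℕ → R)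
    (r : Fin m → Bool × Fin d × ℕ → R) : Prop where
  hN : ∀ l, m ≤ N l
  φs : ∀ l i x, φ l i (star x) = star (φ l i x)
  p2 : p * p = p
  ps : star p = p
  Gs : ∀ l, star (G l) = G l
  pG : ∀ l, 0 < N l → p * G l = G l * p
  uu : ∀ l l', star (u l) * u l' = if l = l' then p else 0
  up : ∀ l, u l * p = u l
  ww : ∀ l, ∀ i < N l, star (w l i) * w l i = p
  ww' : ∀ l, ∀ i < N l, w l i * star (w l i) = φ l i p
  wp : ∀ l, ∀ i < N l, w l i * p = w l i
  SS : ∀ l, ∀ i < N l, star (S l i) * S l i = 1
  SS' : ∀ l, ∀ i < N l, S l i * star (S l i) = 1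
  SG : ∀ l, ∀ i < N l, star (S l i) * (p * G l) * S l i = φ l i (p * G l)
  pr : ∀ i j, p * r i j = r i j
  rp : ∀ i j, r i j * p = r i j
  rr : ∀ j j', ∑ i, star (r i j) * r i j' = if j = j' then p else 0
  rG : ∀ l i t j, ∀ k < N l, r i (t, j, k) * G l = G l * r i (t, j, k)
  fu : ∀ l, ∀ i < N l, ∀ l', φ l i (G l) * u l' = u l' * φ l i (G l)
  fw : ∀ l, ∀ i < N l, φ l i (G l) * w l i = w l i * φ l i (G l)
  ff : ∀ l, ∀ i < N l, ∀ j < N l, i ≠ j → φ l i (G l) * φ l j (G l) = 0

section aux

variable {R : Type*} [Ring R] [StarRing R] {d m : ℕ} {N : Fin d → ℕ}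
    {φ : Fin d → ℕ → (R →+* R)} {p : R} {G : Fin d → R} {u : Fin d → R} {w S : Fin d → ℕ → R}
    {r : Fin m → Bool × Fin d × ℕ → R}

theorem Exact_fs (D : Dat d m N φ p G u w S r) (l : Fin d) (i : ℕ) :
    star (φ l i (G l)) = φ l i (G l) := by
  rw [← D.φs, D.Gs]

theorem Exact_fp (D : Dat d m N φ p G u w S r) (l : Fin d) {i : ℕ} (hi : i < N l) :
    φ l i p * φ l i (G l) = φ l i (G l) * φ l i p := by
  rw [← map_mul, ← map_mul, D.pG l (lt_of_le_of_lt (Nat.zero_le i) hi)]

/-- `φ (B l) = φ(p) f f` -/
theorem Exact_sq (D : Dat d m N φ p G u w S r) (l : Fin d) {i : ℕ} (hi : i < N l) :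
    φ l i (p * G l) * φ l i (p * G l) = φ l i p * (φ l i (G l) * φ l i (G l)) := by
  have hp : φ l i p * φ l i p = φ l i p := by rw [← map_mul, D.p2]
  rw [map_mul]
  calc φ l i p * φ l i (G l) * (φ l i p * φ l i (G l))
      = φ l i p * (φ l i (G l) * φ l i p) * φ l i (G l) := by simp only [mul_assoc]
    _ = φ l i p * (φ l i p * φ l i (G l)) * φ l i (G l) := by rw [Exact_fp D l hi]
    _ = (φ l i p * φ l i p) * (φ l i (G l) * φ l i (G l)) := by simp only [mul_assoc]
    _ = _ := by rw [hp]

theorem Exact_B (D : Dat d m N φ p G u w S r) (l : Fin d) (h : 0 < N l) :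
    p * G l * (p * G l) = p * (G l * G l) := by
  calc p * G l * (p * G l) = p * (G l * p) * G l := by simp only [mul_assoc]
    _ = p * (p * G l) * G l := by rw [D.pG l h]
    _ = (p * p) * (G l * G l) := by simp only [mul_assoc]
    _ = _ := by rw [D.p2]

theorem Exact_SGS (D : Dat d m N φ p G u w S r) (l : Fin d) {i : ℕ} (hi : i < N l) :
    S l i * φ l i (p * G l) * star (S l i) = p * G l := by
  rw [← D.SG l i hi]
  calc S l i * (star (S l i) * (p * G l) * S l i) * star (S l i)
      = (S l i * star (S l i)) * (p * G l) * (S l i * star (S l i)) := by simp only [mul_assoc]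
    _ = _ := by rw [D.SS' l i hi, one_mul, mul_one]

theorem Exact_SBS (D : Dat d m N φ p G u w S r) (l : Fin d) {i : ℕ} (hi : i < N l) :
    S l i * (φ l i p * (φ l i (G l) * φ l i (G l))) * star (S l i) = p * (G l * G l) := by
  rw [← Exact_sq D l hi, ← Exact_B D l (lt_of_le_of_lt (Nat.zero_le i) hi)]
  calc S l i * (φ l i (p * G l) * φ l i (p * G l)) * star (S l i)
      = S l i * φ l i (p * G l) * 1 * φ l i (p * G l) * star (S l i) := by
        rw [mul_one]; simp only [mul_assoc]
    _ = (S l i * φ l i (p * G l) * star (S l i)) * (S l i * φ l i (p * G l) * star (S l i)) := by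
        rw [← D.SS l i hi]; simp only [mul_assoc]
    _ = _ := by rw [Exact_SGS D l hi]

theorem Exact_SBS' (D : Dat d m N φ p G u w S r) (l : Fin d) {i : ℕ} (hi : i < N l) :
    star (S l i) * (p * (G l * G l)) * S l i = φ l i p * (φ l i (G l) * φ l i (G l)) := by
  rw [← Exact_SBS D l hi]
  calc star (S l i) * (S l i * (φ l i p * (φ l i (G l) * φ l i (G l))) * star (S l i)) * S l i
      = (star (S l i) * S l i) * (φ l i p * (φ l i (G l) * φ l i (G l))) *
          (star (S l i) * S l i) := by simp only [mul_assoc]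
    _ = _ := by rw [D.SS l i hi, one_mul, mul_one]

theorem Exact_fw (D : Dat d m N φ p G u w S r) (l : Fin d) {i : ℕ} (hi : i < N l) :
    φ l i (G l) * star (w l i) = star (w l i) * φ l i (G l) := by
  have h := congrArg star (D.fw l i hi)
  rw [star_mul, star_mul, Exact_fs D] at h
  exact h.symm

theorem Exact_fu (D : Dat d m N φ p G u w S r) (l : Fin d) {i : ℕ} (hi : i < N l) (l' : Fin d) :
    φ l i (G l) * star (u l') = star (u l') * φ l i (G l) := by
  have h := congrArg star (D.fu l i hi l')
  rw [star_mul, star_mul, Exact_fs D] at h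
  exact h.symm

/-- the elements `z` -/
def Exact_z (φ : Fin d → ℕ → (R →+* R)) (G : Fin d → R) (u : Fin d → R) (w S : Fin d → ℕ → R)
    (l : Fin d) (i : ℕ) : R := φ l i (G l) * u l * star (w l i) * star (S l i)

theorem Exact_star_z (D : Dat d m N φ p G u w S r) (l : Fin d) (i : ℕ) :
    star (Exact_z φ G u w S l i) = S l i * w l i * star (u l) * φ l i (G l) := by
  unfold Exact_z
  rw [star_mul, star_mul, star_mul, star_star, star_star, Exact_fs D]
  simp only [mul_assoc]

theorem Exact_zz (D : Dat d m N φ p G u w S r) (l l' : Fin d) {i i' : ℕ} (hi : i < N l)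
    (hi' : i' < N l') : star (Exact_z φ G u w S l i) * Exact_z φ G u w S l' i' =
      if l = l' ∧ i = i' then p * (G l * G l) else 0 := by
  rw [Exact_star_z D]
  unfold Exact_z
  by_cases hl : l = l'
  · subst hl
    by_cases hii : i = i'
    · subst hii
      rw [if_pos ⟨rfl, rfl⟩]
      have a1 : ∀ x, φ l i (G l) * (u l * x) = u l * (φ l i (G l) * x) := fun x => by
        rw [← mul_assoc, D.fu l i hi l, mul_assoc]
      have a2 : ∀ x, star (u l) * (u l * x) = p * x := fun x => by
        rw [← mul_assoc, D.uu l l, if_pos rfl]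
      have a3 : ∀ x, w l i * (p * x) = w l i * x := fun x => by rw [← mul_assoc, D.wp l i hi]
      have a4 : ∀ x, φ l i (G l) * (star (w l i) * x) = star (w l i) * (φ l i (G l) * x) :=
        fun x => by rw [← mul_assoc, Exact_fw D l hi, mul_assoc]
      have a5 : ∀ x, w l i * (star (w l i) * x) = φ l i p * x := fun x => by
        rw [← mul_assoc, D.ww' l i hi]
      rw [← Exact_SBS D l hi]
      simp only [mul_assoc]
      rw [a1, a1, a2, a3, a4, a4, a5]
    · rw [if_neg (fun h => hii h.2)]
      calc S l i * w l i * star (u l) * φ l i (G l) *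
            (φ l i' (G l) * u l * star (w l i') * star (S l i'))
          = S l i * w l i * star (u l) * (φ l i (G l) * φ l i' (G l)) * (u l *
            star (w l i') * star (S l i')) := by simp only [mul_assoc]
        _ = 0 := by rw [D.ff l i hi i' hi' hii, mul_zero, zero_mul]
  · rw [if_neg (fun h => hl h.1)]
    calc S l i * w l i * star (u l) * φ l i (G l) *
          (φ l' i' (G l') * u l' * star (w l' i') * star (S l' i'))
        = S l i * w l i * star (u l) * φ l i (G l) * (φ l' i' (G l') * u l') *
          (star (w l' i') * star (S l' i')) := by simp only [mul_assoc]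
      _ = S l i * w l i * star (u l) * (φ l i (G l) * u l') * φ l' i' (G l') *
          (star (w l' i') * star (S l' i')) := by
          rw [D.fu l' i' hi' l']; simp only [mul_assoc]
      _ = S l i * w l i * (star (u l) * u l') * φ l i (G l) * φ l' i' (G l') *
          (star (w l' i') * star (S l' i')) := by
          rw [D.fu l i hi l']; simp only [mul_assoc]
      _ = 0 := by rw [D.uu l l', if_neg hl]; simp only [mul_zero, zero_mul]

/-- the elements `x` -/
def Exact_x (u : Fin d → R) (w S : Fin d → ℕ → R) (l : Fin d) (e : Fin d × ℕ) : R :=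
  S l e.2 * w l e.2 * star (u e.1)

theorem Exact_xBx (D : Dat d m N φ p G u w S r) (l j : Fin d) {k : ℕ} (hk : k < N l) :
    star (Exact_x u w S l (j, k)) * (p * (G l * G l)) * Exact_x u w S l (j, k) =
      u j * star (u j) * (φ l k (G l) * φ l k (G l)) := by
  unfold Exact_x
  change star (S l k * w l k * star (u j)) * (p * (G l * G l)) * (S l k * w l k * star (u j)) = _
  rw [star_mul, star_mul, star_star]
  have a1 : ∀ x, φ l k (G l) * (w l k * x) = w l k * (φ l k (G l) * x) := fun x => by
    rw [← mul_assoc, D.fw l k hk, mul_assoc]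
  have a2 : ∀ x, star (w l k) * (w l k * x) = p * x := fun x => by
    rw [← mul_assoc, D.ww l k hk]
  have a3 : ∀ x, u j * (p * x) = u j * x := fun x => by rw [← mul_assoc, D.up]
  have a4 : ∀ x, φ l k (G l) * (star (u j) * x) = star (u j) * (φ l k (G l) * x) :=
    fun x => by rw [← mul_assoc, Exact_fu D l hk j, mul_assoc]
  calc u j * (star (w l k) * star (S l k)) * (p * (G l * G l)) * (S l k * w l k * star (u j))
      = u j * star (w l k) * (star (S l k) * (p * (G l * G l)) * S l k) * w l k *
        star (u j) := by simp only [mul_assoc]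
    _ = u j * star (w l k) * (w l k * star (w l k) * (φ l k (G l) * φ l k (G l))) * w l k *
        star (u j) := by rw [Exact_SBS' D l hk, ← D.ww' l k hk]
    _ = _ := by
        simp only [mul_assoc]
        rw [a1, a1, a2, a2, a3, a3, Exact_fu D l hk j, a4]

theorem Exact_rB (D : Dat d m N φ p G u w S r) (l : Fin d) (i : Fin m) (t : Bool) {e : Fin d × ℕ}
    (hk : e.2 < N l) : p * (G l * G l) * r i (t, e) = r i (t, e) * (p * (G l * G l)) := by
  have h1 : r i (t, e) * G l = G l * r i (t, e) := D.rG l i t e.1 e.2 hk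
  calc p * (G l * G l) * r i (t, e) = p * G l * (G l * r i (t, e)) := by simp only [mul_assoc]
    _ = p * G l * (r i (t, e) * G l) := by rw [h1]
    _ = p * (G l * r i (t, e)) * G l := by simp only [mul_assoc]
    _ = p * (r i (t, e) * G l) * G l := by rw [h1]
    _ = (p * r i (t, e)) * (G l * G l) := by simp only [mul_assoc]
    _ = (r i (t, e) * p) * (G l * G l) := by rw [D.pr, D.rp]
    _ = _ := by simp only [mul_assoc]

/-- the inner sum -/
def Exact_Y (N : Fin d → ℕ) (u : Fin d → R) (w S : Fin d → ℕ → R)
    (r : Fin m → Bool × Fin d × ℕ → R) (l : Fin d) (i : Fin m) (t : Bool) : R :=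
  ∑ e ∈ Finset.univ ×ˢ Finset.range (N l), r i (t, e) * Exact_x u w S l e

theorem Exact_YY (D : Dat d m N φ p G u w S r) (l : Fin d) (t t' : Bool) :
    ∑ i, star (Exact_Y N u w S r l i t) * (p * (G l * G l)) * Exact_Y N u w S r l i t' =
      if t = t' then ∑ e ∈ Finset.univ ×ˢ Finset.range (N l),
        star (Exact_x u w S l e) * (p * (G l * G l)) * Exact_x u w S l e else 0 := by
  classical
  set B := p * (G l * G l) with hB
  set s : Finset (Fin d × ℕ) := Finset.univ ×ˢ Finset.range (N l) with hs
  have hlt : ∀ e ∈ s, e.2 < N l := by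
    intro e he
    rw [hs, Finset.mem_product] at he
    exact Finset.mem_range.1 he.2
  have hpB : p * B = B := by rw [hB, ← mul_assoc, D.p2]
  have h1 : ∀ i, star (Exact_Y N u w S r l i t) * B * Exact_Y N u w S r l i t' =
      ∑ e ∈ s, ∑ e' ∈ s, star (Exact_x u w S l e) *
        ((star (r i (t, e)) * r i (t', e')) * B) * Exact_x u w S l e' := by
    intro i
    unfold Exact_Y
    rw [star_sum, Finset.sum_mul, Finset.sum_mul]
    refine Finset.sum_congr rfl fun e _ => ?_
    rw [Finset.mul_sum]
    refine Finset.sum_congr rfl fun e' he' => ?_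
    rw [star_mul]
    calc star (Exact_x u w S l e) * star (r i (t, e)) * B * (r i (t', e') * Exact_x u w S l e')
        = star (Exact_x u w S l e) * star (r i (t, e)) * (B * r i (t', e')) *
          Exact_x u w S l e' := by simp only [mul_assoc]
      _ = _ := by rw [hB, Exact_rB D l i t' (hlt e' he')]; simp only [mul_assoc]
  have h2 : ∑ i, star (Exact_Y N u w S r l i t) * B * Exact_Y N u w S r l i t' =
      ∑ e ∈ s, ∑ e' ∈ s, star (Exact_x u w S l e) *
        ((if (t, e) = (t', e') then p else 0) * B) * Exact_x u w S l e' := by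
    rw [Finset.sum_congr rfl (fun i _ => h1 i), Finset.sum_comm]
    refine Finset.sum_congr rfl fun e _ => ?_
    rw [Finset.sum_comm]
    refine Finset.sum_congr rfl fun e' _ => ?_
    rw [← Finset.sum_mul, ← Finset.mul_sum, ← Finset.sum_mul, D.rr]
  rw [h2]
  by_cases ht : t = t'
  · subst ht
    rw [if_pos rfl]
    refine Finset.sum_congr rfl fun e he => ?_
    rw [Finset.sum_eq_single e]
    · rw [if_pos rfl, hpB]
    · intro e' _ hne
      rw [if_neg (fun h => hne (congrArg Prod.snd h).symm), zero_mul, mul_zero, zero_mul]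
    · intro h
      exact absurd he h
  · rw [if_neg ht]
    refine Finset.sum_eq_zero fun e _ => Finset.sum_eq_zero fun e' _ => ?_
    rw [if_neg (fun h => ht (congrArg Prod.fst h)), zero_mul, mul_zero, zero_mul]

theorem Exact_Qu (D : Dat d m N φ p G u w S r) (l : Fin d) :
    (∑ l', u l' * star (u l')) * u l = u l := by
  rw [Finset.sum_mul, Finset.sum_eq_single l]
  · rw [mul_assoc, D.uu, if_pos rfl, D.up]
  · intro l' _ hne
    rw [mul_assoc, D.uu, if_neg hne, mul_zero]
  · intro h
    exact absurd (Finset.mem_univ l) h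

theorem Exact_uQ (D : Dat d m N φ p G u w S r) (l : Fin d) :
    star (u l) * (∑ l', u l' * star (u l')) = star (u l) := by
  have h := congrArg star (Exact_Qu D l)
  rw [star_mul, star_sum] at h
  rw [← h]
  congr 1
  refine Finset.sum_congr rfl fun l' _ => ?_
  rw [star_mul, star_star]

theorem Exact_fQ (D : Dat d m N φ p G u w S r) (l : Fin d) {i : ℕ} (hi : i < N l) :
    (∑ l', u l' * star (u l')) * φ l i (G l) = φ l i (G l) * ∑ l', u l' * star (u l') := by
  rw [Finset.sum_mul, Finset.mul_sum]
  refine Finset.sum_congr rfl fun l' _ => ?_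
  rw [mul_assoc, ← Exact_fu D l hi l', ← mul_assoc, ← D.fu l i hi l', mul_assoc]

theorem Exact_Qz (D : Dat d m N φ p G u w S r) (l : Fin d) {i : ℕ} (hi : i < N l) :
    (∑ l', u l' * star (u l')) * Exact_z φ G u w S l i = Exact_z φ G u w S l i := by
  unfold Exact_z
  calc (∑ l', u l' * star (u l')) * (φ l i (G l) * u l * star (w l i) * star (S l i))
      = ((∑ l', u l' * star (u l')) * φ l i (G l)) * u l * star (w l i) * star (S l i) := by
        simp only [mul_assoc]
    _ = φ l i (G l) * ((∑ l', u l' * star (u l')) * u l) * star (w l i) * star (S l i) := by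
        rw [Exact_fQ D l hi]; simp only [mul_assoc]
    _ = _ := by rw [Exact_Qu D]

theorem Exact_xQ (D : Dat d m N φ p G u w S r) (l : Fin d) (e : Fin d × ℕ) :
    Exact_x u w S l e * (∑ l', u l' * star (u l')) = Exact_x u w S l e := by
  unfold Exact_x
  rw [mul_assoc, Exact_uQ D]

end aux

theorem exact {R : Type*} [Ring R] [StarRing R] {d m : ℕ} {N : Fin d → ℕ}
    {φ : Fin d → ℕ → (R →+* R)} {p : R} {G : Fin d → R} {u : Fin d → R} {w S : Fin d → ℕ → R}
    {r : Fin m → Bool × Fin d × ℕ → R} (D : Dat d m N φ p G u w S r) :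
    ∃ V : Bool → R, (∀ t t', star (V t) * V t' = if t = t' then
        (∑ l, u l * star (u l)) * ∑ l, ∑ k ∈ Finset.range (N l), φ l k (G l) * φ l k (G l)
        else 0) ∧
      ∀ t, (∑ l, u l * star (u l)) * V t = V t ∧ V t * (∑ l, u l * star (u l)) = V t := by
  classical
  have hlt : ∀ (l : Fin d) (i : Fin m), (i : ℕ) < N l := fun l i => lt_of_lt_of_le i.2 (D.hN l)
  refine ⟨fun t => ∑ l, ∑ i : Fin m, Exact_z φ G u w S l i * Exact_Y N u w S r l i t, ?_, ?_⟩
  · intro t t'
    have h1 : star (∑ l, ∑ i : Fin m, Exact_z φ G u w S l i * Exact_Y N u w S r l i t) *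
        (∑ l, ∑ i : Fin m, Exact_z φ G u w S l i * Exact_Y N u w S r l i t') =
        ∑ l, ∑ i : Fin m, star (Exact_Y N u w S r l i t) * (p * (G l * G l)) *
          Exact_Y N u w S r l i t' := by
      rw [star_sum, Finset.sum_mul]
      refine Finset.sum_congr rfl fun l _ => ?_
      rw [star_sum, Finset.sum_mul]
      refine Finset.sum_congr rfl fun i _ => ?_
      rw [star_mul, Finset.mul_sum, Finset.sum_eq_single l]
      · rw [Finset.mul_sum, Finset.sum_eq_single i]
        · calc star (Exact_Y N u w S r l i t) * star (Exact_z φ G u w S l i) *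
                (Exact_z φ G u w S l i * Exact_Y N u w S r l i t')
              = star (Exact_Y N u w S r l i t) * (star (Exact_z φ G u w S l i) *
                Exact_z φ G u w S l i) * Exact_Y N u w S r l i t' := by simp only [mul_assoc]
            _ = _ := by rw [Exact_zz D l l (hlt l i) (hlt l i), if_pos ⟨rfl, rfl⟩]
        · intro i' _ hne
          have hne' : ¬ (l = l ∧ (i : ℕ) = (i' : ℕ)) := fun h => hne (Fin.ext h.2).symm
          calc star (Exact_Y N u w S r l i t) * star (Exact_z φ G u w S l i) *
                (Exact_z φ G u w S l i' * Exact_Y N u w S r l i' t')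
              = star (Exact_Y N u w S r l i t) * (star (Exact_z φ G u w S l i) *
                Exact_z φ G u w S l i') * Exact_Y N u w S r l i' t' := by simp only [mul_assoc]
            _ = 0 := by
                rw [Exact_zz D l l (hlt l i) (hlt l i'), if_neg hne', mul_zero, zero_mul]
        · intro h
          exact absurd (Finset.mem_univ i) h
      · intro l' _ hne
        rw [Finset.mul_sum]
        refine Finset.sum_eq_zero fun i' _ => ?_
        have hne' : ¬ (l = l' ∧ (i : ℕ) = (i' : ℕ)) := fun h => hne h.1.symm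
        calc star (Exact_Y N u w S r l i t) * star (Exact_z φ G u w S l i) *
              (Exact_z φ G u w S l' i' * Exact_Y N u w S r l' i' t')
            = star (Exact_Y N u w S r l i t) * (star (Exact_z φ G u w S l i) *
              Exact_z φ G u w S l' i') * Exact_Y N u w S r l' i' t' := by simp only [mul_assoc]
          _ = 0 := by
              rw [Exact_zz D l l' (hlt l i) (hlt l' i'), if_neg hne', mul_zero, zero_mul]
      · intro h
        exact absurd (Finset.mem_univ l) h
    change star (∑ l, ∑ i : Fin m, Exact_z φ G u w S l i * Exact_Y N u w S r l i t) *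
        (∑ l, ∑ i : Fin m, Exact_z φ G u w S l i * Exact_Y N u w S r l i t') = _
    rw [h1, Finset.sum_congr rfl (fun l _ => Exact_YY D l t t')]
    by_cases ht : t = t'
    · simp only [if_pos ht]
      rw [Finset.mul_sum]
      refine Finset.sum_congr rfl fun l _ => ?_
      rw [Finset.sum_product, Finset.sum_mul]
      refine Finset.sum_congr rfl fun j _ => ?_
      rw [Finset.mul_sum]
      refine Finset.sum_congr rfl fun k hk => ?_
      exact Exact_xBx D l j (Finset.mem_range.1 hk)
    · simp only [if_neg ht]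
      exact Finset.sum_const_zero
  · intro t
    constructor
    · change (∑ l, u l * star (u l)) *
        (∑ l, ∑ i : Fin m, Exact_z φ G u w S l i * Exact_Y N u w S r l i t) =
        ∑ l, ∑ i : Fin m, Exact_z φ G u w S l i * Exact_Y N u w S r l i t
      rw [Finset.mul_sum]
      refine Finset.sum_congr rfl fun l _ => ?_
      rw [Finset.mul_sum]
      refine Finset.sum_congr rfl fun i _ => ?_
      rw [← mul_assoc, Exact_Qz D l (hlt l i)]
    · change (∑ l, ∑ i : Fin m, Exact_z φ G u w S l i * Exact_Y N u w S r l i t) *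
        (∑ l, u l * star (u l)) =
        ∑ l, ∑ i : Fin m, Exact_z φ G u w S l i * Exact_Y N u w S r l i t
      rw [Finset.sum_mul]
      refine Finset.sum_congr rfl fun l _ => ?_
      rw [Finset.sum_mul]
      refine Finset.sum_congr rfl fun i _ => ?_
      rw [mul_assoc]
      congr 1
      unfold Exact_Y
      rw [Finset.sum_mul]
      refine Finset.sum_congr rfl fun e _ => ?_
      rw [mul_assoc, Exact_xQ D]

end Pool.Agent.H.MP_8be301_an.RD
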