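import Pool.Agent.H.MP_8be301_an.RD.Seq
import Pool.Agent.H.MP_8be301_an.RD.Spec

/-!
# Towers and unitaries in the sequence algebra  (module Lim)

`lim`: for `n : ℕ` choose `g n` for the finite set `F' = F ∪ {β l 0 a : a ∈ F}` and `ε = 1 / (n + 1)`; `G l = mk` of the sequence
`g n l` (`toBS`, norm `≤ 1`). `G l` commutes with `cst a`: `β l 0 (g) * β l 0 a - β l 0 a * β l 0 g = β l 0 (g a - a g)` and `β l 0` is
isometric (or apply the inverse automorphism, which does not increase norms).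
`limU`: `exists_sa`, then `lemU` with `ε = 1 / (n + 1)` for each `n`; `‖S n‖ ≤ 1` as `star (S n) * S n = 1`
(`CStarRing.norm_star_mul_self`).
-/

set_option autoImplicit false

namespace Pool.Agent.H.MP_8be301_an.RD

open Filter Topology

variable {A : Type*} [CStarAlgebra A]

/-- equality of classes from estimates -/
private theorem Lim_eq {x y : BS A} (h : ∀ n : ℕ, ‖x n - y n‖ ≤ 1 / ((n : ℝ) + 1)) :
    mk x = mk y := by
  rw [mk_eq]
  refine tendsto_zero_iff_norm_tendsto_zero.2 (squeeze_zero (fun _ => norm_nonneg _) h ?_)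
  exact tendsto_one_div_add_atTop_nhds_zero_nat

private theorem Lim_pos (n : ℕ) : (0 : ℝ) < 1 / ((n : ℝ) + 1) := by positivity

/-- isometries have norm at most one -/
private theorem Lim_norm {S : A} (h : star S * S = 1) : ‖S‖ ≤ 1 := by
  have h1 : ‖star S * S‖ = ‖S‖ * ‖S‖ := CStarRing.norm_star_mul_self
  have h2 : ‖star (1 : A) * 1‖ = ‖(1 : A)‖ * ‖(1 : A)‖ := CStarRing.norm_star_mul_self
  rw [star_one, one_mul] at h2
  rw [h] at h1
  have h3 : ‖(1 : A)‖ ≤ 1 := by nlinarith [sq_nonneg (‖(1 : A)‖ - 1)]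
  by_contra h4
  nlinarith [not_le.1 h4]

private theorem Lim_iso (β : A ≃⋆ₐ[ℂ] A) (a : A) : ‖a‖ ≤ ‖β a‖ := by
  have h := NonUnitalStarAlgHom.norm_apply_le β.symm (β a)
  rwa [StarAlgEquiv.symm_apply_apply] at h

theorem limU (h0 : RR0 A) {β : A ≃⋆ₐ[ℂ] A} (hβ : Triv β) {b : AI A} (hb : star b = b) :
    ∃ S : AI A, star S * S = 1 ∧ S * star S = 1 ∧ star S * b * S = ext β b := by
  obtain ⟨x, rfl, hx⟩ := exists_sa hb
  choose S h1 h2 h3 using fun n : ℕ => lemU h0 hβ (hx n) (Lim_pos n)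
  have hS : ∀ n, ‖S n‖ ≤ 1 := fun n => Lim_norm (h1 n)
  refine ⟨mk (toBS S hS), ?_, ?_, ?_⟩
  · rw [← mk_star, ← map_mul, ← map_one mk]
    refine congrArg mk ?_
    ext n
    exact h1 n
  · rw [← mk_star, ← map_mul, ← map_one mk]
    refine congrArg mk ?_
    ext n
    exact h2 n
  · rw [← mk_star, ← map_mul, ← map_mul, ext_mk]
    exact Lim_eq fun n => (h3 n).le

theorem lim [DecidableEq A] {d : ℕ} {N : Fin d → ℕ} {β : Fin d → ℕ → (A ≃⋆ₐ[ℂ] A)}
    (hg : ∀ (F : Finset A) (ε : ℝ), 0 < ε → ∃ g : Fin d → A, Tow N β F ε g) (F : Finset A) :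
    ∃ G : Fin d → AI A, (∀ l, star (G l) = G l) ∧
      (∀ l, ∀ i < N l, ∀ a ∈ F, ext (β l i) (G l) * cst a = cst a * ext (β l i) (G l)) ∧
      (∀ l, ∀ i < N l, ∀ j < N l, i ≠ j → ext (β l i) (G l) * ext (β l j) (G l) = 0) ∧
      ∑ l, ∑ i ∈ Finset.range (N l), ext (β l i) (G l) = 1 ∧
      ∀ l, 0 < N l → ∀ a ∈ F, G l * cst a = cst a * G l := by
  choose g hT using fun n : ℕ =>
    hg (F ∪ Finset.univ.biUnion fun l => F.image (β l 0)) (1 / ((n : ℝ) + 1)) (Lim_pos n)
  have hb : ∀ l n, ‖g n l‖ ≤ 1 := fun l n => ((hT n).1 l).2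
  refine ⟨fun l => mk (toBS (fun n => g n l) (hb l)), fun l => ?_, fun l i hi a ha => ?_,
    fun l i hi j hj hij => ?_, ?_, fun l hl a ha => ?_⟩
  · rw [← mk_star]
    refine congrArg mk ?_
    ext n
    exact ((hT n).1 l).1
  · rw [ext_mk, cst_def, ← map_mul, ← map_mul]
    exact Lim_eq fun n => ((hT n).2.1 l i hi a (Finset.mem_union_left _ ha)).le
  · rw [ext_mk, ext_mk, ← map_mul, ← map_zero mk]
    refine Lim_eq fun n => ?_
    have h := ((hT n).2.2.1 l i hi j hj hij).le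
    rw [← sub_zero (β l i (g n l) * β l j (g n l))] at h
    exact h
  · have e : ∑ l, ∑ i ∈ Finset.range (N l), ext (β l i) (mk (toBS (fun n => g n l) (hb l))) =
        mk (∑ l, ∑ i ∈ Finset.range (N l), exB (β l i) (toBS (fun n => g n l) (hb l))) := by
      rw [map_sum]
      refine Finset.sum_congr rfl fun l _ => ?_
      rw [map_sum]
      exact Finset.sum_congr rfl fun i _ => ext_mk _ _
    show ∑ l, ∑ i ∈ Finset.range (N l), ext (β l i) (mk (toBS (fun n => g n l) (hb l))) = 1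
    rw [e, ← map_one mk]
    refine Lim_eq fun n => ?_
    have h := (hT n).2.2.2.le
    have e2 : (∑ l, ∑ i ∈ Finset.range (N l),
        exB (β l i) (toBS (fun n => g n l) (hb l)) : BS A) n =
        ∑ l, ∑ i ∈ Finset.range (N l), β l i (g n l) := by
      rw [BoundedContinuousFunction.coe_sum, Finset.sum_apply]
      refine Finset.sum_congr rfl fun l _ => ?_
      rw [BoundedContinuousFunction.coe_sum, Finset.sum_apply]
      rfl
    rw [e2]
    exact h
  · rw [cst_def, ← map_mul, ← map_mul]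
    refine Lim_eq fun n => ?_
    have h := ((hT n).2.1 l 0 hl (β l 0 a) (Finset.mem_union_right _
      (Finset.mem_biUnion.2 ⟨l, Finset.mem_univ _, Finset.mem_image_of_mem _ ha⟩))).le
    refine le_trans (Lim_iso (β l 0) _) ?_
    refine le_trans (le_of_eq (congrArg norm ?_)) h
    show β l 0 (g n l * a - a * g n l) = _
    rw [map_sub, map_mul, map_mul]

end Pool.Agent.H.MP_8be301_an.RD
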