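import Pool.Agent.H.MP_8be301_an.RD.Exact
import Pool.Agent.H.MP_8be301_an.RD.Lim
import Pool.Agent.H.MP_8be301_an.RD.Lift
import Pool.Agent.H.MP_8be301_an.RD.DivB
import Pool.Agent.H.MP_8be301_an.RD.Uni

/-!
# The dichotomy  (module Fin)
-/

set_option autoImplicit false

namespace Pool.Agent.H.MP_8be301_an.RD

open Finset

theorem infinite {A : Type*} [CStarAlgebra A] [PartialOrder A] [StarOrderedRing A] (hs : Simp A)
    (h0 : RR0 A) (hR : Rok A) (hi : Inf A) {q : A} (hq : Pj q) (hq0 : q ≠ 0) :
    ∃ v : A, star v * v = q ∧ q * v = v ∧ v * star v ≠ q := by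
  classical
  have : Nontrivial A := ⟨⟨q, 0, hq0⟩⟩
  obtain ⟨d, hd⟩ := hR
  obtain ⟨p, u, hp, hp0, huu, hqu⟩ := divide hs h0 hi d hq hq0
  obtain ⟨m, r, hr, hrr⟩ := copies hs hi hp hp0
  obtain ⟨N, β, hN, hβ, hg⟩ := hd m
  choose w hw using fun l i => hβ l i p hp
  have hup : ∀ l, u l * p = u l := fun l =>
    pi_right hp (by rw [huu, if_pos rfl])
  -- the finite set
  set F : Finset A := {p} ∪ univ.image u ∪
    univ.biUnion (fun l => (range (N l)).image (w l)) ∪
    (univ ×ˢ univ ×ˢ univ ×ˢ range (∑ l, N l)).image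
      (fun x : Fin m × Bool × Fin d × ℕ => r x.1 (Encodable.encode x.2)) with hF
  have hFp : p ∈ F := by simp [hF]
  have hFu : ∀ l, u l ∈ F := by
    intro l
    simp only [hF, mem_union, mem_image, mem_univ, true_and]
    exact Or.inl (Or.inl (Or.inr ⟨l, rfl⟩))
  have hFw : ∀ l, ∀ i < N l, w l i ∈ F := by
    intro l i hi
    simp only [hF, mem_union, mem_biUnion, mem_univ, true_and]
    exact Or.inl (Or.inr ⟨l, mem_image.2 ⟨i, mem_range.2 hi, rfl⟩⟩)
  have hFr : ∀ (l : Fin d) (i : Fin m) (t : Bool) (j : Fin d), ∀ k < N l,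
      r i (Encodable.encode (t, j, k)) ∈ F := by
    intro l i t j k hk
    simp only [hF, mem_union]
    refine Or.inr (mem_image.2 ⟨(i, t, j, k), ?_, rfl⟩)
    simp only [mem_product, mem_univ, true_and, mem_range]
    exact hk.trans_le (single_le_sum (f := N) (fun _ _ => Nat.zero_le _) (mem_univ l))
  obtain ⟨G, hG1, hG2, hG3, hG4, hG5⟩ := lim hg F
  have hb : ∀ l, 0 < N l → star (cst p * G l) = cst p * G l := by
    intro l hl
    rw [star_mul, hG1, ← cst_star, hp.2, hG5 l hl p hFp]
  have hS : ∀ l i, ∃ S : AI A, i < N l → star S * S = 1 ∧ S * star S = 1 ∧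
      star S * (cst p * G l) * S = ext (β l i) (cst p * G l) := by
    intro l i
    by_cases h : i < N l
    · obtain ⟨S, hS⟩ := limU h0 (hβ l i) (hb l (by omega))
      exact ⟨S, fun _ => hS⟩
    · exact ⟨1, fun h' => absurd h' h⟩
  choose S hS using hS
  have D : Dat d m N (fun l i => ext (β l i)) (cst p) G (fun l => cst (u l))
      (fun l i => cst (w l i)) S
      (fun i j => cst (r i (Encodable.encode j))) :=
    { hN := hN
      φs := fun l i x => ext_star _ _
      p2 := by rw [← map_mul, hp.1]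
      ps := by rw [← cst_star, hp.2]
      Gs := hG1
      pG := fun l hl => (hG5 l hl p hFp).symm
      uu := fun l l' => by
        rw [← cst_star, ← map_mul, huu]
        split_ifs
        · rfl
        · exact map_zero _
      up := fun l => by rw [← map_mul, hup]
      ww := fun l i _ => by rw [← cst_star, ← map_mul, (hw l i).1]
      ww' := fun l i _ => by rw [← cst_star, ← map_mul, (hw l i).2, ext_cst]
      wp := fun l i _ => by rw [← map_mul, pi_right hp (hw l i).1]
      SS := fun l i h => (hS l i h).1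
      SS' := fun l i h => (hS l i h).2.1
      SG := fun l i h => (hS l i h).2.2
      pr := fun i j => by rw [← map_mul, (hr i _).1]
      rp := fun i j => by rw [← map_mul, (hr i _).2]
      rr := fun j j' => by
        simp only [← cst_star, ← map_mul, ← map_sum, hrr]
        rw [apply_ite cst, map_zero]
        simp only [Encodable.encode_inj]
      rG := fun l i t j k hk => (hG5 l (by omega) _ (hFr l i t j k hk)).symm
      fu := fun l i h l' => hG2 l i h _ (hFu l')
      fw := fun l i h => hG2 l i h _ (hFw l i h)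
      ff := hG3 }
  obtain ⟨V, hV1, hV2⟩ := exact D
  -- the projection
  set Q : A := ∑ l, u l * star (u l) with hQ
  have hQc : ∑ l, cst (u l) * star (cst (u l)) = cst Q := by
    simp only [hQ, map_sum, map_mul, cst_star]
  have hQs : star Q = Q := by
    simp only [hQ, star_sum, star_mul, star_star]
  have hQu : ∀ l, Q * u l = u l := by
    intro l
    simp only [hQ, sum_mul, mul_assoc, huu]
    simp [hup]
  have hQ2 : Q * Q = Q := by
    conv_lhs => arg 2; rw [hQ]
    simp only [mul_sum, ← mul_assoc, hQu]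
    rw [hQ]
  have hqQ : q * Q = Q := by
    simp only [hQ, mul_sum, ← mul_assoc, hqu]
  have hQq : Q * q = Q := by
    have := congrArg star hqQ
    rwa [star_mul, hQs, hq.2] at this
  -- there is a colour
  have hd0 : 0 < d := by
    rcases Nat.eq_zero_or_pos d with h | h
    · subst h
      obtain ⟨g, hg⟩ := hg ∅ 1 one_pos
      have := hg.2.2.2
      simp at this
    · exact h
  have hQ0 : Q ≠ 0 := by
    intro h
    apply hp0
    have h1 := huu ⟨0, hd0⟩ ⟨0, hd0⟩
    rw [if_pos rfl, ← hQu ⟨0, hd0⟩, h, zero_mul, mul_zero] at h1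
    exact h1.symm
  -- commutation with `u`, `star u`
  have hfu : ∀ l, ∀ i < N l, ∀ l', ext (β l i) (G l) * cst (u l') = cst (u l') * ext (β l i) (G l) :=
    fun l i h l' => hG2 l i h _ (hFu l')
  have hfs : ∀ l, ∀ i, star (ext (β l i) (G l)) = ext (β l i) (G l) := by
    intro l i
    rw [← ext_star, hG1]
  have hfu' : ∀ l, ∀ i < N l, ∀ l', ext (β l i) (G l) * star (cst (u l')) =
      star (cst (u l')) * ext (β l i) (G l) := by
    intro l i h l'
    have := congrArg star (hfu l i h l')
    rw [star_mul, star_mul, hfs] at this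
    exact this.symm
  have hfQ : ∀ l, ∀ i < N l, ext (β l i) (G l) * cst Q = cst Q * ext (β l i) (G l) := by
    intro l i h
    rw [← hQc, mul_sum, sum_mul]
    refine sum_congr rfl fun l' _ => ?_
    rw [← mul_assoc, hfu l i h, mul_assoc, hfu' l i h, mul_assoc]
  set e : Fin d → AI A := fun l => ∑ k ∈ range (N l), ext (β l k) (G l) with he
  have hee : ∀ l, e l * e l = ∑ k ∈ range (N l), ext (β l k) (G l) * ext (β l k) (G l) := by
    intro l
    simp only [he, sum_mul_sum]
    refine sum_congr rfl fun k hk => ?_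
    rw [sum_eq_single k]
    · intro k' hk' hne
      exact hG3 l k (mem_range.1 hk) k' (mem_range.1 hk') hne.symm
    · intro h
      exact absurd hk h
  rw [hQc] at hV1
  simp only [hQc] at hV2
  obtain ⟨v, hv1, hv2, hv3⟩ := lift (q := Q) ⟨hQ2, hQs⟩ hQ0 (e := e)
    (fun l => by simp only [he, star_sum, hfs])
    (fun l => by
      simp only [he, sum_mul, mul_sum]
      exact sum_congr rfl fun k hk => hfQ l k (mem_range.1 hk))
    hG4 (V := V) (fun t t' => by
      rw [hV1]
      simp only [hee]) hV2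
  -- extension by the identity of `q - Q`
  have hvQ : v * Q = v := pi_right ⟨hQ2, hQs⟩ hv1
  have hv2' : star v * Q = star v := by
    have := congrArg star hv2
    rwa [star_mul, hQs] at this
  have hvQ' : Q * star v = star v := by
    have := congrArg star hvQ
    rwa [star_mul, hQs] at this
  have k1 : star v * (q - Q) = 0 := by
    rw [← hv2', mul_assoc, mul_sub, hQq, hQ2, sub_self, mul_zero]
  have k2 : (q - Q) * v = 0 := by
    rw [← hv2, ← mul_assoc, sub_mul, hqQ, hQ2, sub_self, zero_mul]
  have k3 : v * (q - Q) = 0 := by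
    rw [← hvQ, mul_assoc, mul_sub, hQq, hQ2, sub_self, mul_zero]
  have k4 : (q - Q) * star v = 0 := by
    rw [← hvQ', ← mul_assoc, sub_mul, hqQ, hQ2, sub_self, zero_mul]
  have k5 : (q - Q) * (q - Q) = q - Q := by
    rw [sub_mul, mul_sub, mul_sub, hq.1, hqQ, hQq, hQ2]
    abel
  have k6 : star (q - Q) = q - Q := by rw [star_sub, hq.2, hQs]
  refine ⟨v + (q - Q), ?_, ?_, ?_⟩
  · rw [star_add, k6, add_mul, mul_add, mul_add, k1, k2, k5, hv1]
    abel
  · rw [mul_add, mul_sub, hq.1, hqQ, ← hv2, ← mul_assoc, hqQ]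
  · intro h
    apply hv3
    rw [star_add, k6, add_mul, mul_add, mul_add, k3, k4, k5] at h
    have h2 : v * star v = v * star v + 0 + (0 + (q - Q)) - (q - Q) := by abel
    rw [h2, h]
    abel

theorem dich {A : Type*} [CStarAlgebra A] (hs : Simp A) (h0 : RR0 A) (hR : Rok A) :
    (∀ (n : ℕ) (v : Matrix (Fin n) (Fin n) (Unitization ℂ A)),
        star v * v = 1 → v * star v = 1) ∨
      (∀ a : A, a ≠ 0 → (∃ y : A, a = star y * y) →
        ∃ p ∈ closure {x : A | ∃ z : A, x = a * z * a},
          p * p = p ∧ star p = p ∧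
          ∃ v : A, star v * v = p ∧ v * star v * p = v * star v ∧ v * star v ≠ p) := by
  let _ := CStarAlgebra.spectralOrder A
  have := CStarAlgebra.spectralOrderedRing A
  by_cases hi : Inf A
  · right
    rintro a ha ⟨y, hy⟩
    have hsa : IsSelfAdjoint a := by
      rw [hy]
      exact IsSelfAdjoint.star_mul_self y
    obtain ⟨z, hz, hz0⟩ := hp2 h0 ha hsa
    obtain ⟨v, hv1, hv2, hv3⟩ := infinite hs h0 hR hi hz hz0
    refine ⟨a * z * a, subset_closure ⟨z, rfl⟩, hz.1, hz.2, v, hv1, ?_, hv3⟩
    have h1 := congrArg star hv2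
    rw [star_mul, hz.2] at h1
    rw [mul_assoc, h1]
  · left
    intro n v h
    by_contra h'
    exact hi (inf_of_unitization h h')

end Pool.Agent.H.MP_8be301_an.RD
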