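import Pool.Agent.H.MP_8be301_an.RD.Defs

/-!
# Bounded sequences modulo null sequences  (module Seq)

`AI A` is the star ring of the bounded sequences of elements of `A` modulo the null sequences. `cst : A →+* AI A`, and
`ext β : AI A →+* AI A` for an automorphism `β`.
-/

set_option autoImplicit false

namespace Pool.Agent.H.MP_8be301_an.RD

open Filter Topology

variable {A : Type*} [CStarAlgebra A]

/-- bounded sequences -/
abbrev BS (A : Type*) [CStarAlgebra A] := BoundedContinuousFunction ℕ A

theorem BS_bdd (x : BS A) : ∃ C : ℝ, 0 ≤ C ∧ ∀ n, ‖x n‖ ≤ C :=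
  ⟨‖x‖, norm_nonneg _, fun n => x.norm_coe_le_norm n⟩

/-- the product of a bounded sequence and a null sequence -/
theorem tz_mul {x : ℕ → A} {C : ℝ} (hx : ∀ n, ‖x n‖ ≤ C) {y : ℕ → A}
    (hy : Tendsto y atTop (𝓝 0)) : Tendsto (fun n => x n * y n) atTop (𝓝 0) := by
  have hy' := (tendsto_zero_iff_norm_tendsto_zero.1 hy).const_mul C
  rw [mul_zero] at hy'
  refine tendsto_zero_iff_norm_tendsto_zero.2 (squeeze_zero (fun _ => norm_nonneg _) ?_ hy')
  intro n
  exact (norm_mul_le _ _).trans (mul_le_mul_of_nonneg_right (hx n) (norm_nonneg _))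

theorem tz_mul' {x : ℕ → A} {C : ℝ} (hx : ∀ n, ‖x n‖ ≤ C) {y : ℕ → A}
    (hy : Tendsto y atTop (𝓝 0)) : Tendsto (fun n => y n * x n) atTop (𝓝 0) := by
  have hy' := (tendsto_zero_iff_norm_tendsto_zero.1 hy).mul_const C
  rw [zero_mul] at hy'
  refine tendsto_zero_iff_norm_tendsto_zero.2 (squeeze_zero (fun _ => norm_nonneg _) ?_ hy')
  intro n
  exact (norm_mul_le _ _).trans (mul_le_mul_of_nonneg_left (hx n) (norm_nonneg _))

/-- the sequences differ by a null sequence -/
def sqCon (A : Type*) [CStarAlgebra A] : RingCon (BS A) where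
  r x y := Tendsto (fun n => x n - y n) atTop (𝓝 0)
  iseqv :=
    { refl := fun x => by simp
      symm := fun {x y} h => by
        have := h.neg
        simpa using this
      trans := fun {x y z} h h' => by
        have := h.add h'
        simpa using this }
  add' := fun {x y z w} h h' => by
    have := h.add h'
    rw [add_zero] at this
    refine this.congr fun n => ?_
    simp only [BoundedContinuousFunction.coe_add, Pi.add_apply]
    abel
  mul' := fun {x y z w} h h' => by
    obtain ⟨C, -, hC⟩ := BS_bdd x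
    obtain ⟨D, -, hD⟩ := BS_bdd w
    have h1 := (tz_mul hC h').add (tz_mul' hD h)
    rw [add_zero] at h1
    refine h1.congr fun n => ?_
    simp only [BoundedContinuousFunction.coe_mul, Pi.mul_apply, mul_sub, sub_mul]
    abel

/-- bounded sequences modulo null sequences -/
def AI (A : Type*) [CStarAlgebra A] : Type _ := (sqCon A).Quotient

noncomputable instance : Ring (AI A) := inferInstanceAs (Ring (sqCon A).Quotient)

/-- the class of a sequence -/
noncomputable def mk : BS A →+* AI A := (sqCon A).mk'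

theorem mk_surj : Function.Surjective (mk : BS A → AI A) := Quotient.mk''_surjective

theorem mk_eq {x y : BS A} : mk x = mk y ↔ Tendsto (fun n => x n - y n) atTop (𝓝 0) :=
  RingCon.eq _

noncomputable instance : Star (AI A) := ⟨Quotient.map' star fun x y h => by
  have h1 : Tendsto (fun n => star (x n - y n)) atTop (𝓝 (star 0)) :=
    (continuous_star.tendsto _).comp h
  rw [star_zero] at h1
  refine h1.congr fun n => ?_
  simp⟩

theorem mk_star (x : BS A) : mk (star x) = star (mk x) := rfl

noncomputable instance : StarRing (AI A) where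
  star_involutive x := by
    obtain ⟨x, rfl⟩ := mk_surj x
    rw [← mk_star, ← mk_star, star_star]
  star_mul x y := by
    obtain ⟨x, rfl⟩ := mk_surj x
    obtain ⟨y, rfl⟩ := mk_surj y
    rw [← map_mul, ← mk_star, ← mk_star, ← mk_star, star_mul, map_mul]
  star_add x y := by
    obtain ⟨x, rfl⟩ := mk_surj x
    obtain ⟨y, rfl⟩ := mk_surj y
    rw [← map_add, ← mk_star, ← mk_star, ← mk_star, star_add, map_add]

/-- the sequence of a bounded function -/
noncomputable def toBS (f : ℕ → A) {C : ℝ} (h : ∀ n, ‖f n‖ ≤ C) : BS A :=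
  BoundedContinuousFunction.ofNormedAddCommGroupDiscrete f C h

theorem toBS_apply (f : ℕ → A) {C : ℝ} (h : ∀ n, ‖f n‖ ≤ C) (n : ℕ) : toBS f h n = f n := rfl

/-- constant sequences -/
noncomputable def cst : A →+* AI A :=
  mk.comp
    { toFun := fun a => BoundedContinuousFunction.const ℕ a
      map_one' := rfl
      map_mul' := fun _ _ => rfl
      map_zero' := rfl
      map_add' := fun _ _ => rfl }

theorem cst_def (a : A) : cst a = mk (BoundedContinuousFunction.const ℕ a) := rfl

theorem cst_star (a : A) : cst (star a) = star (cst a) := rfl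

/-- an automorphism applied to a bounded sequence -/
noncomputable def exB (β : A ≃⋆ₐ[ℂ] A) : BS A →+* BS A where
  toFun x := toBS (fun n => β (x n)) (C := ‖x‖) fun n => by
    exact (NonUnitalStarAlgHom.norm_apply_le β (x n)).trans (x.norm_coe_le_norm n)
  map_one' := by ext n; exact map_one β
  map_mul' x y := by ext n; exact map_mul β _ _
  map_zero' := by ext n; exact map_zero β
  map_add' x y := by ext n; exact map_add β _ _

theorem exB_apply (β : A ≃⋆ₐ[ℂ] A) (x : BS A) (n : ℕ) : exB β x n = β (x n) := rfl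

/-- an automorphism applied to a class of bounded sequences -/
noncomputable def ext (β : A ≃⋆ₐ[ℂ] A) : AI A →+* AI A where
  toFun := Quotient.map' (exB β) fun x y h => by
    have h1 : Tendsto (fun n => β (x n - y n)) atTop (𝓝 0) := by
      refine tendsto_zero_iff_norm_tendsto_zero.2 (squeeze_zero (fun _ => norm_nonneg _)
        (fun n => NonUnitalStarAlgHom.norm_apply_le β (x n - y n)) ?_)
      exact tendsto_zero_iff_norm_tendsto_zero.1 h
    refine h1.congr fun n => ?_
    rw [exB_apply, exB_apply, map_sub]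
  map_one' := congrArg mk (map_one (exB β))
  map_mul' x y := by
    obtain ⟨x, rfl⟩ := mk_surj x
    obtain ⟨y, rfl⟩ := mk_surj y
    exact congrArg mk (map_mul (exB β) x y)
  map_zero' := congrArg mk (map_zero (exB β))
  map_add' x y := by
    obtain ⟨x, rfl⟩ := mk_surj x
    obtain ⟨y, rfl⟩ := mk_surj y
    exact congrArg mk (map_add (exB β) x y)

theorem ext_mk (β : A ≃⋆ₐ[ℂ] A) (x : BS A) : ext β (mk x) = mk (exB β x) := rfl

theorem ext_cst (β : A ≃⋆ₐ[ℂ] A) (a : A) : ext β (cst a) = cst (β a) := by
  refine congrArg mk ?_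
  ext n
  rfl

theorem ext_star (β : A ≃⋆ₐ[ℂ] A) (x : AI A) : ext β (star x) = star (ext β x) := by
  obtain ⟨x, rfl⟩ := mk_surj x
  rw [← mk_star, ext_mk, ext_mk, ← mk_star]
  refine congrArg mk ?_
  ext n
  exact map_star β (x n)

/-- a self-adjoint class has a self-adjoint representative -/
theorem exists_sa {b : AI A} (hb : star b = b) : ∃ x : BS A, mk x = b ∧
    ∀ n, IsSelfAdjoint (x n) := by
  obtain ⟨x, rfl⟩ := mk_surj b
  rw [← mk_star, mk_eq] at hb
  refine ⟨(2⁻¹ : ℝ) • (x + star x), ?_, fun n => ?_⟩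
  · rw [mk_eq]
    have h2 := hb.const_smul (2⁻¹ : ℝ)
    rw [smul_zero] at h2
    refine h2.congr fun n => ?_
    simp only [BoundedContinuousFunction.coe_smul, BoundedContinuousFunction.coe_add,
      Pi.add_apply]
    have h3 : (2⁻¹ : ℝ) • x n + (2⁻¹ : ℝ) • x n = x n := by
      rw [← add_smul]
      norm_num
    rw [eq_sub_iff_add_eq, smul_sub, smul_add]
    calc (2⁻¹ : ℝ) • (star x) n - (2⁻¹ : ℝ) • x n + x n
        = (2⁻¹ : ℝ) • (star x) n - (2⁻¹ : ℝ) • x n + ((2⁻¹ : ℝ) • x n + (2⁻¹ : ℝ) • x n) := by
          rw [h3]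
      _ = _ := by abel
  · show star ((2⁻¹ : ℝ) • (x n + star (x n))) = (2⁻¹ : ℝ) • (x n + star (x n))
    rw [star_smul, star_add, star_star, star_trivial, add_comm]

end Pool.Agent.H.MP_8be301_an.RD
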